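import Pool.Agent.H.MP_e23cd6_ag.AK.Defs2

/-!
MP_e23cd6_ag, block CB: compact Kaehler quotients of (bounded domain) × ℂ^k whose leaves are products of blocks which are
quasiconformally flat.

`blk : Fin kk → Fin r` assigns to every coordinate its block. `sc blk x` multiplies the coordinate `j` by `x (blk j)`
(the block scalars); a linear map preserves the blocks iff it commutes with all block scalars.
-/

open Set Filter Topology Metric
open scoped ContDiff ComplexConjugate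

namespace Pool.Agent.H.MP_e23cd6_ag.CB

open Pool.Agent.H.MP_e23cd6_ag.AB Pool.Agent.H.MP_e23cd6_ag.AK

variable {n kk r : ℕ} {Ω : Dom n} {Γ : Type} [Group Γ]

/-- block scalars -/
noncomputable def sc {kk r : ℕ} (blk : Fin kk → Fin r) (x : Fin r → ℂ) : E kk →L[ℂ] E kk :=
  ContinuousLinearMap.pi fun j => x (blk j) • ContinuousLinearMap.proj (R := ℂ) (φ := fun _ : Fin kk => ℂ) j

@[simp] theorem sc_apply (blk : Fin kk → Fin r) (x : Fin r → ℂ) (v : E kk) (j : Fin kk) :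
    sc blk x v j = x (blk j) * v j := by
  simp [sc]

theorem sc_one (blk : Fin kk → Fin r) : sc blk 1 = 1 := by
  ext1 v; funext j; simp

theorem sc_mul (blk : Fin kk → Fin r) (x y : Fin r → ℂ) : sc blk (x * y) = sc blk x * sc blk y := by
  ext1 v; funext j
  show _ = sc blk x (sc blk y v) j
  simp [mul_assoc]

/-- `v` is supported in the block `i` -/
def InB (blk : Fin kk → Fin r) (i : Fin r) (v : E kk) : Prop := ∀ j, blk j ≠ i → v j = 0

/-- the fibre maps permute the blocks -/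
def PermBlk (A : TotAct Ω kk Γ) (blk : Fin kk → Fin r) : Prop :=
  ∀ γ, ∃ σ : Equiv.Perm (Fin r), ∀ b ∈ Ω.D, ∀ z z' : E kk, ∀ i,
    (∀ j, blk j = σ i → z j = z' j) → ∀ j, blk j = i → (A.act γ (b, z)).2 j = (A.act γ (b, z')).2 j

/-- the derivative of the fibre map -/
noncomputable def DF (A : TotAct Ω kk Γ) (γ : Γ) (b : E n) (z : E kk) : E kk →L[ℂ] E kk :=
  fderiv ℂ (fun z => (A.act γ (b, z)).2) z

/-- the fibre maps are quasiconformal on the blocks, uniformly over compact subsets of the domain -/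
def QCT (A : TotAct Ω kk Γ) (blk : Fin kk → Fin r) : Prop :=
  ∀ K ⊆ Ω.D, IsCompact K → ∃ C : ℝ, 0 < C ∧ ∀ γ, ∀ b ∈ K, A.β γ b ∈ K → ∀ z : E kk, ∀ i,
    ∀ v w : E kk, InB blk i v → InB blk i w →
      ‖DF A γ b z v‖ * ‖w‖ ≤ C * (‖DF A γ b z w‖ * ‖v‖)

/-- the linear parts preserve the blocks -/
def IsBlk (A : FibAct Ω kk Γ) (blk : Fin kk → Fin r) : Prop :=
  ∀ γ, ∀ b ∈ Ω.D, ∀ x : Fin r → ℂ, A.L γ b * sc blk x = sc blk x * A.L γ b

/-- the linear parts are quasiconformal on the blocks, uniformly over compact subsets of the domain -/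
def QC (A : FibAct Ω kk Γ) (blk : Fin kk → Fin r) : Prop :=
  ∀ K ⊆ Ω.D, IsCompact K → ∃ C : ℝ, 0 < C ∧ ∀ γ, ∀ b ∈ K, A.β γ b ∈ K → ∀ i,
    ∀ v w : E kk, InB blk i v → InB blk i w →
      ‖A.L γ b v‖ * ‖w‖ ≤ C * (‖A.L γ b w‖ * ‖v‖)

/-- up to holomorphic block scalars the linear part of `γ` is close to one on the marked open ball -/
def Near (A : FibAct Ω kk Γ) (blk : Fin kk → Fin r) (δ : ℝ) (γ : Γ) : Prop :=
  ∃ a : E n → Fin r → ℂ, DifferentiableOn ℂ a (ball Ω.b0 Ω.r1) ∧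
    ∀ b ∈ ball Ω.b0 Ω.r1, ‖sc blk (fun i => Complex.exp (-(a b i))) * A.L γ b - 1‖ ≤ δ

end Pool.Agent.H.MP_e23cd6_ag.CB
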