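import Pool.Agent.H.MP_e23cd6_ag.AB.A6

/-!
CB M1a: entire maps which are uniformly quasiconformal are affine in dimension at least two.

Let `J z` be the derivative, `δ z` its determinant in fixed bases, entire without zeros. By
quasiconformality `‖J z‖ ^ m ≤ K |δ z|`. So `ξ (J z v) ^ m / δ z` is a bounded entire function,
constant. Choose ξ, v with `a z = ξ (J z v)`, `a 0 ≠ 0`: then `a ^ m = c δ`, `|a z| ≥ c' ‖J z‖`, and
`J z / a z` is bounded and entire, constant. So `J z = α z • J 0`, and the symmetry of the second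
derivative gives `α = 1`.
-/

open Set Filter Topology Metric

namespace Pool.Agent.H.MP_e23cd6_ag.CB

open Pool.Agent.H.MP_e23cd6_ag.AB

section

variable {V W : Type} [NormedAddCommGroup V] [NormedSpace ℂ V] [FiniteDimensional ℂ V]
    [NormedAddCommGroup W] [NormedSpace ℂ W] [FiniteDimensional ℂ W]

/-- the inverse of a quasiconformal linear map -/
theorem M1a_inv {C : ℝ} (hC : 0 ≤ C) {J : V →L[ℂ] W} (hinj : Function.Injective J)
    (hq : ∀ v w, ‖J v‖ * ‖w‖ ≤ C * (‖J w‖ * ‖v‖))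
    (hdim : Module.finrank ℂ W = Module.finrank ℂ V) :
    ∃ S : W →L[ℂ] V, (∀ v, S (J v) = v) ∧ ‖S‖ * ‖J‖ ≤ C := by
  let e : V ≃ₗ[ℂ] W := LinearMap.linearEquivOfInjective (J : V →ₗ[ℂ] W) hinj hdim.symm
  have he : ∀ v, e v = J v := fun v => rfl
  let S : W →L[ℂ] V := LinearMap.toContinuousLinearMap (e.symm : W →ₗ[ℂ] V)
  have hS : ∀ w, S w = e.symm w := fun w => rfl
  refine ⟨S, fun v => ?_, ?_⟩
  · rw [hS, ← he, LinearEquiv.symm_apply_apply]
  · rcases eq_or_ne ‖J‖ 0 with h0 | h0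
    · rw [h0, mul_zero]
      exact hC
    · have hJ0 : 0 < ‖J‖ := lt_of_le_of_ne (norm_nonneg _) (Ne.symm h0)
      rw [← le_div_iff₀ hJ0]
      refine ContinuousLinearMap.opNorm_le_bound _ (by positivity) fun w => ?_
      obtain ⟨x, rfl⟩ : ∃ x, J x = w := ⟨e.symm w, by rw [← he, LinearEquiv.apply_symm_apply]⟩
      have h1 : S (J x) = x := by rw [hS, ← he, LinearEquiv.symm_apply_apply]
      rw [h1]
      rcases eq_or_ne x 0 with hx | hx
      · rw [hx, norm_zero]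
        positivity
      · have hx0 : 0 < ‖x‖ := norm_pos_iff.2 hx
        have h2 : ‖J‖ ≤ C * ‖J x‖ / ‖x‖ := by
          refine ContinuousLinearMap.opNorm_le_bound _ (by positivity) fun v => ?_
          rw [div_mul_eq_mul_div, le_div_iff₀ hx0]
          have := hq v x
          linarith
        rw [le_div_iff₀ hx0] at h2
        rw [div_mul_eq_mul_div, le_div_iff₀ hJ0]
        linarith

/-- the determinant in fixed bases controls the norm -/
theorem M1a_det {m : ℕ} (bV : Module.Basis (Fin m) ℂ V) (bW : Module.Basis (Fin m) ℂ W) {C : ℝ}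
    (hC : 0 ≤ C) (hdim : Module.finrank ℂ W = Module.finrank ℂ V) :
    ∃ K : ℝ, 0 < K ∧ ∀ J : V →L[ℂ] W, Function.Injective J →
      (∀ v w, ‖J v‖ * ‖w‖ ≤ C * (‖J w‖ * ‖v‖)) →
      ‖J‖ ^ m ≤ K * ‖(Matrix.of fun i j => bW.coord i (J (bV j))).det‖ ∧
      (Matrix.of fun i j => bW.coord i (J (bV j))).det ≠ 0 := by
  classical
  let cf : Fin m → V →L[ℂ] ℂ := fun i => LinearMap.toContinuousLinearMap (bV.coord i)
  obtain ⟨K1, hK1, hK2⟩ : ∃ K1 : ℝ, 0 ≤ K1 ∧ ∀ (S : W →L[ℂ] V) (i j : Fin m),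
      ‖bV.coord i (S (bW j))‖ ≤ K1 * ‖S‖ := by
    refine ⟨(∑ i, ‖cf i‖) * ∑ j, ‖bW j‖, mul_nonneg (Finset.sum_nonneg fun _ _ => norm_nonneg _)
      (Finset.sum_nonneg fun _ _ => norm_nonneg _), fun S i j => ?_⟩
    have h1 : ‖cf i (S (bW j))‖ ≤ ‖cf i‖ * (‖S‖ * ‖bW j‖) :=
      ((cf i).le_opNorm _).trans (mul_le_mul_of_nonneg_left (S.le_opNorm _) (norm_nonneg _))
    have h2 : ‖cf i‖ ≤ ∑ i, ‖cf i‖ :=
      Finset.single_le_sum (f := fun i => ‖cf i‖) (fun _ _ => norm_nonneg _) (Finset.mem_univ i)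
    have h3 : ‖bW j‖ ≤ ∑ j, ‖bW j‖ :=
      Finset.single_le_sum (f := fun j => ‖bW j‖) (fun _ _ => norm_nonneg _) (Finset.mem_univ j)
    calc ‖bV.coord i (S (bW j))‖ = ‖cf i (S (bW j))‖ := rfl
      _ ≤ ‖cf i‖ * (‖S‖ * ‖bW j‖) := h1
      _ ≤ (∑ i, ‖cf i‖) * (‖S‖ * ∑ j, ‖bW j‖) :=
          mul_le_mul h2 (mul_le_mul_of_nonneg_left h3 (norm_nonneg _)) (by positivity)
            (Finset.sum_nonneg fun _ _ => norm_nonneg _)
      _ = (∑ i, ‖cf i‖) * (∑ j, ‖bW j‖) * ‖S‖ := by ring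
  refine ⟨(Nat.factorial m : ℝ) * (K1 * C + 1) ^ m, by positivity, fun J hinj hq => ?_⟩
  obtain ⟨S, hS, hSn⟩ := M1a_inv hC hinj hq hdim
  have hM : (Matrix.of fun i j => bW.coord i (J (bV j))) =
      LinearMap.toMatrix bV bW (J : V →ₗ[ℂ] W) := by
    ext i j
    rw [LinearMap.toMatrix_apply]
    rfl
  have hprod : (LinearMap.toMatrix bW bV (S : W →ₗ[ℂ] V)) *
      (Matrix.of fun i j => bW.coord i (J (bV j))) = 1 := by
    rw [hM, ← LinearMap.toMatrix_comp bV bW bV]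
    have : ((S : W →ₗ[ℂ] V) ∘ₗ (J : V →ₗ[ℂ] W)) = LinearMap.id := by
      ext v
      exact hS v
    rw [this, LinearMap.toMatrix_id]
  have hdet := congrArg Matrix.det hprod
  rw [Matrix.det_mul, Matrix.det_one] at hdet
  have hne : (Matrix.of fun i j => bW.coord i (J (bV j))).det ≠ 0 :=
    right_ne_zero_of_mul (hdet ▸ one_ne_zero)
  refine ⟨?_, hne⟩
  have hN : ‖(LinearMap.toMatrix bW bV (S : W →ₗ[ℂ] V)).det‖ ≤
      (Nat.factorial m : ℝ) * (K1 * ‖S‖) ^ m := by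
    have h1 := Matrix.det_le (A := LinearMap.toMatrix bW bV (S : W →ₗ[ℂ] V))
      (abv := NormedField.toAbsoluteValue ℂ) (x := K1 * ‖S‖) (fun i j => by
        rw [LinearMap.toMatrix_apply]
        exact hK2 S i j)
    rw [Fintype.card_fin, nsmul_eq_mul] at h1
    exact h1
  have h2 : 1 = ‖(LinearMap.toMatrix bW bV (S : W →ₗ[ℂ] V)).det‖ *
      ‖(Matrix.of fun i j => bW.coord i (J (bV j))).det‖ := by
    rw [← norm_mul, hdet, norm_one]
  set d := ‖(Matrix.of fun i j => bW.coord i (J (bV j))).det‖ with hd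
  have hd0 : 0 ≤ d := norm_nonneg _
  have h3 : 1 ≤ (Nat.factorial m : ℝ) * (K1 * ‖S‖) ^ m * d := by
    calc (1 : ℝ) = _ := h2
      _ ≤ _ := mul_le_mul_of_nonneg_right hN hd0
  have h4 : K1 * ‖S‖ * ‖J‖ ≤ K1 * C + 1 := by
    have := mul_le_mul_of_nonneg_left hSn hK1
    linarith
  calc ‖J‖ ^ m = 1 * ‖J‖ ^ m := (one_mul _).symm
    _ ≤ ((Nat.factorial m : ℝ) * (K1 * ‖S‖) ^ m * d) * ‖J‖ ^ m :=
        mul_le_mul_of_nonneg_right h3 (by positivity)
    _ = (Nat.factorial m : ℝ) * (K1 * ‖S‖ * ‖J‖) ^ m * d := by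
        rw [mul_pow (K1 * ‖S‖) ‖J‖ m]; ring
    _ ≤ (Nat.factorial m : ℝ) * (K1 * C + 1) ^ m * d := by
        refine mul_le_mul_of_nonneg_right ?_ hd0
        refine mul_le_mul_of_nonneg_left ?_ (by positivity)
        exact pow_le_pow_left₀ (by positivity) h4 m

/-- An entire map between spaces of the same dimension at least two which is uniformly
quasiconformal has constant derivative. -/
theorem conf_const_q {C : ℝ} {f : V → W} (hf : Differentiable ℂ f)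
    (hinj : ∀ z, Function.Injective (fderiv ℂ f z))
    (hq : ∀ z v w, ‖fderiv ℂ f z v‖ * ‖w‖ ≤ C * (‖fderiv ℂ f z w‖ * ‖v‖))
    (hdim : Module.finrank ℂ W = Module.finrank ℂ V) (h2 : 2 ≤ Module.finrank ℂ V) (z : V) :
    fderiv ℂ f z = fderiv ℂ f 0 := by
  classical
  obtain ⟨J, hJ⟩ : ∃ J, J = fderiv ℂ f := ⟨_, rfl⟩
  rw [← hJ] at hinj hq ⊢
  have hJd : Differentiable ℂ J := by
    rw [hJ, ← differentiableOn_univ]
    exact holo_fderiv isOpen_univ (differentiableOn_univ.2 hf)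
  have hnt : Nontrivial V := Module.nontrivial_of_finrank_pos (R := ℂ) (by omega)
  obtain ⟨e, he⟩ := exists_ne (0 : V)
  have hJe : J 0 e ≠ 0 := fun h0 => he (hinj 0 (h0.trans (map_zero (J 0)).symm))
  have hC : 0 ≤ C := by
    have h1 := hq 0 e e
    have h3 : 0 < ‖J 0 e‖ * ‖e‖ := mul_pos (norm_pos_iff.2 hJe) (norm_pos_iff.2 he)
    by_contra hneg
    push Not at hneg
    have := mul_neg_of_neg_of_pos hneg h3
    linarith
  obtain ⟨m, hm⟩ : ∃ m, m = Module.finrank ℂ V := ⟨_, rfl⟩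
  have hm0 : m ≠ 0 := by omega
  let bV : Module.Basis (Fin m) ℂ V := Module.finBasisOfFinrankEq ℂ V hm.symm
  let bW : Module.Basis (Fin m) ℂ W := Module.finBasisOfFinrankEq ℂ W (hdim.trans hm.symm)
  obtain ⟨K, hK, hdet⟩ := M1a_det bV bW hC hdim
  obtain ⟨δ, hδ⟩ : ∃ δ : V → ℂ, ∀ z, δ z = (Matrix.of fun i j => bW.coord i (J z (bV j))).det :=
    ⟨_, fun _ => rfl⟩
  have hδne : ∀ z, δ z ≠ 0 := fun z => by
    rw [hδ]
    exact (hdet (J z) (hinj z) (hq z)).2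
  have hδK : ∀ z, ‖J z‖ ^ m ≤ K * ‖δ z‖ := fun z => by
    rw [hδ]
    exact (hdet (J z) (hinj z) (hq z)).1
  have hev : ∀ (ξ : W →L[ℂ] ℂ) (v : V), Differentiable ℂ fun z => ξ (J z v) := by
    intro ξ v
    exact ξ.differentiable.comp (hJd.clm_apply (differentiable_const v))
  have hδd : Differentiable ℂ δ := by
    have h1 : δ = fun z => ∑ σ : Equiv.Perm (Fin m), ((Equiv.Perm.sign σ : ℤ) : ℂ) *
        ∏ i, bW.coord (σ i) (J z (bV i)) := by
      funext z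
      rw [hδ, Matrix.det_apply']
      rfl
    rw [h1]
    refine Differentiable.fun_sum fun σ _ => ?_
    refine Differentiable.const_mul ?_ _
    intro z
    exact (HasFDerivAt.finsetProd (u := Finset.univ)
      (g := fun i z => bW.coord (σ i) (J z (bV i)))
      (fun i _ => ((hev (LinearMap.toContinuousLinearMap (bW.coord (σ i))) (bV i)) z).hasFDerivAt)
      ).differentiableAt
  -- a functional
  obtain ⟨ξ, hξn, hξ⟩ := exists_dual_vector ℂ (J 0 e) (norm_ne_zero_iff.2 hJe)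
  obtain ⟨a, ha⟩ : ∃ a : V → ℂ, ∀ z, a z = ξ (J z e) := ⟨_, fun _ => rfl⟩
  have had : Differentiable ℂ a := by
    have : a = fun z => ξ (J z e) := funext ha
    rw [this]
    exact hev ξ e
  have ha0 : a 0 ≠ 0 := by
    rw [ha, hξ]
    exact Complex.ofReal_ne_zero.2 (norm_ne_zero_iff.2 hJe)
  have han : ∀ z, ‖a z‖ ≤ ‖J z‖ * ‖e‖ := by
    intro z
    rw [ha]
    refine (ξ.le_opNorm _).trans ?_
    rw [hξn, one_mul]
    exact (J z).le_opNorm e
  have hg : ∀ z, a z ^ m * (δ z)⁻¹ = a 0 ^ m * (δ 0)⁻¹ := by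
    intro z
    have hd : Differentiable ℂ fun z => a z ^ m * (δ z)⁻¹ := (had.pow m).mul (hδd.inv hδne)
    refine hd.apply_eq_apply_of_bounded ?_ z 0
    refine isBounded_iff_forall_norm_le.2 ⟨K * ‖e‖ ^ m, ?_⟩
    rintro _ ⟨z, rfl⟩
    rw [norm_mul, norm_pow, norm_inv, ← div_eq_mul_inv, div_le_iff₀ (norm_pos_iff.2 (hδne z))]
    calc ‖a z‖ ^ m ≤ (‖J z‖ * ‖e‖) ^ m := pow_le_pow_left₀ (norm_nonneg _) (han z) m
      _ = ‖J z‖ ^ m * ‖e‖ ^ m := mul_pow _ _ _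
      _ ≤ K * ‖δ z‖ * ‖e‖ ^ m := mul_le_mul_of_nonneg_right (hδK z) (by positivity)
      _ = K * ‖e‖ ^ m * ‖δ z‖ := by ring
  obtain ⟨c, hc⟩ : ∃ c : ℂ, c = a 0 ^ m * (δ 0)⁻¹ := ⟨_, rfl⟩
  have hc0 : c ≠ 0 := by
    rw [hc]
    exact mul_ne_zero (pow_ne_zero m ha0) (inv_ne_zero (hδne 0))
  have ham : ∀ z, a z ^ m = c * δ z := fun z => by
    rw [hc, ← hg z, inv_mul_cancel_right₀ (hδne z)]
  have hane : ∀ z, a z ≠ 0 := by
    intro z h0
    have h1 := ham z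
    rw [h0, zero_pow hm0] at h1
    exact mul_ne_zero hc0 (hδne z) h1.symm
  -- `J / a` is bounded
  obtain ⟨K2, hK2, hK3⟩ : ∃ K2 : ℝ, 0 < K2 ∧ ∀ z, ‖J z‖ ≤ K2 * ‖a z‖ := by
    refine ⟨K / ‖c‖ + 1, by positivity, fun z => ?_⟩
    have hc1 : 0 < ‖c‖ := norm_pos_iff.2 hc0
    have h1 : ‖J z‖ ^ m ≤ (K / ‖c‖) * ‖a z‖ ^ m := by
      rw [← norm_pow, ham, norm_mul]
      have : K / ‖c‖ * (‖c‖ * ‖δ z‖) = K * ‖δ z‖ := by field_simp
      rw [this]
      exact hδK z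
    have h3 : K / ‖c‖ ≤ (K / ‖c‖ + 1) ^ m := by
      have h4 : (0 : ℝ) ≤ K / ‖c‖ := by positivity
      have h5 : (K / ‖c‖ + 1) ^ 1 ≤ (K / ‖c‖ + 1) ^ m :=
        pow_le_pow_right₀ (by linarith) (Nat.one_le_iff_ne_zero.2 hm0)
      rw [pow_one] at h5
      linarith
    have h6 : ‖J z‖ ^ m ≤ ((K / ‖c‖ + 1) * ‖a z‖) ^ m := by
      rw [mul_pow]
      exact h1.trans (mul_le_mul_of_nonneg_right h3 (by positivity))
    exact (pow_le_pow_iff_left₀ (norm_nonneg _) (by positivity) hm0).1 h6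
  have hJa : ∀ z, (a z)⁻¹ • J z = (a 0)⁻¹ • J 0 := by
    intro z
    have hd : Differentiable ℂ fun z => (a z)⁻¹ • J z := (had.inv hane).smul hJd
    refine hd.apply_eq_apply_of_bounded ?_ z 0
    refine isBounded_iff_forall_norm_le.2 ⟨K2, ?_⟩
    rintro _ ⟨z, rfl⟩
    rw [norm_smul, norm_inv, inv_mul_le_iff₀ (norm_pos_iff.2 (hane z)), mul_comm]
    exact hK3 z
  obtain ⟨α, hα⟩ : ∃ α : V → ℂ, ∀ z, α z = a z * (a 0)⁻¹ := ⟨_, fun _ => rfl⟩
  have hαd : Differentiable ℂ α := by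
    have : α = fun z => a z * (a 0)⁻¹ := funext hα
    rw [this]
    exact had.mul_const _
  have hJα : ∀ z, J z = α z • J 0 := by
    intro z
    rw [hα, mul_smul, ← hJa z, smul_smul, mul_inv_cancel₀ (hane z), one_smul]
  -- the second derivative
  have hD : ∀ z u v, fderiv ℂ J z u v = (fderiv ℂ α z u) • J 0 v := by
    intro z u v
    have h1 : HasFDerivAt J ((fderiv ℂ α z).smulRight (J 0)) z := by
      exact ((hαd z).hasFDerivAt.smul_const (J 0)).congr_of_eventuallyEq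
        (Eventually.of_forall hJα)
    rw [h1.fderiv]
    rfl
  have hsymm : ∀ z u v, fderiv ℂ J z u v = fderiv ℂ J z v u := by
    intro z u v
    have h1 : ∀ y, HasFDerivAt (𝕜 := ℂ) f (J y) y := fun y => by
      rw [hJ]
      exact (hf y).hasFDerivAt
    have h3 : HasFDerivAt (𝕜 := ℂ) J (fderiv ℂ J z) z := (hJd z).hasFDerivAt
    exact second_derivative_symmetric h1 h3 u v
  have hα0 : ∀ z, fderiv ℂ α z = 0 := by
    intro z
    ext u
    by_cases hu : u = 0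
    · rw [hu, map_zero, map_zero]
    · obtain ⟨v, hv⟩ : ∃ v : V, v ∉ Submodule.span ℂ {u} := by
        by_contra hcon
        push Not at hcon
        have h3 : Submodule.span ℂ {u} = ⊤ := Submodule.eq_top_iff'.2 hcon
        have h4 := finrank_span_singleton (K := ℂ) hu
        rw [h3, finrank_top] at h4
        omega
      have h3 := hsymm z u v
      rw [hD, hD, ← map_smul, ← map_smul] at h3
      have h4 := hinj 0 h3
      by_contra hne
      apply hv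
      rw [Submodule.mem_span_singleton]
      refine ⟨(fderiv ℂ α z u)⁻¹ * fderiv ℂ α z v, ?_⟩
      rw [mul_smul, ← h4, smul_smul, inv_mul_cancel₀ hne, one_smul]
  have hα1 := is_const_of_fderiv_eq_zero hαd hα0 z 0
  rw [hJα z, hα1, ← hJα 0]

end

end Pool.Agent.H.MP_e23cd6_ag.CB
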