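import Pool.Agent.H.MP_e23cd6_ag.AB.B1
import Pool.Agent.H.MP_e23cd6_ag.CB.Defs
import Pool.Agent.H.MP_e23cd6_ag.CB.M1a

/-!
CB M1: maps which permute the blocks of the fibre coordinates and are quasiconformal on the blocks
are affine in the fibres.
-/

open Set Filter Topology Metric
open scoped ComplexConjugate

namespace Pool.Agent.H.MP_e23cd6_ag.CB

open Pool.Agent.H.MP_e23cd6_ag.AB Pool.Agent.H.MP_e23cd6_ag.AK

variable {n kk r : ℕ} {Ω : Dom n} {Γ : Type} [Group Γ]

/-- the coordinates of a block -/
abbrev BV (blk : Fin kk → Fin r) (i : Fin r) : Type := {j : Fin kk // blk j = i} → ℂ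

/-- restriction to a block -/
noncomputable def bres (blk : Fin kk → Fin r) (i : Fin r) : E kk →L[ℂ] BV blk i :=
  ContinuousLinearMap.pi fun j =>
    ContinuousLinearMap.proj (R := ℂ) (φ := fun _ : Fin kk => ℂ) j.1

/-- extension by zero from a block -/
noncomputable def bext (blk : Fin kk → Fin r) (i : Fin r) : BV blk i →L[ℂ] E kk :=
  ContinuousLinearMap.pi fun j => if h : blk j = i then
    ContinuousLinearMap.proj (R := ℂ) (φ := fun _ : {j : Fin kk // blk j = i} => ℂ) ⟨j, h⟩ else 0

theorem bres_apply (blk : Fin kk → Fin r) (i : Fin r) (z : E kk) (j : {j : Fin kk // blk j = i}) :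
    bres blk i z j = z j.1 := rfl

theorem bext_in (blk : Fin kk → Fin r) {i : Fin r} (v : BV blk i) {j : Fin kk} (h : blk j = i) :
    bext blk i v j = v ⟨j, h⟩ := by
  show (if h : blk j = i then ContinuousLinearMap.proj (R := ℂ)
    (φ := fun _ : {j : Fin kk // blk j = i} => ℂ) ⟨j, h⟩ else 0 : BV blk i →L[ℂ] ℂ) v = _
  rw [dif_pos h]
  rfl

theorem bext_out (blk : Fin kk → Fin r) {i : Fin r} (v : BV blk i) {j : Fin kk} (h : blk j ≠ i) :
    bext blk i v j = 0 := by
  show (if h : blk j = i then ContinuousLinearMap.proj (R := ℂ)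
    (φ := fun _ : {j : Fin kk // blk j = i} => ℂ) ⟨j, h⟩ else 0 : BV blk i →L[ℂ] ℂ) v = _
  rw [dif_neg h]
  rfl

theorem bres_bext (blk : Fin kk → Fin r) (i : Fin r) (v : BV blk i) :
    bres blk i (bext blk i v) = v := by
  funext j
  rw [bres_apply, bext_in blk v j.2]

theorem bext_InB (blk : Fin kk → Fin r) (i : Fin r) (v : BV blk i) : InB blk i (bext blk i v) :=
  fun _ h => bext_out blk v h

theorem bext_bres (blk : Fin kk → Fin r) {i : Fin r} {v : E kk} (h : InB blk i v) :
    bext blk i (bres blk i v) = v := by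
  funext j
  by_cases hj : blk j = i
  · rw [bext_in blk _ hj, bres_apply]
  · rw [bext_out blk _ hj, h j hj]

theorem bres_norm (blk : Fin kk → Fin r) (i : Fin r) (v : E kk) : ‖bres blk i v‖ ≤ ‖v‖ :=
  (pi_norm_le_iff_of_nonneg (norm_nonneg v)).2 fun j => norm_le_pi_norm v j.1

theorem bext_norm (blk : Fin kk → Fin r) (i : Fin r) (v : BV blk i) : ‖bext blk i v‖ ≤ ‖v‖ := by
  refine (pi_norm_le_iff_of_nonneg (norm_nonneg v)).2 fun j => ?_
  by_cases hj : blk j = i
  · rw [bext_in blk _ hj]
    exact norm_le_pi_norm v _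
  · rw [bext_out blk _ hj, norm_zero]
    exact norm_nonneg v

theorem bext_norm' (blk : Fin kk → Fin r) (i : Fin r) (v : BV blk i) : ‖v‖ ≤ ‖bext blk i v‖ := by
  have h := bres_norm blk i (bext blk i v)
  rwa [bres_bext] at h

/-- a coordinate which is constant in a direction has zero derivative in this direction -/
theorem blk_deriv {f : E kk → E kk} (hf : Differentiable ℂ f) {z u : E kk} {j : Fin kk}
    (h : ∀ t : ℂ, f (z + t • u) j = f z j) : fderiv ℂ f z u j = 0 := by
  have h1 : HasFDerivAt (fun z => f z j)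
      ((ContinuousLinearMap.proj (R := ℂ) (φ := fun _ : Fin kk => ℂ) j).comp (fderiv ℂ f z)) z :=
    (ContinuousLinearMap.proj (R := ℂ) (φ := fun _ : Fin kk => ℂ) j).hasFDerivAt.comp z
      (hf z).hasFDerivAt
  have h2 : HasDerivAt (fun t : ℂ => f (z + t • u) j) (fderiv ℂ f z u j) 0 :=
    h1.hasLineDerivAt u
  have h3 : (fun t : ℂ => f (z + t • u) j) = fun _ => f z j := funext h
  rw [h3] at h2
  exact h2.unique (hasDerivAt_const 0 (f z j))

theorem blk_affine {blk : Fin kk → Fin r} {f g : E kk → E kk} (hf : Differentiable ℂ f)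
    (hg : Differentiable ℂ g) (h1 : ∀ z, g (f z) = z) (h2 : ∀ w, f (g w) = w)
    (σ τ : Equiv.Perm (Fin r))
    (hσ : ∀ z z' : E kk, ∀ i, (∀ j, blk j = σ i → z j = z' j) → ∀ j, blk j = i → f z j = f z' j)
    (hτ : ∀ z z' : E kk, ∀ i, (∀ j, blk j = τ i → z j = z' j) → ∀ j, blk j = i → g z j = g z' j)
    {C : ℝ} (hq : ∀ z, ∀ i, ∀ v w, InB blk i v → InB blk i w →
      ‖fderiv ℂ f z v‖ * ‖w‖ ≤ C * (‖fderiv ℂ f z w‖ * ‖v‖)) (z : E kk) :
    fderiv ℂ f z = fderiv ℂ f 0 := by
  classical
  obtain ⟨J, hJ⟩ : ∃ J, J = fderiv ℂ f := ⟨_, rfl⟩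
  -- injectivity
  have hinj : ∀ z, Function.Injective (J z) := by
    intro z
    have h3 : (fderiv ℂ g (f z)).comp (J z) = ContinuousLinearMap.id ℂ (E kk) := by
      have h4 : HasFDerivAt (fun z => g (f z)) ((fderiv ℂ g (f z)).comp (J z)) z := by
        rw [hJ]
        exact (hg (f z)).hasFDerivAt.comp z (hf z).hasFDerivAt
      have h5 : (fun z => g (f z)) = id := funext h1
      rw [h5] at h4
      exact h4.unique (hasFDerivAt_id z)
    intro v w hvw
    have h4 := congrArg (fun T : E kk →L[ℂ] E kk => T v) h3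
    have h5 := congrArg (fun T : E kk →L[ℂ] E kk => T w) h3
    have h6 : fderiv ℂ g (f z) (J z v) = v := h4
    have h7 : fderiv ℂ g (f z) (J z w) = w := h5
    rw [← h6, ← h7, hvw]
  -- the derivative maps the block `σ i` to the block `i`
  have hsup : ∀ z i (v : BV blk (σ i)), InB blk i (J z (bext blk (σ i) v)) := by
    intro z i v j hj
    rw [hJ]
    refine blk_deriv hf fun t => ?_
    refine hσ _ _ (blk j) (fun j' hj' => ?_) j rfl
    have h3 : blk j' ≠ σ i := by
      rw [hj']
      exact fun h => hj (σ.injective h)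
    rw [Pi.add_apply, Pi.smul_apply, bext_out blk v h3, smul_zero, add_zero]
  -- the block maps
  obtain ⟨F, hF⟩ : ∃ F : ∀ i, BV blk (σ i) → BV blk i,
      ∀ i v, F i v = bres blk i (f (bext blk (σ i) v)) := ⟨_, fun _ _ => rfl⟩
  have hFd : ∀ i v, HasFDerivAt (F i)
      ((bres blk i).comp ((J (bext blk (σ i) v)).comp (bext blk (σ i)))) v := by
    intro i v
    have h3 : F i = fun v => bres blk i (f (bext blk (σ i) v)) := funext (hF i)
    rw [h3, hJ]
    exact (bres blk i).hasFDerivAt.comp v
      ((hf _).hasFDerivAt.comp v (bext blk (σ i)).hasFDerivAt)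
  have hFf : ∀ i v, fderiv ℂ (F i) v =
      (bres blk i).comp ((J (bext blk (σ i) v)).comp (bext blk (σ i))) := fun i v =>
    (hFd i v).fderiv
  have hfF : ∀ i z, bres blk i (f z) = F i (bres blk (σ i) z) := by
    intro i z
    rw [hF]
    funext j
    rw [bres_apply, bres_apply]
    refine hσ _ _ i (fun j' hj' => ?_) j.1 j.2
    rw [bext_in blk _ hj', bres_apply]
  have hFinj : ∀ i v, Function.Injective (fderiv ℂ (F i) v) := by
    intro i v
    rw [injective_iff_map_eq_zero]
    intro w hw
    rw [hFf] at hw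
    have h3 : bres blk i (J (bext blk (σ i) v) (bext blk (σ i) w)) = 0 := hw
    have h4 := bext_bres blk (hsup (bext blk (σ i) v) i w)
    rw [h3, map_zero] at h4
    have h5 : bext blk (σ i) w = 0 := hinj _ (h4.symm.trans (map_zero _).symm)
    rw [← bres_bext blk (σ i) w, h5, map_zero]
  -- the sizes of the blocks
  have hcard : ∀ i, Fintype.card {j : Fin kk // blk j = σ i} =
      Fintype.card {j : Fin kk // blk j = i} := by
    have hle : ∀ i ∈ (Finset.univ : Finset (Fin r)), Fintype.card {j : Fin kk // blk j = σ i} ≤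
        Fintype.card {j : Fin kk // blk j = i} := by
      intro i _
      have h3 := LinearMap.finrank_le_finrank_of_injective
        (f := (fderiv ℂ (F i) 0 : BV blk (σ i) →ₗ[ℂ] BV blk i)) (hFinj i 0)
      rwa [Module.finrank_fintype_fun_eq_card, Module.finrank_fintype_fun_eq_card] at h3
    have hsum : ∑ i, Fintype.card {j : Fin kk // blk j = σ i} =
        ∑ i, Fintype.card {j : Fin kk // blk j = i} :=
      Equiv.sum_comp σ fun i => Fintype.card {j : Fin kk // blk j = i}
    exact fun i => (Finset.sum_eq_sum_iff_of_le hle).1 hsum i (Finset.mem_univ i)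
  -- the block maps have constant derivative
  have hconst : ∀ i v, fderiv ℂ (F i) v = fderiv ℂ (F i) 0 := by
    intro i v
    rcases Nat.lt_or_ge (Fintype.card {j : Fin kk // blk j = σ i}) 2 with hlt | hge
    · rcases Nat.eq_zero_or_pos (Fintype.card {j : Fin kk // blk j = σ i}) with h0 | hpos
      · have : IsEmpty {j : Fin kk // blk j = σ i} := Fintype.card_eq_zero_iff.1 h0
        rw [Subsingleton.elim v 0]
      · have h3 : Fintype.card {j : Fin kk // blk j = σ i} = 1 := by omega
        have h4 : Fintype.card {j : Fin kk // blk j = i} = 1 := by rw [← hcard, h3]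
        obtain ⟨j0, hj0⟩ := Fintype.card_eq_one_iff.1 h3
        obtain ⟨i0, hi0⟩ := Fintype.card_eq_one_iff.1 h4
        have hτσ : τ (σ i) = i := by
          by_contra hne
          have h5 : f (g 0) i0.1 = f (g (Pi.single i0.1 1)) i0.1 := by
            refine hσ _ _ i (fun j hj => ?_) i0.1 i0.2
            refine hτ _ _ (σ i) (fun j' hj' => ?_) j hj
            have h6 : j' ≠ i0.1 := by
              intro h
              apply hne
              rw [← hj', h, i0.2]
            rw [Pi.single_eq_of_ne h6]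
            rfl
          rw [h2, h2, Pi.single_eq_same] at h5
          exact zero_ne_one h5
        -- the inverse block map
        have hφ : Differentiable ℂ fun x : ℂ => F i (fun _ => x) i0 := by
          have h5 : Differentiable ℂ (F i) := fun v => (hFd i v).differentiableAt
          have h6 : Differentiable ℂ fun x : ℂ => (fun _ => x : BV blk (σ i)) :=
            differentiable_pi.2 fun _ => differentiable_id
          exact differentiable_pi.1 (h5.comp h6) i0
        have hψ : Differentiable ℂ fun y : ℂ => g (bext blk i (fun _ => y)) j0.1 := by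
          have h6 : Differentiable ℂ fun x : ℂ => (fun _ => x : BV blk i) :=
            differentiable_pi.2 fun _ => differentiable_id
          exact differentiable_pi.1 (hg.comp ((bext blk i).differentiable.comp h6)) j0.1
        have hgF : ∀ w, g w j0.1 = g (bext blk i (bres blk i w)) j0.1 := by
          intro w
          refine hτ _ _ (σ i) (fun j' hj' => ?_) j0.1 j0.2
          rw [hτσ] at hj'
          rw [bext_in blk _ hj', bres_apply]
        have k1 : ∀ x : ℂ, g (bext blk i (fun _ => F i (fun _ => x) i0)) j0.1 = x := by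
          intro x
          have e1 : (fun _ => F i (fun _ => x) i0 : BV blk i) =
              bres blk i (f (bext blk (σ i) (fun _ => x))) := by
            funext j
            rw [hi0 j, hF]
          rw [e1, ← hgF, h1, bext_in blk _ j0.2]
        have k2 : ∀ y : ℂ, F i (fun _ => g (bext blk i (fun _ => y)) j0.1) i0 = y := by
          intro y
          have e1 : (fun _ => g (bext blk i (fun _ => y)) j0.1 : BV blk (σ i)) =
              bres blk (σ i) (g (bext blk i (fun _ => y))) := by
            funext j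
            rw [hj0 j, bres_apply]
          rw [e1, ← hfF, h2, bres_apply, bext_in blk _ i0.2]
        obtain ⟨a, c, -, hac⟩ := entire_affine hφ hψ k1 k2
        have e2 : F i = fun v => ((ContinuousLinearMap.pi fun _ => a •
            ContinuousLinearMap.proj (R := ℂ) (φ := fun _ : {j : Fin kk // blk j = σ i} => ℂ) j0) :
              BV blk (σ i) →L[ℂ] BV blk i) v + fun _ => c := by
          funext v j
          have e3 : v = fun _ => v j0 := by
            funext j
            rw [hj0 j]
          rw [hi0 j]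
          conv_lhs => rw [e3]
          rw [hac]
          rfl
        have e4 : ∀ v, fderiv ℂ (F i) v = ContinuousLinearMap.pi fun _ => a •
            ContinuousLinearMap.proj (R := ℂ) (φ := fun _ : {j : Fin kk // blk j = σ i} => ℂ) j0 := by
          intro v
          rw [e2]
          exact ((ContinuousLinearMap.hasFDerivAt _).add_const _).fderiv
        rw [e4, e4]
    · refine conf_const_q (C := |C|) (fun v => (hFd i v).differentiableAt) (hFinj i) ?_ ?_ ?_ v
      · intro x v w
        have h3 := hq (bext blk (σ i) x) (σ i) _ _ (bext_InB blk (σ i) v) (bext_InB blk (σ i) w)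
        rw [← hJ] at h3
        have h4 : ∀ u, fderiv ℂ (F i) x u =
            bres blk i (J (bext blk (σ i) x) (bext blk (σ i) u)) := fun u => by
          rw [hFf]
          rfl
        rw [h4, h4]
        have h5 := bres_norm blk i (J (bext blk (σ i) x) (bext blk (σ i) v))
        have h6 : ‖J (bext blk (σ i) x) (bext blk (σ i) w)‖ ≤
            ‖bres blk i (J (bext blk (σ i) x) (bext blk (σ i) w))‖ := by
          conv_lhs => rw [← bext_bres blk (hsup (bext blk (σ i) x) i w)]
          exact bext_norm blk i _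
        calc ‖bres blk i (J (bext blk (σ i) x) (bext blk (σ i) v))‖ * ‖w‖
            ≤ ‖J (bext blk (σ i) x) (bext blk (σ i) v)‖ * ‖bext blk (σ i) w‖ :=
              mul_le_mul h5 (bext_norm' blk _ w) (norm_nonneg _) (norm_nonneg _)
          _ ≤ C * (‖J (bext blk (σ i) x) (bext blk (σ i) w)‖ * ‖bext blk (σ i) v‖) := h3
          _ ≤ |C| * (‖J (bext blk (σ i) x) (bext blk (σ i) w)‖ * ‖bext blk (σ i) v‖) :=
              mul_le_mul_of_nonneg_right (le_abs_self C) (by positivity)
          _ ≤ |C| * (‖bres blk i (J (bext blk (σ i) x) (bext blk (σ i) w))‖ * ‖v‖) := by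
              refine mul_le_mul_of_nonneg_left ?_ (abs_nonneg C)
              exact mul_le_mul h6 (bext_norm blk _ v) (norm_nonneg _) (norm_nonneg _)
      · rw [Module.finrank_fintype_fun_eq_card, Module.finrank_fintype_fun_eq_card, hcard]
      · rw [Module.finrank_fintype_fun_eq_card]
        exact hge
  -- coordinates of the derivative
  have hco : ∀ z j u, J z u j = fderiv ℂ (F (blk j)) (bres blk (σ (blk j)) z)
      (bres blk (σ (blk j)) u) ⟨j, rfl⟩ := by
    intro z j u
    have h3 : HasFDerivAt (fun z => f z j)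
        ((ContinuousLinearMap.proj (R := ℂ) (φ := fun _ : Fin kk => ℂ) j).comp (J z)) z := by
      rw [hJ]
      exact (ContinuousLinearMap.proj (R := ℂ) (φ := fun _ : Fin kk => ℂ) j).hasFDerivAt.comp z
        (hf z).hasFDerivAt
    have h4 : (fun z => f z j) = fun z => F (blk j) (bres blk (σ (blk j)) z) ⟨j, rfl⟩ := by
      funext z
      rw [← hfF, bres_apply]
    have h5 : HasFDerivAt (fun z => F (blk j) (bres blk (σ (blk j)) z) ⟨j, rfl⟩)
        ((ContinuousLinearMap.proj (R := ℂ)
          (φ := fun _ : {j' : Fin kk // blk j' = blk j} => ℂ) ⟨j, rfl⟩).comp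
          ((fderiv ℂ (F (blk j)) (bres blk (σ (blk j)) z)).comp (bres blk (σ (blk j))))) z := by
      have h6 : HasFDerivAt (F (blk j)) (fderiv ℂ (F (blk j)) (bres blk (σ (blk j)) z))
          (bres blk (σ (blk j)) z) := by
        rw [hFf]
        exact hFd _ _
      exact (ContinuousLinearMap.proj (R := ℂ)
        (φ := fun _ : {j' : Fin kk // blk j' = blk j} => ℂ) ⟨j, rfl⟩).hasFDerivAt.comp z
        (h6.comp z (bres blk (σ (blk j))).hasFDerivAt)
    rw [h4] at h3
    have h7 := congrArg (fun T : E kk →L[ℂ] ℂ => T u) (h3.unique h5)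
    exact h7
  rw [← hJ]
  ext1 u
  funext j
  rw [hco, hco, hconst, ← hconst (blk j) (bres blk (σ (blk j)) 0)]

/-- A group action which permutes the blocks and is quasiconformal on them is affine in the
fibres. -/
theorem fib_affine_q (A : TotAct Ω kk Γ) (blk : Fin kk → Fin r) (hp : PermBlk A blk)
    (hq : QCT A blk) (γ : Γ) {b : E n} (hb : b ∈ Ω.D) (z : E kk) : DF A γ b z = DF A γ b 0 := by
  have hd : ∀ (δ : Γ) {b' : E n}, b' ∈ Ω.D →
      Differentiable ℂ fun z : E kk => (A.act δ (b', z)).2 := by
    intro δ b' hb' z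
    have hx : (b', z) ∈ TM Ω kk := ⟨hb', trivial⟩
    have h1 : DifferentiableAt ℂ (A.act δ) (b', z) :=
      (A.tholo δ).differentiableAt ((TM_open Ω kk).mem_nhds hx)
    have h2 : DifferentiableAt ℂ (fun z : E kk => ((b', z) : E n × E kk)) z :=
      (differentiableAt_const _).prodMk differentiableAt_id
    exact (h1.comp z h2).snd
  have hb' := A.mem γ hb
  obtain ⟨σ, hσ⟩ := hp γ
  obtain ⟨τ, hτ⟩ := hp γ⁻¹
  obtain ⟨C, -, hC⟩ := hq {b, A.β γ b}
    (insert_subset_iff.2 ⟨hb, singleton_subset_iff.2 hb'⟩) (Set.toFinite _).isCompact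
  refine blk_affine (blk := blk) (f := fun z => (A.act γ (b, z)).2)
    (g := fun w => (A.act γ⁻¹ (A.β γ b, w)).2) (hd γ hb) (hd γ⁻¹ hb') (fun z => ?_) (fun w => ?_)
    σ τ (hσ b hb) (hτ _ hb') (C := C)
    (fun z i v w hv hw => hC γ b (by simp) (by simp) z i v w hv hw) z
  · have hx : (b, z) ∈ TM Ω kk := ⟨hb, trivial⟩
    have e : ((A.β γ b, (A.act γ (b, z)).2) : E n × E kk) = A.act γ (b, z) :=
      Prod.ext (A.fst γ _ hx).symm rfl
    show (A.act γ⁻¹ (A.β γ b, (A.act γ (b, z)).2)).2 = z
    rw [e, ← A.tmul _ _ _ hx, inv_mul_cancel, A.tone _ hx]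
  · have hx : (A.β γ b, w) ∈ TM Ω kk := ⟨hb', trivial⟩
    have e : ((b, (A.act γ⁻¹ (A.β γ b, w)).2) : E n × E kk) = A.act γ⁻¹ (A.β γ b, w) := by
      refine Prod.ext ?_ rfl
      rw [A.fst γ⁻¹ _ hx]
      exact (A.inv_left γ hb).symm
    show (A.act γ (b, (A.act γ⁻¹ (A.β γ b, w)).2)).2 = w
    rw [e, ← A.tmul _ _ _ hx, mul_inv_cancel, A.tone _ hx]

end Pool.Agent.H.MP_e23cd6_ag.CB
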