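import Pool.Agent.H.MP_e23cd6_ag.CB.M1
import Pool.Agent.H.MP_e23cd6_ag.AK.Md

/-!
CB M2: the fibrewise affine action, the subgroup of finite index which preserves every block.
-/

open Set Filter Topology Metric
open scoped ContDiff ComplexConjugate

namespace Pool.Agent.H.MP_e23cd6_ag.CB

open Pool.Agent.H.MP_e23cd6_ag.AB Pool.Agent.H.MP_e23cd6_ag.AK

variable {n kk r : ℕ} {Ω : Dom n} {Γ : Type} [Group Γ]

/-- An action whose fibre maps have constant derivatives is affine in the fibres. -/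
theorem exists_fib_of_const (A : TotAct Ω kk Γ)
    (hconst : ∀ γ, ∀ b ∈ Ω.D, ∀ z : E kk, DF A γ b z = DF A γ b 0) :
    ∃ B : FibAct Ω kk Γ, B.toTotAct = A ∧ ∀ γ b, B.L γ b = DF A γ b 0 := by
  have hin : ∀ b ∈ Ω.D, ∀ z : E kk, ((b, z) : E n × E kk) ∈ TM Ω kk :=
    fun b hb z => ⟨hb, trivial⟩
  have hf : ∀ γ, ∀ b ∈ Ω.D, ∀ z : E kk, HasFDerivAt (fun z : E kk => (A.act γ (b, z)).2)
      ((ContinuousLinearMap.snd ℂ (E n) (E kk)).comp
        ((fderiv ℂ (A.act γ) (b, z)).comp (ContinuousLinearMap.inr ℂ (E n) (E kk)))) z := by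
    intro γ b hb z
    have h1 : HasFDerivAt (A.act γ) (fderiv ℂ (A.act γ) (b, z)) (b, z) :=
      ((act_holo A γ).differentiableAt ((TM_open Ω kk).mem_nhds (hin b hb z))).hasFDerivAt
    have h2 := h1.comp z (hasFDerivAt_prodMk_right b z)
    exact (hasFDerivAt_snd (𝕜 := ℂ) (E := E n) (F := E kk) (p := A.act γ (b, z))).comp z h2
  have hfd : ∀ γ, ∀ b ∈ Ω.D, Differentiable ℂ (fun z : E kk => (A.act γ (b, z)).2) :=
    fun γ b hb z => (hf γ b hb z).differentiableAt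
  -- the pieces
  set L : Γ → E n → (E kk →L[ℂ] E kk) := fun γ b => DF A γ b 0 with hL
  set c : Γ → E n → E kk := fun γ b => (A.act γ (b, 0)).2 with hc
  have haff : ∀ γ, ∀ b ∈ Ω.D, ∀ z : E kk, (A.act γ (b, z)).2 = L γ b z + c γ b := by
    intro γ b hb z
    have h1 : Differentiable ℂ (fun z : E kk => (A.act γ (b, z)).2 - L γ b z) :=
      (hfd γ b hb).sub (L γ b).differentiable
    have h2 := is_const_of_fderiv_eq_zero (𝕜 := ℂ) h1 (fun z => by
      have h3 : HasFDerivAt (fun z : E kk => (A.act γ (b, z)).2 - L γ b z)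
          (fderiv ℂ (fun z : E kk => (A.act γ (b, z)).2) z - L γ b) z :=
        ((hfd γ b hb) z).hasFDerivAt.sub (L γ b).hasFDerivAt
      rw [h3.fderiv]
      exact sub_eq_zero.2 (hconst γ b hb z)) z 0
    simp only [map_zero, sub_zero] at h2
    rw [sub_eq_iff_eq_add] at h2
    rw [h2, add_comm]
  have hslice : ∀ γ, ∀ z : E kk, DifferentiableOn ℂ (fun b : E n => A.act γ (b, z)) Ω.D := by
    intro γ z
    refine (act_holo A γ).comp (f := fun b : E n => (b, z)) ?_ (fun b hb => hin b hb z)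
    exact (differentiable_id.prodMk (differentiable_const z)).differentiableOn
  have hcholo : ∀ γ, DifferentiableOn ℂ (c γ) Ω.D := fun γ => (hslice γ 0).snd
  have hLholo : ∀ γ, DifferentiableOn ℂ (L γ) Ω.D := by
    intro γ
    have h1 : DifferentiableOn ℂ (fun b => ∑ p : Fin kk,
        ContinuousLinearMap.smulRightL ℂ (E kk) (E kk)
          (ContinuousLinearMap.proj p : E kk →L[ℂ] ℂ)
          ((A.act γ (b, Pi.single p 1)).2 - c γ b)) Ω.D := by
      refine DifferentiableOn.fun_sum fun p _ => ?_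
      exact (ContinuousLinearMap.smulRightL ℂ (E kk) (E kk)
        (ContinuousLinearMap.proj p : E kk →L[ℂ] ℂ)).differentiable.comp_differentiableOn
        (((hslice γ (Pi.single p 1)).snd).sub (hcholo γ))
    refine h1.congr fun b hb => ?_
    ext1 z
    have h2 : z = ∑ p, z p • (Pi.single p (1 : ℂ) : E kk) := by
      ext j
      simp [Finset.sum_apply, Pi.single_apply]
    conv_lhs => rw [h2]
    rw [map_sum, ContinuousLinearMap.sum_apply]
    refine Finset.sum_congr rfl fun p _ => ?_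
    rw [map_smul, haff γ b hb, add_sub_cancel_right]
    rfl
  have hone : ∀ γ, ∀ b ∈ Ω.D, ∀ z : E kk, A.act γ (b, z) = (A.β γ b, L γ b z + c γ b) :=
    fun γ b hb z => Prod.ext (A.fst γ _ (hin b hb z)) (haff γ b hb z)
  exact ⟨{ toTotAct := A, L := L, c := c, L_holo := hLholo, c_holo := hcholo, act_eq := hone },
    rfl, fun γ b => rfl⟩

/-- the linear parts permute the blocks -/
theorem perm_sc (A : FibAct Ω kk Γ) {blk : Fin kk → Fin r} {γ : Γ} {σ : Equiv.Perm (Fin r)}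
    (h : ∀ b ∈ Ω.D, ∀ z z' : E kk, ∀ i, (∀ j, blk j = σ i → z j = z' j) →
      ∀ j, blk j = i → (A.act γ (b, z)).2 j = (A.act γ (b, z')).2 j)
    {b : E n} (hb : b ∈ Ω.D) (x : Fin r → ℂ) :
    A.L γ b * sc blk x = sc blk (fun i => x (σ i)) * A.L γ b := by
  ext1 v
  funext j
  show A.L γ b (sc blk x v) j = sc blk (fun i => x (σ i)) (A.L γ b v) j
  rw [sc_apply]
  have h1 := h b hb (sc blk x v) (x (σ (blk j)) • v) (blk j) (fun l hl => by
    rw [sc_apply, hl]
    rfl) j rfl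
  rw [A.act_eq γ b hb, A.act_eq γ b hb] at h1
  have h2 : A.L γ b (sc blk x v) j = A.L γ b (x (σ (blk j)) • v) j := add_right_cancel h1
  rw [h2, map_smul]
  rfl

/-- The fibrewise affine action given by the blocks, and a subgroup of finite index which preserves
every block. -/
theorem exists_qfib_of_const (A : TotAct Ω kk Γ) (blk : Fin kk → Fin r) (hp : PermBlk A blk)
    (hq : QCT A blk) (hconst : ∀ γ, ∀ b ∈ Ω.D, ∀ z : E kk, DF A γ b z = DF A γ b 0) :
    ∃ B : FibAct Ω kk Γ, B.toTotAct = A ∧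
      ∃ (G : Subgroup Γ) (_ : G.FiniteIndex), IsBlk (resFib B G) blk ∧ QC (resFib B G) blk := by
  obtain ⟨B, rfl, hBL⟩ := exists_fib_of_const A hconst
  refine ⟨B, rfl, ?_⟩
  choose σ hσ using hp
  have hsc : ∀ (γ : Γ) (b : E n), b ∈ Ω.D → ∀ x : Fin r → ℂ,
      B.L γ b * sc blk x = sc blk (fun i => x (σ γ i)) * B.L γ b :=
    fun γ b hb x => perm_sc B (hσ γ) hb x
  -- the inverse
  have hinv : ∀ (γ : Γ) (y : E n), y ∈ Ω.D → ∀ T S : E kk →L[ℂ] E kk,
      B.L γ (B.β γ⁻¹ y) * T = S * B.L γ (B.β γ⁻¹ y) → B.L γ⁻¹ y * S = T * B.L γ⁻¹ y := by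
    intro γ y hy T S h
    have hx := B.mem γ⁻¹ hy
    have h1 := B.L_mul_inv γ hx
    have h2 := B.L_inv_mul γ hx
    rw [B.inv_right γ hy] at h1 h2
    calc B.L γ⁻¹ y * S = B.L γ⁻¹ y * S * (B.L γ (B.β γ⁻¹ y) * B.L γ⁻¹ y) := by rw [h1, mul_one]
      _ = B.L γ⁻¹ y * (S * B.L γ (B.β γ⁻¹ y)) * B.L γ⁻¹ y := by simp only [mul_assoc]
      _ = B.L γ⁻¹ y * (B.L γ (B.β γ⁻¹ y) * T) * B.L γ⁻¹ y := by rw [h]
      _ = B.L γ⁻¹ y * B.L γ (B.β γ⁻¹ y) * T * B.L γ⁻¹ y := by simp only [mul_assoc]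
      _ = T * B.L γ⁻¹ y := by rw [h2, one_mul]
  let G : Subgroup Γ :=
    { carrier := {γ | ∀ b ∈ Ω.D, ∀ x : Fin r → ℂ, B.L γ b * sc blk x = sc blk x * B.L γ b}
      mul_mem' := by
        intro γ δ hγ hδ b hb x
        rw [B.L_mul γ δ hb, mul_assoc, hδ b hb x, ← mul_assoc, hγ _ (B.mem δ hb) x, mul_assoc]
      one_mem' := by
        intro b hb x
        rw [B.L_one hb, one_mul, mul_one]
      inv_mem' := by
        intro γ hγ b hb x
        exact hinv γ b hb _ _ (hγ _ (B.mem γ⁻¹ hb) x) }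
  have hmem : ∀ γ δ, σ γ = σ δ → γ⁻¹ * δ ∈ G := by
    intro γ δ hs b hb x
    have hy := B.mem δ hb
    have hx := B.mem γ⁻¹ hy
    rw [B.L_mul γ⁻¹ δ hb, mul_assoc, hsc δ b hb x, ← hs, ← mul_assoc,
      hinv γ _ hy (sc blk x) _ (hsc γ _ hx x), mul_assoc]
  have hfin : Finite (Γ ⧸ G) := by
    refine Finite.of_injective (β := Equiv.Perm (Fin r)) (fun q : Γ ⧸ G => σ q.out) ?_
    intro q q' h
    have h1 := hmem q.out q'.out h
    have h2 : ((q.out : Γ) : Γ ⧸ G) = ((q'.out : Γ) : Γ ⧸ G) := QuotientGroup.eq.2 h1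
    rwa [QuotientGroup.out_eq', QuotientGroup.out_eq'] at h2
  have hidx : G.FiniteIndex := Subgroup.finiteIndex_of_finite_quotient
  refine ⟨G, hidx, fun γ b hb x => γ.2 b hb x, fun K hK hKc => ?_⟩
  obtain ⟨C, hC, h⟩ := hq K hK hKc
  refine ⟨C, hC, fun γ b hb hb' i v w hv hw => ?_⟩
  have h1 := h γ.1 b hb hb' 0 i v w hv hw
  rw [← hBL] at h1
  exact h1

theorem exists_qfib (A : TotAct Ω kk Γ) (blk : Fin kk → Fin r) (hp : PermBlk A blk)
    (hq : QCT A blk) :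
    ∃ B : FibAct Ω kk Γ, B.toTotAct = A ∧
      ∃ (G : Subgroup Γ) (_ : G.FiniteIndex), IsBlk (resFib B G) blk ∧ QC (resFib B G) blk :=
  exists_qfib_of_const A blk hp hq fun γ _ hb z => fib_affine_q A blk hp hq γ hb z

end Pool.Agent.H.MP_e23cd6_ag.CB
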