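import Pool.Agent.H.MP_e23cd6_ag.CB.M3a
import Pool.Agent.H.MP_e23cd6_ag.AK.K6b
import Pool.Agent.H.MP_e23cd6_ag.AB.A1
import Pool.Agent.H.MP_e23cd6_ag.AB.A6
import Pool.Agent.H.MP_e23cd6_ag.AB.C1

/-!
CB M4: pigeonhole. Among sufficiently many elements which are close to the identity on the base there are two whose
quotient has, up to holomorphic block scalars, a linear part close to one.

On a ball `ball b0 r2`, `r1 < r2`, let `exp (m_i a_i) = bdet_i (L γ b)` (`m_i` the size of the block `i`), so that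
`U_γ = sc (exp (-a_γ)) L_γ` and its inverse are bounded (`nu_bound`), hence uniformly Lipschitz near the marked ball.
Pigeonhole over the values at the points of a finite net.
-/

open Set Filter Topology Metric

namespace Pool.Agent.H.MP_e23cd6_ag.CB

open Pool.Agent.H.MP_e23cd6_ag.AB Pool.Agent.H.MP_e23cd6_ag.AK

variable {n kk r : ℕ} {Ω : Dom n} {Γ : Type} [Group Γ]

theorem bdet_holo (A : FibAct Ω kk Γ) (blk : Fin kk → Fin r) (i : Fin r) (γ : Γ) :
    DifferentiableOn ℂ (fun b => bdet blk i (A.L γ b)) Ω.D := by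
  unfold bdet
  refine K6b_det_holo ?_
  have h1 : DifferentiableOn ℂ (fun b => sc blk (Pi.single i 1) * A.L γ b) Ω.D := by
    intro b hb
    exact ((A.L_holo γ b hb).const_mul (sc blk (Pi.single i 1)))
  exact h1.add_const _

theorem IsBlk.inv {A : FibAct Ω kk Γ} {blk : Fin kk → Fin r} (hblk : IsBlk A blk) (γ : Γ)
    {b : E n} (hb : b ∈ Ω.D) (x : Fin r → ℂ) :
    A.L γ⁻¹ (A.β γ b) * sc blk x = sc blk x * A.L γ⁻¹ (A.β γ b) :=
  hblk γ⁻¹ _ (A.mem γ hb) x

/-- block scalars with bounded entries -/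
theorem norm_blocks (blk : Fin kk → Fin r) {C : ℝ} (hC : 0 ≤ C) (x : Fin r → ℂ)
    (T : E kk →L[ℂ] E kk)
    (h : ∀ i v, ‖x i‖ * ‖sc blk (Pi.single i 1) (T v)‖ ≤ C * ‖v‖) :
    ‖sc blk x * T‖ ≤ C := by
  refine ContinuousLinearMap.opNorm_le_bound _ hC fun v => ?_
  rw [pi_norm_le_iff_of_nonneg (by positivity)]
  intro j
  show ‖sc blk x (T v) j‖ ≤ _
  rw [sc_apply, norm_mul]
  refine le_trans ?_ (h (blk j) v)
  refine mul_le_mul_of_nonneg_left ?_ (norm_nonneg _)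
  have h1 := norm_le_pi_norm (sc blk (Pi.single (blk j) 1) (T v)) j
  rwa [sc_apply, Pi.single_eq_same, one_mul] at h1

/-- the normalising functions -/
theorem exists_norm_fun (A : FibAct Ω kk Γ) (blk : Fin kk → Fin r) (hblk : IsBlk A blk) {r2 : ℝ}
    (hr2 : ball Ω.b0 r2 ⊆ Ω.D) (γ : Γ) :
    ∃ a : E n → Fin r → ℂ, DifferentiableOn ℂ a (ball Ω.b0 r2) ∧
      ∀ b ∈ ball Ω.b0 r2, ∀ i, ‖Complex.exp (a b i)‖ = nu blk (A.L γ b) i := by
  have hne : ∀ i, ∀ b ∈ ball Ω.b0 r2, bdet blk i (A.L γ b) ≠ 0 := fun i b hb =>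
    bdet_ne blk i (A.L_mul_inv γ (hr2 hb)) (hblk γ b (hr2 hb))
  choose l hl1 hl2 using fun i => exists_log ((bdet_holo A blk i γ).mono hr2) (hne i)
  refine ⟨fun b i => ((bsz blk i : ℂ)⁻¹) * l i b, ?_, fun b hb i => ?_⟩
  · exact differentiableOn_pi.2 fun i => (hl1 i).const_mul _
  · unfold nu
    rw [← hl2 i b hb, Complex.norm_exp, Complex.norm_exp, ← Real.exp_mul]
    congr 1
    have : (((bsz blk i : ℂ)⁻¹) * l i b) = (((bsz blk i : ℝ)⁻¹ : ℝ) : ℂ) * l i b := by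
      push_cast
      rfl
    show (((bsz blk i : ℂ)⁻¹) * l i b).re = _
    rw [this, Complex.re_ofReal_mul, mul_comm]

/-- the normalised linear parts and their inverses are bounded -/
theorem U_bound (A : FibAct Ω kk Γ) (blk : Fin kk → Fin r) (hblk : IsBlk A blk) (hqc : QC A blk)
    {K : Set (E n)} (hK : K ⊆ Ω.D) (hKc : IsCompact K) :
    ∃ C : ℝ, 0 < C ∧ ∀ γ, ∀ b ∈ K, A.β γ b ∈ K → ∀ a : Fin r → ℂ,
      (∀ i, ‖Complex.exp (a i)‖ = nu blk (A.L γ b) i) →
      ‖sc blk (fun i => Complex.exp (-(a i))) * A.L γ b‖ ≤ C ∧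
      ‖A.L γ⁻¹ (A.β γ b) * sc blk (fun i => Complex.exp (a i))‖ ≤ C := by
  obtain ⟨C0, hC0, hq⟩ := hqc K hK hKc
  obtain ⟨C, hC, hnb⟩ := nu_bound blk hC0
  refine ⟨C, hC, fun γ b hb hb' a ha => ?_⟩
  have hbD := hK hb
  have hnu : ∀ i, 0 < nu blk (A.L γ b) i := fun i => by
    rw [← ha i]
    exact norm_pos_iff.2 (Complex.exp_ne_zero _)
  constructor
  · refine norm_blocks blk hC.le _ _ fun i v => ?_
    have h1 := hnb (A.L γ b) (hblk γ b hbD) (hq γ b hb hb') i v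
    rw [Complex.exp_neg, norm_inv, ha i]
    calc (nu blk (A.L γ b) i)⁻¹ * ‖sc blk (Pi.single i 1) (A.L γ b v)‖
        ≤ (nu blk (A.L γ b) i)⁻¹ * (C * nu blk (A.L γ b) i * ‖v‖) :=
          mul_le_mul_of_nonneg_left h1 (inv_nonneg.2 (hnu i).le)
      _ = C * ‖v‖ := by field_simp [(hnu i).ne']
  · rw [hblk.inv γ hbD]
    refine norm_blocks blk hC.le _ _ fun i v => ?_
    have hb'' : A.β γ⁻¹ (A.β γ b) ∈ K := by rw [A.inv_left γ hbD]; exact hb
    have h1 := hnb (A.L γ⁻¹ (A.β γ b)) (fun x => hblk.inv γ hbD x)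
      (hq γ⁻¹ (A.β γ b) hb' hb'') i v
    have h2 : nu blk (A.L γ b) i * nu blk (A.L γ⁻¹ (A.β γ b)) i = 1 := by
      rw [← nu_mul blk _ _ (hblk γ b hbD) (fun x => hblk.inv γ hbD x), A.L_mul_inv γ hbD]
      unfold nu bdet
      have e4 : sc blk (Pi.single i 1) * (1 : E kk →L[ℂ] E kk) + sc blk (1 - Pi.single i 1) = 1 := by
        ext1 v; funext j
        show sc blk (Pi.single i 1) v j + sc blk (1 - Pi.single i 1) v j = v j
        simp only [sc_apply, Pi.sub_apply, Pi.one_apply]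
        ring
      rw [e4]
      have h4 : (1 : E kk →L[ℂ] E kk).det = 1 := LinearMap.det_id
      rw [h4, norm_one, Real.one_rpow]
    rw [ha i]
    calc nu blk (A.L γ b) i * ‖sc blk (Pi.single i 1) (A.L γ⁻¹ (A.β γ b) v)‖
        ≤ nu blk (A.L γ b) i * (C * nu blk (A.L γ⁻¹ (A.β γ b)) i * ‖v‖) :=
          mul_le_mul_of_nonneg_left h1 (hnu i).le
      _ = C * (nu blk (A.L γ b) i * nu blk (A.L γ⁻¹ (A.β γ b)) i) * ‖v‖ := by ring
      _ = C * ‖v‖ := by rw [h2, mul_one]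

/-- the quotient of two elements in terms of the normalised linear parts -/
theorem U_quot (A : FibAct Ω kk Γ) (blk : Fin kk → Fin r) (hblk : IsBlk A blk) (g g' : Γ)
    {b : E n} (hb : b ∈ Ω.D) (a a' : Fin r → ℂ) :
    sc blk (fun i => Complex.exp (-(a' i - a i))) * A.L (g⁻¹ * g') b =
      (A.L g⁻¹ (A.β g (A.β (g⁻¹ * g') b)) * sc blk (fun i => Complex.exp (a i))) *
        (sc blk (fun i => Complex.exp (-(a' i))) * A.L g' b) := by
  have hy : A.β g (A.β (g⁻¹ * g') b) = A.β g' b := by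
    rw [← A.mul _ _ _ hb, mul_inv_cancel_left]
  have h1 : A.L (g⁻¹ * g') b = A.L g⁻¹ (A.β g' b) * A.L g' b := A.L_mul _ _ hb
  have h2 := hblk g⁻¹ (A.β g' b) (A.mem g' hb)
  have h3 : (fun i => Complex.exp (-(a' i - a i))) =
      (fun i => Complex.exp (a i)) * (fun i => Complex.exp (-(a' i))) := by
    funext i
    show _ = Complex.exp (a i) * Complex.exp (-(a' i))
    rw [← Complex.exp_add]
    congr 1
    ring
  rw [hy, h1, h3, sc_mul]
  calc sc blk (fun i => Complex.exp (a i)) * sc blk (fun i => Complex.exp (-(a' i))) *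
        (A.L g⁻¹ (A.β g' b) * A.L g' b)
      = sc blk (fun i => Complex.exp (a i)) * (sc blk (fun i => Complex.exp (-(a' i))) *
        A.L g⁻¹ (A.β g' b)) * A.L g' b := by simp only [mul_assoc]
    _ = sc blk (fun i => Complex.exp (a i)) * (A.L g⁻¹ (A.β g' b) *
        sc blk (fun i => Complex.exp (-(a' i)))) * A.L g' b := by rw [← h2]
    _ = (sc blk (fun i => Complex.exp (a i)) * A.L g⁻¹ (A.β g' b)) *
        (sc blk (fun i => Complex.exp (-(a' i))) * A.L g' b) := by simp only [mul_assoc]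
    _ = _ := by rw [← h2]

theorem sc_holo (blk : Fin kk → Fin r) {s : Set (E n)} {x : E n → Fin r → ℂ}
    (hx : DifferentiableOn ℂ x s) : DifferentiableOn ℂ (fun b => sc blk (x b)) s := by
  have h1 : ∃ T : (Fin r → ℂ) →L[ℂ] (E kk →L[ℂ] E kk), ∀ x, T x = sc blk x := by
    refine ⟨LinearMap.toContinuousLinearMap
      { toFun := fun x => sc blk x, map_add' := ?_, map_smul' := ?_ }, fun x => rfl⟩
    · intro x y
      ext1 v; funext j
      show sc blk (x + y) v j = sc blk x v j + sc blk y v j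
      simp only [sc_apply, Pi.add_apply]
      ring
    · intro c x
      ext1 v; funext j
      show sc blk (c • x) v j = c * sc blk x v j
      simp only [sc_apply, Pi.smul_apply, smul_eq_mul]
      ring
  obtain ⟨T, hT⟩ := h1
  have h2 : (fun b => sc blk (x b)) = fun b => T (x b) := funext fun b => (hT _).symm
  rw [h2]
  intro b hb
  exact T.differentiableAt.comp_differentiableWithinAt b (hx b hb)

/-- an equicontinuous family with values in a fixed ball is uniformly close for two indices out of many -/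
theorem net_pigeon {ι F : Type*} [NormedAddCommGroup F] [NormedSpace ℂ F] [FiniteDimensional ℂ F]
    {K : Set (E n)} (hK : IsCompact K) (U : ι → E n → F) (P : ι → Prop) {C M d ε : ℝ} (hε : 0 < ε)
    (hd : 0 < d) (hMd : M * d ≤ ε / 3)
    (hM : 0 ≤ M)
    (hb : ∀ γ, P γ → ∀ b ∈ K, ‖U γ b‖ ≤ C)
    (hl : ∀ γ, P γ → ∀ b ∈ K, ∀ b' ∈ K, ‖b - b'‖ < d → ‖U γ b - U γ b'‖ ≤ M * ‖b - b'‖) :
    ∃ N : ℕ, ∀ g : Fin (N + 1) → ι, (∀ i, P (g i)) →
      ∃ i j, i < j ∧ ∀ b ∈ K, ‖U (g j) b - U (g i) b‖ ≤ ε := by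
  classical
  obtain ⟨s, hsK, hsf, hsc⟩ := hK.finite_cover_balls hd
  haveI : Fintype s := hsf.fintype
  haveI : ProperSpace (s → F) := FiniteDimensional.proper ℂ _
  obtain ⟨t, -, htf, htc⟩ := (isCompact_closedBall (0 : s → F) (max C 0)).finite_cover_balls
    (show (0 : ℝ) < ε / 6 by positivity)
  refine ⟨htf.toFinset.card, fun g hg => ?_⟩
  have hex : ∀ i, ∃ x ∈ htf.toFinset, (fun b : s => U (g i) b) ∈ ball x (ε / 6) := by
    intro i
    have h1 : (fun b : s => U (g i) b) ∈ closedBall (0 : s → F) (max C 0) := by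
      rw [mem_closedBall, dist_zero_right, pi_norm_le_iff_of_nonneg (le_max_right _ _)]
      exact fun b => (hb _ (hg i) _ (hsK b.2)).trans (le_max_left _ _)
    have h2 := htc h1
    simp only [mem_iUnion] at h2
    obtain ⟨x, hx, hx2⟩ := h2
    exact ⟨x, htf.mem_toFinset.2 hx, hx2⟩
  choose f hf hf2 using hex
  obtain ⟨i, -, j, -, hij, hfij⟩ := Finset.exists_ne_map_eq_of_card_lt_of_maps_to
    (s := (Finset.univ : Finset (Fin (htf.toFinset.card + 1)))) (t := htf.toFinset) (f := f)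
    (by simp) (fun i _ => hf i)
  have hd : ∀ i j, f i = f j → ∀ b ∈ K, ‖U (g j) b - U (g i) b‖ ≤ ε := by
    intro i j h b hbK
    have h1 := hf2 i
    have h2 := hf2 j
    rw [← h] at h2
    rw [mem_ball] at h1 h2
    have h3 : dist (fun b : s => U (g j) b) (fun b : s => U (g i) b) ≤ ε / 3 := by
      have := dist_triangle_right (fun b : s => U (g j) b) (fun b : s => U (g i) b) (f i)
      linarith
    have h4 := hsc hbK
    simp only [mem_iUnion] at h4
    obtain ⟨x, hx, hx2⟩ := h4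
    have hxd : ‖b - x‖ < d := by rw [← dist_eq_norm]; exact hx2
    have hxd' : ‖x - b‖ < d := by rw [norm_sub_rev]; exact hxd
    have h5 := hl _ (hg j) b hbK x (hsK hx) hxd
    have h6 := hl _ (hg i) x (hsK hx) b hbK hxd'
    have h7 : ‖U (g j) x - U (g i) x‖ ≤ ε / 3 := by
      rw [← dist_eq_norm]
      exact (dist_le_pi_dist (fun b : s => U (g j) b) (fun b : s => U (g i) b) ⟨x, hx⟩).trans h3
    have h8 : M * ‖b - x‖ ≤ ε / 3 := (mul_le_mul_of_nonneg_left hxd.le hM).trans hMd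
    have h9 : M * ‖x - b‖ ≤ ε / 3 := (mul_le_mul_of_nonneg_left hxd'.le hM).trans hMd
    have h10 : U (g j) b - U (g i) b = (U (g j) b - U (g j) x) + (U (g j) x - U (g i) x) +
        (U (g i) x - U (g i) b) := by abel
    rw [h10]
    have h11 := norm_add₃_le (a := U (g j) b - U (g j) x) (b := U (g j) x - U (g i) x)
      (c := U (g i) x - U (g i) b)
    linarith
  rcases lt_or_gt_of_ne hij with h | h
  · exact ⟨i, j, h, hd i j hfij⟩
  · exact ⟨j, i, h, hd j i hfij.symm⟩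

theorem pigeon_blk (A : FibAct Ω kk Γ) (blk : Fin kk → Fin r) (hblk : IsBlk A blk) (hqc : QC A blk)
    {δ : ℝ} (hδ : 0 < δ) :
    ∃ (η : ℝ) (N : ℕ), 0 < η ∧ ∀ g : Fin (N + 1) → Γ,
      (∀ i, ∀ b ∈ Ω.B, ‖A.β (g i) b - b‖ ≤ η) → ∃ i j, i < j ∧ Near A blk δ ((g i)⁻¹ * g j) := by
  have hr1 : 0 < Ω.r1 := Ω.hr0.trans Ω.hr01
  -- the compact ball `K`
  obtain ⟨ρ, hρ, hρD⟩ := (isCompact_closedBall Ω.b0 Ω.r1).exists_cthickening_subset_open Ω.isOpen
    Ω.hB
  rw [cthickening_closedBall hρ.le hr1.le] at hρD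
  set K : Set (E n) := closedBall Ω.b0 (ρ + Ω.r1) with hK
  have hKc : IsCompact K := isCompact_closedBall _ _
  obtain ⟨C, hC, hUb⟩ := U_bound A blk hblk hqc hρD hKc
  obtain ⟨C2, e0, hC2, he0, hest⟩ := estE A.toBaseAct hρD hKc
  have hr2D : ball Ω.b0 (Ω.r1 + ρ / 2) ⊆ Ω.D := fun b hb => hρD (by
    rw [hK, mem_closedBall]
    rw [mem_ball] at hb
    linarith)
  choose a ha1 ha2 using exists_norm_fun A blk hblk hr2D
  set U : Γ → E n → (E kk →L[ℂ] E kk) := fun γ b =>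
    sc blk (fun i => Complex.exp (-(a γ b i))) * A.L γ b with hU
  -- the constants
  set η : ℝ := min (min e0 (ρ / (16 * C2))) (δ * ρ / (32 * C ^ 2 * C2)) with hη
  have hηp : 0 < η := lt_min (lt_min he0 (by positivity)) (by positivity)
  have e1 : η ≤ e0 := (min_le_left _ _).trans (min_le_left _ _)
  have e2 : C2 * η ≤ ρ / 16 := by
    have : η ≤ ρ / (16 * C2) := (min_le_left _ _).trans (min_le_right _ _)
    rw [le_div_iff₀ (by positivity)] at this
    linarith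
  have e3 : C * (8 * C / ρ * (2 * (C2 * η))) ≤ δ / 2 := by
    have : η ≤ δ * ρ / (32 * C ^ 2 * C2) := min_le_right _ _
    rw [le_div_iff₀ (by positivity)] at this
    have h2 : C * (8 * C / ρ * (2 * (C2 * η))) = (η * (32 * C ^ 2 * C2)) / (2 * ρ) := by
      field_simp
      ring
    rw [h2, div_le_iff₀ (by positivity)]
    linarith
  -- small elements keep the points of the ball of radius `r1 + ρ / 2` in `K`
  have hstay : ∀ γ, (∀ b ∈ Ω.B, ‖A.β γ b - b‖ ≤ η) → ∀ b ∈ ball Ω.b0 (Ω.r1 + ρ / 2),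
      b ∈ K ∧ A.β γ b ∈ K := by
    intro γ hγ b hb
    rw [mem_ball, dist_eq_norm] at hb
    have hbK : b ∈ K := by
      rw [hK, mem_closedBall, dist_eq_norm]
      linarith
    refine ⟨hbK, ?_⟩
    have h1 := (hest γ η hηp.le e1 hγ b hbK).1
    rw [hK, mem_closedBall, dist_eq_norm]
    have h3 : A.β γ b - Ω.b0 = (A.β γ b - b) + (b - Ω.b0) := by abel
    rw [h3]
    have h4 := norm_add_le (A.β γ b - b) (b - Ω.b0)
    linarith
  have hUbd : ∀ γ, (∀ b ∈ Ω.B, ‖A.β γ b - b‖ ≤ η) → ∀ b ∈ ball Ω.b0 (Ω.r1 + ρ / 2),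
      ‖U γ b‖ ≤ C := fun γ hγ b hb =>
    (hUb γ b (hstay γ hγ b hb).1 (hstay γ hγ b hb).2 (a γ b) (ha2 γ b hb)).1
  have hUholo : ∀ γ, DifferentiableOn ℂ (U γ) (ball Ω.b0 (Ω.r1 + ρ / 2)) := by
    intro γ
    have h1 : DifferentiableOn ℂ (fun b => fun i => Complex.exp (-(a γ b i)))
        (ball Ω.b0 (Ω.r1 + ρ / 2)) :=
      differentiableOn_pi.2 fun i => ((differentiableOn_pi.1 (ha1 γ) i).neg).cexp
    exact (sc_holo blk h1).mul ((A.L_holo γ).mono hr2D)
  have hUlip : ∀ γ, (∀ b ∈ Ω.B, ‖A.β γ b - b‖ ≤ η) → ∀ x ∈ closedBall Ω.b0 Ω.r1,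
      ∀ y, ‖x - y‖ < ρ / 4 → ‖U γ x - U γ y‖ ≤ 8 * C / ρ * ‖x - y‖ := by
    intro γ hγ x hx y hy
    have hsub : ball x (ρ / 2) ⊆ ball Ω.b0 (Ω.r1 + ρ / 2) := by
      refine ball_subset_ball' ?_
      rw [mem_closedBall] at hx
      linarith
    have h1 := cauchy_lip (f := U γ) (x := x) (r := ρ / 2) (m := C) (by positivity)
      ((hUholo γ).mono hsub) (fun z hz => hUbd γ hγ z (hsub hz)) (y := x) (z := y)
      (mem_ball_self (by positivity)) (by
        rw [mem_ball, dist_comm, dist_eq_norm]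
        linarith)
    refine h1.trans (le_of_eq ?_)
    field_simp
    ring
  -- pigeonhole
  set ε : ℝ := δ / (2 * C) with hε
  have hεp : 0 < ε := by positivity
  obtain ⟨N, hN⟩ := net_pigeon (isCompact_closedBall Ω.b0 Ω.r1) U
    (fun γ => ∀ b ∈ Ω.B, ‖A.β γ b - b‖ ≤ η) (C := C) (M := 8 * C / ρ)
    (d := min (ρ / 4) (ε * ρ / (24 * C))) hεp (lt_min (by positivity) (by positivity))
    (by
      have h1 : 8 * C / ρ * min (ρ / 4) (ε * ρ / (24 * C)) ≤ 8 * C / ρ * (ε * ρ / (24 * C)) :=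
        mul_le_mul_of_nonneg_left (min_le_right _ _) (by positivity)
      refine h1.trans (le_of_eq ?_)
      field_simp
      ring)
    (by positivity)
    (fun γ hγ b hb => hUbd γ hγ b (by
      rw [mem_ball]
      rw [mem_closedBall] at hb
      linarith))
    (fun γ hγ b hb b' _ h => hUlip γ hγ b hb b' (h.trans_le (min_le_left _ _)))
  refine ⟨η, N, hηp, fun g hg => ?_⟩
  obtain ⟨i, j, hij, hclose⟩ := hN g hg
  refine ⟨i, j, hij, ?_⟩
  set γ := g i with hγdef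
  set γ' := g j with hγ'def
  have hγ := hg i
  have hγ' := hg j
  rw [← hγdef] at hγ
  rw [← hγ'def] at hγ'
  have hmul : ∀ b ∈ Ω.D, A.β (γ⁻¹ * γ') b = A.β γ⁻¹ (A.β γ' b) := fun b hb => A.mul _ _ b hb
  have hsub1 : closedBall Ω.b0 Ω.r1 ⊆ ball Ω.b0 (Ω.r1 + ρ / 2) := fun b hb => by
    rw [mem_closedBall] at hb
    rw [mem_ball]
    linarith
  have hw : ∀ b ∈ closedBall Ω.b0 Ω.r1, ‖A.β (γ⁻¹ * γ') b - b‖ ≤ 2 * (C2 * η) := by
    intro b hb
    rw [hmul b (Ω.hB hb)]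
    obtain ⟨h0, h0'⟩ := hstay γ' hγ' b (hsub1 hb)
    have h1 := (hest γ η hηp.le e1 hγ (A.β γ' b) h0').2
    have h2 := (hest γ' η hηp.le e1 hγ' b h0).1
    have h3 : A.β γ⁻¹ (A.β γ' b) - b = (A.β γ⁻¹ (A.β γ' b) - A.β γ' b) + (A.β γ' b - b) := by abel
    rw [h3]
    have h4 := norm_add_le (A.β γ⁻¹ (A.β γ' b) - A.β γ' b) (A.β γ' b - b)
    linarith
  have hwm : ∀ b ∈ closedBall Ω.b0 Ω.r1, A.β (γ⁻¹ * γ') b ∈ ball Ω.b0 (Ω.r1 + ρ / 2) := by
    intro b hb
    have h1 := hw b hb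
    rw [mem_closedBall, dist_eq_norm] at hb
    rw [mem_ball, dist_eq_norm]
    have h3 : A.β (γ⁻¹ * γ') b - Ω.b0 = (A.β (γ⁻¹ * γ') b - b) + (b - Ω.b0) := by abel
    rw [h3]
    have h4 := norm_add_le (A.β (γ⁻¹ * γ') b - b) (b - Ω.b0)
    linarith
  refine ⟨fun b i => a γ' b i - a γ (A.β (γ⁻¹ * γ') b) i, ?_, fun b hb => ?_⟩
  · have h1 : DifferentiableOn ℂ (fun b => a γ' b) (ball Ω.b0 Ω.r1) :=
      (ha1 γ').mono (ball_subset_closedBall.trans hsub1)
    have h2 : DifferentiableOn ℂ (fun b => a γ (A.β (γ⁻¹ * γ') b)) (ball Ω.b0 Ω.r1) :=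
      (ha1 γ).comp ((A.holo _).mono (ball_subset_closedBall.trans Ω.hB))
        (fun b hb => hwm b (ball_subset_closedBall hb))
    exact h1.sub h2
  · have hb1 : b ∈ closedBall Ω.b0 Ω.r1 := ball_subset_closedBall hb
    have hbD : b ∈ Ω.D := Ω.hB hb1
    set y : E n := A.β (γ⁻¹ * γ') b with hy
    have hyball : y ∈ ball Ω.b0 (Ω.r1 + ρ / 2) := hwm b hb1
    obtain ⟨hyK, hyK'⟩ := hstay γ hγ y hyball
    have hyD : y ∈ Ω.D := hρD hyK
    set V : E kk →L[ℂ] E kk := A.L γ⁻¹ (A.β γ y) * sc blk (fun i => Complex.exp (a γ y i)) with hV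
    have hVb : ‖V‖ ≤ C := (hUb γ y hyK hyK' (a γ y) (ha2 γ y hyball)).2
    have hVU : V * U γ y = 1 := by
      show A.L γ⁻¹ (A.β γ y) * sc blk (fun i => Complex.exp (a γ y i)) *
        (sc blk (fun i => Complex.exp (-(a γ y i))) * A.L γ y) = 1
      have h1 : sc blk (fun i => Complex.exp (a γ y i)) *
          sc blk (fun i => Complex.exp (-(a γ y i))) = 1 := by
        rw [← sc_mul, ← sc_one blk]
        congr 1
        funext i
        show Complex.exp (a γ y i) * Complex.exp (-(a γ y i)) = 1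
        rw [← Complex.exp_add, add_neg_cancel, Complex.exp_zero]
      calc A.L γ⁻¹ (A.β γ y) * sc blk (fun i => Complex.exp (a γ y i)) *
            (sc blk (fun i => Complex.exp (-(a γ y i))) * A.L γ y)
          = A.L γ⁻¹ (A.β γ y) * (sc blk (fun i => Complex.exp (a γ y i)) *
            sc blk (fun i => Complex.exp (-(a γ y i)))) * A.L γ y := by simp only [mul_assoc]
        _ = 1 := by rw [h1, mul_one, A.L_inv_mul γ hyD]
    have hquot := U_quot A blk hblk γ γ' hbD (a γ y) (a γ' b)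
    rw [← hy] at hquot
    have h3 : sc blk (fun i => Complex.exp (-(a γ' b i - a γ y i))) * A.L (γ⁻¹ * γ') b - 1 =
        V * (U γ' b - U γ y) := by
      rw [mul_sub, hVU, hquot]
    show ‖sc blk (fun i => Complex.exp (-(a γ' b i - a γ y i))) * A.L (γ⁻¹ * γ') b - 1‖ ≤ δ
    rw [h3]
    have h4 := hclose b hb1
    have h5 : ‖b - y‖ ≤ 2 * (C2 * η) := by rw [norm_sub_rev]; exact hw b hb1
    have h6 : ‖U γ b - U γ y‖ ≤ 8 * C / ρ * (2 * (C2 * η)) := by
      refine (hUlip γ hγ b hb1 y (by linarith)).trans ?_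
      exact mul_le_mul_of_nonneg_left h5 (by positivity)
    have h7 : ‖U γ' b - U γ y‖ ≤ δ / (2 * C) + 8 * C / ρ * (2 * (C2 * η)) := by
      have h8 : U γ' b - U γ y = (U γ' b - U γ b) + (U γ b - U γ y) := by abel
      rw [h8]
      have h9 := norm_add_le (U γ' b - U γ b) (U γ b - U γ y)
      linarith
    calc ‖V * (U γ' b - U γ y)‖ ≤ ‖V‖ * ‖U γ' b - U γ y‖ := norm_mul_le _ _
      _ ≤ C * (δ / (2 * C) + 8 * C / ρ * (2 * (C2 * η))) := by gcongr
      _ = δ / 2 + C * (8 * C / ρ * (2 * (C2 * η))) := by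
          field_simp
      _ ≤ δ := by linarith

end Pool.Agent.H.MP_e23cd6_ag.CB
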