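import Pool.Agent.H.MP_e23cd6_ag.AK.Ea1
import Pool.Agent.H.MP_e23cd6_ag.CB.Defs

/-!
CB M5a: one step estimate for commutators, up to holomorphic block scalars.

For `w = s t s⁻¹ t⁻¹`, `b' = β (t s) b`: if `U_γ = sc (exp (-a_γ)) L_γ` then with
`a_w b' = (a_s (β t b) - a_s b) + (a_t b - a_t (β s b))`: `U_w b' * (U_t (β s b) * U_s b) = U_s (β t b) * U_t b`.
-/

open Set Filter Topology Metric

namespace Pool.Agent.H.MP_e23cd6_ag.CB

open Pool.Agent.H.MP_e23cd6_ag.AB Pool.Agent.H.MP_e23cd6_ag.AK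

variable {n kk r : ℕ} {Ω : Dom n} {Γ : Type} [Group Γ]

/-- the block scalars `exp (-x)` -/
noncomputable def scE (blk : Fin kk → Fin r) (x : Fin r → ℂ) : E kk →L[ℂ] E kk :=
  sc blk fun i => Complex.exp (-(x i))

theorem scE_add (blk : Fin kk → Fin r) (x y : Fin r → ℂ) :
    scE blk (x + y) = scE blk x * scE blk y := by
  unfold scE
  rw [← sc_mul]
  congr 1
  funext i
  show Complex.exp (-(x i + y i)) = Complex.exp (-(x i)) * Complex.exp (-(y i))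
  rw [← Complex.exp_add]
  congr 1
  ring

theorem scE_zero (blk : Fin kk → Fin r) : scE blk 0 = 1 := by
  unfold scE
  rw [show (fun i : Fin r => Complex.exp (-((0 : Fin r → ℂ) i))) = 1 from ?_, sc_one]
  funext i
  simp

theorem sc_comm (blk : Fin kk → Fin r) (x y : Fin r → ℂ) :
    sc blk x * sc blk y = sc blk y * sc blk x := by
  rw [← sc_mul, ← sc_mul, mul_comm]

theorem sc_sub (blk : Fin kk → Fin r) (x y : Fin r → ℂ) : sc blk (x - y) = sc blk x - sc blk y := by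
  ext1 v; funext j
  show sc blk (x - y) v j = sc blk x v j - sc blk y v j
  simp [sub_mul]

theorem sc_norm_le (blk : Fin kk → Fin r) {x : Fin r → ℂ} {M : ℝ} (hM : 0 ≤ M)
    (h : ∀ i, ‖x i‖ ≤ M) : ‖sc blk x‖ ≤ M := by
  refine ContinuousLinearMap.opNorm_le_bound _ hM fun v => ?_
  refine (pi_norm_le_iff_of_nonneg (by positivity)).2 fun j => ?_
  rw [sc_apply, norm_mul]
  exact mul_le_mul (h _) (norm_le_pi_norm v j) (norm_nonneg _) hM

theorem sc_sum (blk : Fin kk → Fin r) (x : Fin r → ℂ) :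
    sc blk x = ∑ i, x i • sc blk (Pi.single i 1) := by
  ext1 v; funext j
  rw [sum_apply, Finset.sum_apply]
  simp [Pi.single_apply]

theorem sc_diff {blk : Fin kk → Fin r} {x : E n → Fin r → ℂ} {S : Set (E n)}
    (h : DifferentiableOn ℂ x S) : DifferentiableOn ℂ (fun b => sc blk (x b)) S := by
  have h1 : (fun b => sc blk (x b)) = fun b => ∑ i, x b i • sc blk (Pi.single i 1) := by
    funext b
    exact sc_sum blk (x b)
  rw [h1]
  refine DifferentiableOn.fun_sum fun i _ => ?_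
  exact (differentiableOn_pi.1 h i).smul_const _

theorem scE_diff {blk : Fin kk → Fin r} {x : E n → Fin r → ℂ} {S : Set (E n)}
    (h : DifferentiableOn ℂ x S) : DifferentiableOn ℂ (fun b => scE blk (x b)) S := by
  refine sc_diff (x := fun b i => Complex.exp (-(x b i))) ?_
  refine differentiableOn_pi.2 fun i => ?_
  exact (differentiableOn_pi.1 h i).neg.cexp

/-- The estimate for a commutator of linear maps close to one. -/
theorem comm_est {P Q R S W : E kk →L[ℂ] E kk} {δ p : ℝ} (hδ : 0 ≤ δ) (hδ8 : δ ≤ 1 / 8)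
    (hp : 0 ≤ p)
    (nP : ‖P - 1‖ ≤ δ) (nQ : ‖Q - 1‖ ≤ δ) (nS : ‖S - 1‖ ≤ δ)
    (f1 : ‖R - Q‖ ≤ p) (f2 : ‖P - S‖ ≤ p) (hc : W * (P * Q) = R * S) :
    ‖W - 1‖ ≤ 2 * (4 * p + 2 * δ ^ 2) := by
  have mQ : ‖Q‖ ≤ 2 := (norm_le_one_add nQ).trans (by linarith)
  have mS : ‖S‖ ≤ 2 := (norm_le_one_add nS).trans (by linarith)
  have hdiff : R * S - P * Q = (R - Q) * S - (P - S) * Q +
      ((Q - 1) * (S - 1) - (S - 1) * (Q - 1)) := by
    simp only [sub_mul, mul_sub, mul_one, one_mul]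
    abel
  have g1 : ‖(R - Q) * S‖ ≤ p * 2 :=
    (norm_mul_le _ _).trans (mul_le_mul f1 mS (norm_nonneg _) (by positivity))
  have g2 : ‖(P - S) * Q‖ ≤ p * 2 :=
    (norm_mul_le _ _).trans (mul_le_mul f2 mQ (norm_nonneg _) (by positivity))
  have g3 : ‖(Q - 1) * (S - 1)‖ ≤ δ * δ :=
    (norm_mul_le _ _).trans (mul_le_mul nQ nS (norm_nonneg _) hδ)
  have g4 : ‖(S - 1) * (Q - 1)‖ ≤ δ * δ :=
    (norm_mul_le _ _).trans (mul_le_mul nS nQ (norm_nonneg _) hδ)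
  have g5 : ‖R * S - P * Q‖ ≤ 4 * p + 2 * δ ^ 2 := by
    rw [hdiff]
    have a1 := norm_add_le ((R - Q) * S - (P - S) * Q) ((Q - 1) * (S - 1) - (S - 1) * (Q - 1))
    have a2 := norm_sub_le ((R - Q) * S) ((P - S) * Q)
    have a3 := norm_sub_le ((Q - 1) * (S - 1)) ((S - 1) * (Q - 1))
    nlinarith
  have hV : ‖P * Q - 1‖ ≤ 1 / 2 := by
    have b1 : P * Q - 1 = (P - 1) * Q + (Q - 1) := by
      simp only [sub_mul, one_mul]
      abel
    have b2 : ‖(P - 1) * Q‖ ≤ δ * 2 :=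
      (norm_mul_le _ _).trans (mul_le_mul nP mQ (norm_nonneg _) hδ)
    rw [b1]
    have b3 := norm_add_le ((P - 1) * Q) (Q - 1)
    linarith
  have hU : (W - 1) * (P * Q) = R * S - P * Q := by
    rw [sub_mul, one_mul, hc]
  have hU2 : W - 1 = (R * S - P * Q) - (W - 1) * (P * Q - 1) := by
    rw [← hU, mul_sub (W - 1) (P * Q) 1, mul_one, sub_sub_cancel]
  have k1 : ‖W - 1‖ ≤ ‖R * S - P * Q‖ + ‖W - 1‖ * (1 / 2) := by
    calc ‖W - 1‖ = ‖(R * S - P * Q) - (W - 1) * (P * Q - 1)‖ := by rw [← hU2]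
      _ ≤ ‖R * S - P * Q‖ + ‖(W - 1) * (P * Q - 1)‖ := norm_sub_le _ _
      _ ≤ ‖R * S - P * Q‖ + ‖W - 1‖ * (1 / 2) := by
          have := (norm_mul_le (W - 1) (P * Q - 1)).trans
            (mul_le_mul_of_nonneg_left hV (norm_nonneg _))
          linarith
  linarith

/-- The commutator identity up to block scalars. -/
theorem comm_U (A : FibAct Ω kk Γ) (blk : Fin kk → Fin r)
    (hcomm : IsBlk A blk)
    (s t : Γ) {b b' : E n} (hb : b ∈ Ω.D) (hb' : A.β (t * s) b = b')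
    {x y z u v : Fin r → ℂ} (h : x + (y + z) = u + v) :
    scE blk x * A.L (s * t * s⁻¹ * t⁻¹) b' *
      (scE blk y * A.L t (A.β s b) * (scE blk z * A.L s b)) =
      scE blk u * A.L s (A.β t b) * (scE blk v * A.L t b) := by
  have hsb : A.β s b ∈ Ω.D := A.maps s hb
  have htb : A.β t b ∈ Ω.D := A.maps t hb
  have hb'D : b' ∈ Ω.D := by rw [← hb']; exact A.maps _ hb
  have e1 : scE blk y * A.L t (A.β s b) * (scE blk z * A.L s b) =
      scE blk (y + z) * (A.L t (A.β s b) * A.L s b) := by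
    have h1 : A.L t (A.β s b) * scE blk z = scE blk z * A.L t (A.β s b) := hcomm _ _ hsb _
    rw [scE_add]
    simp only [mul_assoc]
    rw [← mul_assoc (A.L t (A.β s b)) (scE blk z), h1]
    simp only [mul_assoc]
  have e2 : scE blk u * A.L s (A.β t b) * (scE blk v * A.L t b) =
      scE blk (u + v) * (A.L s (A.β t b) * A.L t b) := by
    have h1 : A.L s (A.β t b) * scE blk v = scE blk v * A.L s (A.β t b) := hcomm _ _ htb _
    rw [scE_add]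
    simp only [mul_assoc]
    rw [← mul_assoc (A.L s (A.β t b)) (scE blk v), h1]
    simp only [mul_assoc]
  rw [e1, e2, ← h, scE_add blk x, ← comm_L A s t hb hb']
  have h2 : A.L (s * t * s⁻¹ * t⁻¹) b' * scE blk (y + z) =
      scE blk (y + z) * A.L (s * t * s⁻¹ * t⁻¹) b' := hcomm _ _ hb'D _
  generalize A.L (s * t * s⁻¹ * t⁻¹) b' = W at h2 ⊢
  generalize A.L t (A.β s b) * A.L s b = V
  rw [mul_assoc (scE blk x) W, ← mul_assoc W, h2, mul_assoc (scE blk (y + z)) W, ← mul_assoc]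

theorem near_step (A : FibAct Ω kk Γ) (blk : Fin kk → Fin r)
    (hcomm : IsBlk A blk) :
    ∃ C κ : ℝ, 0 < C ∧ 0 < κ ∧ ∀ (s t : Γ) (ls lt : E n → Fin r → ℂ) (ρ ρ' Λ e δ : ℝ),
      0 < ρ' → ρ' < ρ → ρ ≤ Ω.r1 → 0 ≤ e → e ≤ κ * (ρ - ρ') → 0 ≤ δ → δ ≤ 1 / 8 →
      (∀ b ∈ Ω.B, ‖A.β s b - b‖ ≤ e) → (∀ b ∈ Ω.B, ‖A.β t b - b‖ ≤ e) →
      DifferentiableOn ℂ ls (ball Ω.b0 ρ) → DifferentiableOn ℂ lt (ball Ω.b0 ρ) →
      (∀ b ∈ ball Ω.b0 ρ, ‖scE blk (ls b) * A.L s b - 1‖ ≤ δ ∧ ‖ls b‖ ≤ Λ) →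
      (∀ b ∈ ball Ω.b0 ρ, ‖scE blk (lt b) * A.L t b - 1‖ ≤ δ ∧ ‖lt b‖ ≤ Λ) →
      ∃ lw : E n → Fin r → ℂ, DifferentiableOn ℂ lw (ball Ω.b0 ρ') ∧
        ∀ b ∈ ball Ω.b0 ρ', ‖scE blk (lw b) * A.L (s * t * s⁻¹ * t⁻¹) b - 1‖ ≤
          C * (δ * e / (ρ - ρ') + δ ^ 2) ∧ ‖lw b‖ ≤ C * Λ * e / (ρ - ρ') := by
  obtain ⟨C1, κ, hC1, hκ, hcom⟩ := E3a_common A.toBaseAct
  refine ⟨64 * C1 + 4, κ, by positivity, hκ, ?_⟩
  intro s t ls lt ρ ρ' Λ e δ hρ' hρ hρ1 he hek hδ hδ8 hs ht hls hlt hs2 ht2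
  have hcom' := hcom s t ρ ρ' e hρ' hρ hρ1 he hek hs ht
  have hg : 0 < ρ - ρ' := by linarith
  have hρD : ball Ω.b0 ρ ⊆ Ω.D := fun y hy =>
    Ω.hB (ball_subset_closedBall (ball_subset_ball hρ1 hy))
  have hsubD : ball Ω.b0 ρ' ⊆ Ω.D := fun y hy => hρD (ball_subset_ball hρ.le hy)
  have hhalf : ∀ x : E n, ball x ((ρ - ρ') / 2 / 2) ⊆ ball x ((ρ - ρ') / 2) := fun x =>
    ball_subset_ball (by linarith)
  refine ⟨fun b' => (ls (A.β t (A.β s⁻¹ (A.β t⁻¹ b'))) - ls (A.β s⁻¹ (A.β t⁻¹ b'))) +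
    (lt (A.β s⁻¹ (A.β t⁻¹ b')) - lt (A.β s (A.β s⁻¹ (A.β t⁻¹ b')))), ?_, ?_⟩
  · have hd1 : DifferentiableOn ℂ (fun b' => A.β s⁻¹ (A.β t⁻¹ b')) (ball Ω.b0 ρ') := by
      refine (A.holo s⁻¹).comp ((A.holo t⁻¹).mono hsubD) ?_
      exact fun y hy => A.maps _ (hsubD hy)
    have hd2 : DifferentiableOn ℂ (fun b' => A.β t (A.β s⁻¹ (A.β t⁻¹ b'))) (ball Ω.b0 ρ') :=
      (A.holo t).comp hd1 fun y hy => (hcom' y hy).2.1
    have hd3 : DifferentiableOn ℂ (fun b' => A.β s (A.β s⁻¹ (A.β t⁻¹ b'))) (ball Ω.b0 ρ') :=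
      (A.holo s).comp hd1 fun y hy => (hcom' y hy).2.1
    have hm1 : ∀ y ∈ ball Ω.b0 ρ', A.β s⁻¹ (A.β t⁻¹ y) ∈ ball Ω.b0 ρ := fun y hy =>
      (hcom' y hy).2.2.1 (mem_ball_self (by positivity))
    have hm2 : ∀ y ∈ ball Ω.b0 ρ', A.β t (A.β s⁻¹ (A.β t⁻¹ y)) ∈ ball Ω.b0 ρ := fun y hy =>
      (hcom' y hy).2.2.1 (hhalf _ (hcom' y hy).2.2.2.1)
    have hm3 : ∀ y ∈ ball Ω.b0 ρ', A.β s (A.β s⁻¹ (A.β t⁻¹ y)) ∈ ball Ω.b0 ρ := fun y hy =>
      (hcom' y hy).2.2.1 (hhalf _ (hcom' y hy).2.2.2.2.1)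
    exact ((hls.comp hd2 hm2).sub (hls.comp hd1 hm1)).add
      ((hlt.comp hd1 hm1).sub (hlt.comp hd3 hm3))
  · intro b' hb'
    obtain ⟨h1, hD, hsub, h3, h4, h5, h6, h7⟩ := hcom' b' hb'
    set b := A.β s⁻¹ (A.β t⁻¹ b') with hb
    have hg2 : 0 < (ρ - ρ') / 2 := by positivity
    have hbm : b ∈ ball b ((ρ - ρ') / 2 / 2) := mem_ball_self (by positivity)
    have hb0 : b ∈ ball Ω.b0 ρ := hsub (hhalf _ hbm)
    have ht0 : A.β t b ∈ ball Ω.b0 ρ := hsub (hhalf _ h3)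
    have hs0 : A.β s b ∈ ball Ω.b0 ρ := hsub (hhalf _ h4)
    have hΛ : 0 ≤ Λ := (norm_nonneg _).trans (hs2 b hb0).2
    constructor
    · have e1 := cauchy_lip (f := fun y => scE blk (ls y) * A.L s y - 1) hg2
        ((((scE_diff hls).mul ((A.L_holo s).mono hρD)).mono hsub).sub_const _)
        (fun y hy => (hs2 y (hsub hy)).1) h3 hbm
      have e2 := cauchy_lip (f := fun y => scE blk (lt y) * A.L t y - 1) hg2
        ((((scE_diff hlt).mul ((A.L_holo t).mono hρD)).mono hsub).sub_const _)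
        (fun y hy => (ht2 y (hsub hy)).1) h4 hbm
      simp only [sub_sub_sub_cancel_right] at e1 e2
      have e3 : 4 * δ / ((ρ - ρ') / 2) * ‖A.β t b - b‖ ≤ 4 * δ / ((ρ - ρ') / 2) * (C1 * e) :=
        mul_le_mul_of_nonneg_left h5 (by positivity)
      have e4 : 4 * δ / ((ρ - ρ') / 2) * ‖A.β s b - b‖ ≤ 4 * δ / ((ρ - ρ') / 2) * (C1 * e) :=
        mul_le_mul_of_nonneg_left h6 (by positivity)
      have e5 : 4 * δ / ((ρ - ρ') / 2) * (C1 * e) = 8 * C1 * (δ * e / (ρ - ρ')) := by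
        field_simp
        ring
      rw [e5] at e3 e4
      have hq0 : 0 ≤ δ * e / (ρ - ρ') := by positivity
      have hc := comm_U A blk hcomm s t hD h7 (x := (ls (A.β t b) - ls b) + (lt b - lt (A.β s b)))
        (y := lt (A.β s b)) (z := ls b) (u := ls (A.β t b)) (v := lt b) (by abel)
      have key := comm_est hδ hδ8 (p := 8 * C1 * (δ * e / (ρ - ρ'))) (by positivity)
        (ht2 _ hs0).1 (hs2 _ hb0).1 (ht2 _ hb0).1 (e1.trans e3) (e2.trans e4) hc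
      refine key.trans ?_
      have k2 : (64 * C1 + 4) * (δ * e / (ρ - ρ') + δ ^ 2) =
          2 * (4 * (8 * C1 * (δ * e / (ρ - ρ'))) + 2 * δ ^ 2) +
          (64 * C1 * δ ^ 2 + 4 * (δ * e / (ρ - ρ'))) := by ring
      have k3 : 0 ≤ 64 * C1 * δ ^ 2 + 4 * (δ * e / (ρ - ρ')) := by positivity
      linarith
    · have e1 := cauchy_lip hg2 (hls.mono hsub) (fun y hy => (hs2 y (hsub hy)).2) h3 hbm
      have e2 := cauchy_lip hg2 (hlt.mono hsub) (fun y hy => (ht2 y (hsub hy)).2) hbm h4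
      rw [norm_sub_rev b] at e2
      have e3 : 4 * Λ / ((ρ - ρ') / 2) * ‖A.β t b - b‖ ≤ 4 * Λ / ((ρ - ρ') / 2) * (C1 * e) :=
        mul_le_mul_of_nonneg_left h5 (by positivity)
      have e4 : 4 * Λ / ((ρ - ρ') / 2) * ‖A.β s b - b‖ ≤ 4 * Λ / ((ρ - ρ') / 2) * (C1 * e) :=
        mul_le_mul_of_nonneg_left h6 (by positivity)
      have e5 : (64 * C1 + 4) * Λ * e / (ρ - ρ') = 4 * Λ / ((ρ - ρ') / 2) * (C1 * e) +
          4 * Λ / ((ρ - ρ') / 2) * (C1 * e) + (48 * C1 + 4) * Λ * e / (ρ - ρ') := by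
        field_simp
        ring
      have e6 : 0 ≤ (48 * C1 + 4) * Λ * e / (ρ - ρ') := by positivity
      have e7 := (norm_add_le (ls (A.β t b) - ls b) (lt b - lt (A.β s b))).trans
        (add_le_add (e1.trans e3) (e2.trans e4))
      rw [e5]
      exact e7.trans (by linarith)

end Pool.Agent.H.MP_e23cd6_ag.CB
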