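import Pool.Agent.H.MP_e23cd6_ag.AB.E2
import Pool.Agent.H.MP_e23cd6_ag.CB.M5a

/-!
CB M5: iterated commutator sets which are doubly exponentially close to the identity on the base and start with linear parts which are
close to one up to holomorphic block scalars act trivially on the base after finitely many steps.
-/

open Set Filter Topology Metric

namespace Pool.Agent.H.MP_e23cd6_ag.CB

open Pool.Agent.H.MP_e23cd6_ag.AB Pool.Agent.H.MP_e23cd6_ag.AK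

variable {n kk r : ℕ} {Ω : Dom n} {Γ : Type} [Group Γ]

private theorem M5_tendsto {u r : ℕ → ℝ} (h0 : ∀ k, 0 ≤ u k)
    (h : ∀ k, u (k + 1) ≤ r k * u k) (hr : Tendsto r atTop (𝓝 0)) : Tendsto u atTop (𝓝 0) := by
  have h1 : ∀ᶠ k in atTop, r k ≤ 1 / 2 := hr.eventually_le_const (by norm_num)
  have h2 : Summable u := by
    refine summable_of_ratio_norm_eventually_le (r := 1 / 2) (by norm_num) ?_
    filter_upwards [h1] with k hk
    rw [Real.norm_of_nonneg (h0 _), Real.norm_of_nonneg (h0 _)]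
    exact (h k).trans (mul_le_mul_of_nonneg_right hk (h0 k))
  exact h2.tendsto_atTop_zero

omit [Group Γ] in
private theorem M5_bound {S : Set Γ} (hS : S.Finite) {P : Γ → ℝ → Prop}
    (hP : ∀ s ∈ S, ∃ M, P s M) (hmono : ∀ s M M', M ≤ M' → P s M → P s M') :
    ∃ M, 0 ≤ M ∧ ∀ s ∈ S, P s M := by
  classical
  choose! f hf using hP
  obtain ⟨B, hB⟩ := (hS.image f).bddAbove
  refine ⟨max B 0, le_max_right _ _, fun s hs => ?_⟩
  exact hmono s (f s) _ ((hB (mem_image_of_mem f hs)).trans (le_max_left _ _)) (hf s hs)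

private theorem M5_exp {z : ℂ} {L : ℝ} (h : ‖z‖ ≤ L) : ‖Complex.exp z - 1‖ ≤ Real.exp L - 1 := by
  have h1 := Complex.norm_exp_sub_sum_le_exp_norm_sub_sum z 1
  simp only [Finset.range_one, Finset.sum_singleton, pow_zero, Nat.factorial_zero, Nat.cast_one,
    div_one] at h1
  have h2 := Real.exp_le_exp.2 h
  linarith

/-- a linear map which is close to one up to small logarithms of block scalars is close to one -/
theorem lin_of_near {blk : Fin kk → Fin r} {X : E kk →L[ℂ] E kk} {l : Fin r → ℂ} {Λ δ : ℝ}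
    (hδ : 0 ≤ δ) (h : ‖scE blk l * X - 1‖ ≤ δ) (hl : ‖l‖ ≤ Λ) :
    ‖X - 1‖ ≤ (Real.exp Λ - 1) * (1 + δ) + δ := by
  have hΛ : 0 ≤ Λ := (norm_nonneg _).trans hl
  have hX : X = scE blk (-l) * (scE blk l * X) := by
    rw [← mul_assoc, ← scE_add, neg_add_cancel, scE_zero, one_mul]
  have h1 : ‖scE blk (-l) - 1‖ ≤ Real.exp Λ - 1 := by
    have e : scE blk (-l) - 1 = sc blk (fun i => Complex.exp (l i) - 1) := by
      have e1 : (fun i => Complex.exp (l i) - 1) =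
          (fun i => Complex.exp (-((-l) i))) - (1 : Fin r → ℂ) := by
        funext i
        simp
      rw [e1, sc_sub, sc_one]
      rfl
    rw [e]
    refine sc_norm_le blk ?_ fun i => M5_exp ((norm_le_pi_norm l i).trans hl)
    have := Real.one_le_exp hΛ
    linarith
  have h0 : 0 ≤ Real.exp Λ - 1 := (norm_nonneg _).trans h1
  have h2 : X - 1 = (scE blk (-l) - 1) * (scE blk l * X) + (scE blk l * X - 1) := by
    rw [sub_mul, one_mul, ← hX]
    abel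
  rw [h2]
  refine (norm_add_le _ _).trans (add_le_add ?_ h)
  exact (norm_mul_le _ _).trans (mul_le_mul h1 (norm_le_one_add h) (norm_nonneg _) h0)

theorem comm_trivial_cb (A : FibAct Ω kk Γ) (blk : Fin kk → Fin r) (hblk : IsBlk A blk) :
    ∃ q δ : ℝ, 0 < q ∧ 0 < δ ∧ ∀ S0 : Set Γ, S0.Finite → (∀ s ∈ S0, Near A blk δ s) →
      (∀ k : ℕ, ∀ s ∈ comSet^[k] S0, ∀ b ∈ Ω.B, ‖A.β s b - b‖ ≤ q ^ (2 ^ k)) →
      ∃ k : ℕ, ∀ s ∈ comSet^[k] S0, ∀ b ∈ Ω.D, A.β s b = b := by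
  obtain ⟨C1, κ1, hC1, hκ1, hlin⟩ := near_step A blk hblk
  obtain ⟨C2, κ2, hC2, hκ2, hcs⟩ := tr_step A
  obtain ⟨κ, hκdef⟩ : ∃ κ : ℝ, κ = min κ1 κ2 := ⟨_, rfl⟩
  have hκ : 0 < κ := by rw [hκdef]; exact lt_min hκ1 hκ2
  have hκ1' : κ ≤ κ1 := by rw [hκdef]; exact min_le_left _ _
  have hκ2' : κ ≤ κ2 := by rw [hκdef]; exact min_le_right _ _
  have hr0 := Ω.hr0
  have hr01 := Ω.hr01
  obtain ⟨d, hd⟩ : ∃ d : ℝ, d = Ω.r1 - Ω.r0 := ⟨_, rfl⟩
  have hd0 : 0 < d := by rw [hd]; linarith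
  obtain ⟨ρ, hρ⟩ : ∃ ρ : ℕ → ℝ, ∀ k, ρ k = Ω.r0 + d / 2 ^ (k + 1) := ⟨_, fun k => rfl⟩
  have hρ0 : ∀ k, 0 < ρ k := fun k => by rw [hρ]; positivity
  have hgap : ∀ k, ρ k - ρ (k + 1) = d / 2 ^ (k + 2) := by
    intro k
    rw [hρ, hρ, pow_succ 2 (k + 1)]
    field_simp
    ring
  have hgap0 : ∀ k, 0 < ρ k - ρ (k + 1) := fun k => by rw [hgap]; positivity
  have hρlt : ∀ k, ρ (k + 1) < ρ k := fun k => by linarith [hgap0 k]
  have hρ1 : ∀ k, ρ k < Ω.r1 := by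
    intro k
    rw [hρ]
    have h1 : d / 2 ^ (k + 1) < d := by
      rw [div_lt_iff₀ (by positivity)]
      have : (1 : ℝ) < 2 ^ (k + 1) := one_lt_pow₀ (by norm_num) (by omega)
      nlinarith
    linarith
  obtain ⟨q, hq0, hq1, hq2, hq3, hq4⟩ : ∃ q : ℝ, 0 < q ∧ q ≤ 1 / 4 ∧ q ≤ κ * d / 4 ∧ q ≤ Ω.r1 ∧
      q ≤ d / (16 * C1) :=
    ⟨min (1 / 4) (min (κ * d / 4) (min Ω.r1 (d / (16 * C1)))), lt_min (by norm_num)
      (lt_min (by positivity) (lt_min (by linarith) (by positivity))), min_le_left _ _,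
      (min_le_right _ _).trans (min_le_left _ _),
      (min_le_right _ _).trans ((min_le_right _ _).trans (min_le_left _ _)),
      (min_le_right _ _).trans ((min_le_right _ _).trans (min_le_right _ _))⟩
  obtain ⟨D0, hD0, hD1, hD2⟩ : ∃ D0 : ℝ, 0 < D0 ∧ D0 ≤ 1 / 8 ∧ C1 * D0 ≤ 1 / 8 := by
    refine ⟨1 / (8 * (C1 + 1)), by positivity, ?_, ?_⟩
    · rw [div_le_div_iff₀ (by positivity) (by norm_num)]
      nlinarith
    · rw [mul_one_div, div_le_div_iff₀ (by positivity) (by norm_num)]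
      nlinarith
  refine ⟨q, D0, hq0, hD0, fun S0 hS0 hlin0 hsmall => ?_⟩
  obtain ⟨e, he⟩ : ∃ e : ℕ → ℝ, ∀ k, e k = q ^ (2 ^ k) := ⟨_, fun k => rfl⟩
  have he0 : ∀ k, 0 ≤ e k := fun k => by rw [he]; positivity
  have he1 : ∀ k, e k ≤ q * (1 / 4) ^ k := by
    intro k
    rw [he]
    have h1 : k + 1 ≤ 2 ^ k := Nat.lt_two_pow_self
    calc q ^ (2 ^ k) ≤ q ^ (k + 1) := pow_le_pow_of_le_one hq0.le (by linarith) h1
      _ = q * q ^ k := by rw [pow_succ, mul_comm]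
      _ ≤ q * (1 / 4) ^ k := mul_le_mul_of_nonneg_left (pow_le_pow_left₀ hq0.le hq1 k) hq0.le
  have heq : ∀ k, e k ≤ q := by
    intro k
    refine (he1 k).trans ?_
    have : (1 / 4 : ℝ) ^ k ≤ 1 := pow_le_one₀ (by norm_num) (by norm_num)
    nlinarith
  have hek : ∀ k, e k ≤ κ * (ρ k - ρ (k + 1)) := by
    intro k
    rw [hgap]
    refine (he1 k).trans ?_
    have h1 : q * (1 / 4) ^ k ≤ κ * d / 4 * (1 / 2) ^ k := by
      apply mul_le_mul hq2 _ (by positivity) (by positivity)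
      exact pow_le_pow_left₀ (by norm_num) (by norm_num) k
    refine h1.trans (le_of_eq ?_)
    rw [pow_add, one_div, inv_pow]
    field_simp
    norm_num
  have hr1 : ∀ k, e k / (ρ k - ρ (k + 1)) ≤ 4 * q / d * (1 / 2) ^ k := by
    intro k
    rw [hgap, div_le_iff₀ (by positivity)]
    refine (he1 k).trans (le_of_eq ?_)
    have h2 : (1 / 4 : ℝ) ^ k = (1 / 2) ^ k * (1 / 2) ^ k := by
      rw [← mul_pow]; norm_num
    have h3 : (2 : ℝ) ^ (k + 2) = 4 * 2 ^ k := by ring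
    have h4 : (1 / 2 : ℝ) ^ k * 2 ^ k = 1 := by rw [← mul_pow]; norm_num
    rw [h2, h3]
    field_simp
    ring_nf
    ring_nf at h4
    try nlinarith [h4]
  have hratio : Tendsto (fun k => e k / (ρ k - ρ (k + 1))) atTop (𝓝 0) := by
    have h2 : Tendsto (fun k : ℕ => 4 * q / d * (1 / 2 : ℝ) ^ k) atTop (𝓝 0) := by
      have := (tendsto_pow_atTop_nhds_zero_of_lt_one (r := (1 / 2 : ℝ)) (by norm_num)
        (by norm_num)).const_mul (4 * q / d)
      simpa using this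
    exact squeeze_zero (fun k => div_nonneg (he0 k) (hgap0 k).le) hr1 h2
  have hratio1 : ∀ k, C1 * (e k / (ρ k - ρ (k + 1))) ≤ 1 / 4 := by
    intro k
    have h1 : e k / (ρ k - ρ (k + 1)) ≤ 4 * q / d := by
      refine (hr1 k).trans ?_
      have h2 : (1 / 2 : ℝ) ^ k ≤ 1 := pow_le_one₀ (by norm_num) (by norm_num)
      have h3 : 0 ≤ 4 * q / d := by positivity
      nlinarith
    have h2 : C1 * (4 * q / d) ≤ 1 / 4 := by
      have h3 : q * (16 * C1) ≤ d := by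
        rwa [le_div_iff₀ (by positivity)] at hq4
      rw [← mul_div_assoc, div_le_iff₀ hd0]
      nlinarith
    exact (mul_le_mul_of_nonneg_left h1 hC1.le).trans h2
  have hsucc : ∀ k, comSet^[k + 1] S0 = comSet (comSet^[k] S0) := fun k =>
    Function.iterate_succ_apply' _ _ _
  have hsub0 : closedBall Ω.b0 (ρ 0) ⊆ ball Ω.b0 Ω.r1 := closedBall_subset_ball (hρ1 0)
  have hbD : ball Ω.b0 Ω.r1 ⊆ Ω.D := ball_subset_closedBall.trans Ω.hB
  have hsm : ∀ k, ∀ s ∈ comSet^[k] S0, ∀ b ∈ Ω.B, ‖A.β s b - b‖ ≤ e k := by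
    intro k s hs b hb
    rw [he]
    exact hsmall k s hs b hb
  -- linear parts up to block scalars
  obtain ⟨δ, hδz, hδs⟩ : ∃ δ : ℕ → ℝ, δ 0 = D0 ∧
      ∀ k, δ (k + 1) = C1 * (δ k * e k / (ρ k - ρ (k + 1)) + δ k ^ 2) :=
    ⟨fun k => Nat.rec (motive := fun _ => ℝ) D0
      (fun k x => C1 * (x * e k / (ρ k - ρ (k + 1)) + x ^ 2)) k, rfl, fun k => rfl⟩
  have hδb : ∀ k, 0 ≤ δ k ∧ δ k ≤ D0 * (1 / 2) ^ k := by
    intro k
    induction k with
    | zero => rw [hδz]; exact ⟨hD0.le, by simp⟩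
    | succ k ih =>
      obtain ⟨h1, h2⟩ := ih
      have h3 : δ k ≤ D0 := by
        refine h2.trans ?_
        have : (1 / 2 : ℝ) ^ k ≤ 1 := pow_le_one₀ (by norm_num) (by norm_num)
        nlinarith
      have h4 : 0 ≤ e k / (ρ k - ρ (k + 1)) := div_nonneg (he0 k) (hgap0 k).le
      have h5 : δ (k + 1) = δ k * (C1 * (e k / (ρ k - ρ (k + 1)))) + δ k * (C1 * δ k) := by
        rw [hδs]; ring
      have h6 : C1 * δ k ≤ 1 / 8 := (mul_le_mul_of_nonneg_left h3 hC1.le).trans hD2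
      rw [h5]
      refine ⟨by positivity, ?_⟩
      have h7 : δ k * (C1 * (e k / (ρ k - ρ (k + 1)))) ≤ δ k * (1 / 4) :=
        mul_le_mul_of_nonneg_left (hratio1 k) h1
      have h8 : δ k * (C1 * δ k) ≤ δ k * (1 / 8) := mul_le_mul_of_nonneg_left h6 h1
      have h9 : D0 * (1 / 2) ^ (k + 1) = D0 * (1 / 2) ^ k * (1 / 2) := by ring
      rw [h9]
      linarith
  have hδ0 : ∀ k, 0 ≤ δ k := fun k => (hδb k).1
  have hδ8 : ∀ k, δ k ≤ 1 / 8 := by
    intro k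
    refine (hδb k).2.trans ?_
    have : (1 / 2 : ℝ) ^ k ≤ 1 := pow_le_one₀ (by norm_num) (by norm_num)
    nlinarith
  have hδt : Tendsto δ atTop (𝓝 0) := by
    have h2 : Tendsto (fun k : ℕ => D0 * (1 / 2 : ℝ) ^ k) atTop (𝓝 0) := by
      have := (tendsto_pow_atTop_nhds_zero_of_lt_one (r := (1 / 2 : ℝ)) (by norm_num)
        (by norm_num)).const_mul D0
      simpa using this
    exact squeeze_zero hδ0 (fun k => (hδb k).2) h2
  -- logarithms
  obtain ⟨L0, hL0, hL0'⟩ : ∃ M, 0 ≤ M ∧ ∀ s ∈ S0, ∃ l : E n → Fin r → ℂ,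
      DifferentiableOn ℂ l (ball Ω.b0 (ρ 0)) ∧
        ∀ b ∈ ball Ω.b0 (ρ 0), ‖scE blk (l b) * A.L s b - 1‖ ≤ D0 ∧ ‖l b‖ ≤ M := by
    refine M5_bound hS0 (P := fun s M => ∃ l : E n → Fin r → ℂ,
      DifferentiableOn ℂ l (ball Ω.b0 (ρ 0)) ∧
        ∀ b ∈ ball Ω.b0 (ρ 0), ‖scE blk (l b) * A.L s b - 1‖ ≤ D0 ∧ ‖l b‖ ≤ M) ?_ ?_
    · intro s hs
      obtain ⟨l, hl, hl'⟩ := hlin0 s hs
      obtain ⟨M, hM⟩ := (isCompact_closedBall Ω.b0 (ρ 0)).exists_bound_of_continuousOn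
        (hl.continuousOn.mono hsub0)
      exact ⟨M, l, hl.mono (ball_subset_ball (hρ1 0).le), fun b hb =>
        ⟨hl' b (ball_subset_ball (hρ1 0).le hb), hM b (ball_subset_closedBall hb)⟩⟩
    · rintro s M M' hMM' ⟨l, hl, hl'⟩
      exact ⟨l, hl, fun b hb => ⟨(hl' b hb).1, (hl' b hb).2.trans hMM'⟩⟩
  obtain ⟨Λ, hΛ0, hΛ1⟩ : ∃ Λ : ℕ → ℝ, Λ 0 = L0 ∧
      ∀ k, Λ (k + 1) = C1 * Λ k * e k / (ρ k - ρ (k + 1)) :=
    ⟨fun k => Nat.rec (motive := fun _ => ℝ) L0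
      (fun k x => C1 * x * e k / (ρ k - ρ (k + 1))) k, rfl, fun k => rfl⟩
  have hΛnn : ∀ k, 0 ≤ Λ k := by
    intro k
    induction k with
    | zero => rw [hΛ0]; exact hL0
    | succ k ih =>
      rw [hΛ1]
      exact div_nonneg (mul_nonneg (mul_nonneg hC1.le ih) (he0 k)) (hgap0 k).le
  have hΛt : Tendsto Λ atTop (𝓝 0) := by
    refine M5_tendsto (r := fun k => C1 * (e k / (ρ k - ρ (k + 1)))) hΛnn ?_ ?_
    · intro k
      rw [hΛ1]
      apply le_of_eq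
      ring
    · simpa using hratio.const_mul C1
  have hlogs : ∀ k, ∀ s ∈ comSet^[k] S0, ∃ l : E n → Fin r → ℂ,
      DifferentiableOn ℂ l (ball Ω.b0 (ρ k)) ∧
        ∀ b ∈ ball Ω.b0 (ρ k), ‖scE blk (l b) * A.L s b - 1‖ ≤ δ k ∧ ‖l b‖ ≤ Λ k := by
    intro k
    induction k with
    | zero =>
      intro s hs
      rw [hΛ0, hδz]
      exact hL0' s hs
    | succ k ih =>
      intro w hw
      rw [hsucc] at hw
      obtain ⟨s, hs, t, ht, rfl⟩ := hw
      obtain ⟨ls, hls, hls'⟩ := ih s hs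
      obtain ⟨lt', hlt, hlt'⟩ := ih t ht
      rw [hΛ1, hδs]
      exact hlin s t ls lt' (ρ k) (ρ (k + 1)) (Λ k) (e k) (δ k) (hρ0 _) (hρlt k) (hρ1 k).le (he0 k)
        ((hek k).trans (mul_le_mul_of_nonneg_right hκ1' (hgap0 k).le)) (hδ0 k) (hδ8 k)
        (hsm k s hs) (hsm k t ht) hls hlt hls' hlt'
  -- linear parts
  obtain ⟨η, hη⟩ : ∃ η : ℕ → ℝ, ∀ k, η k = (Real.exp (Λ k) - 1) * (1 + δ k) + δ k :=
    ⟨_, fun k => rfl⟩
  have hη0 : ∀ k, 0 ≤ η k := by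
    intro k
    rw [hη]
    have h1 := Real.one_le_exp (hΛnn k)
    have h2 := hδ0 k
    have h3 : 0 ≤ (Real.exp (Λ k) - 1) * (1 + δ k) := mul_nonneg (by linarith) (by linarith)
    linarith
  have hηt : Tendsto η atTop (𝓝 0) := by
    have h1 : Tendsto (fun k => Real.exp (Λ k) - 1) atTop (𝓝 (Real.exp 0 - 1)) :=
      ((Real.continuous_exp.tendsto 0).comp hΛt).sub_const 1
    rw [Real.exp_zero, sub_self] at h1
    have h2 := (h1.mul (hδt.const_add 1)).add hδt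
    rw [zero_mul, zero_add] at h2
    exact h2.congr fun k => (hη k).symm
  have has : ∀ k, ∀ s ∈ comSet^[k] S0, ∀ b ∈ ball Ω.b0 (ρ k), ‖A.L s b - 1‖ ≤ η k := by
    intro k s hs b hb
    obtain ⟨l, _, hl⟩ := hlogs k s hs
    rw [hη]
    exact lin_of_near (hδ0 k) (hl b hb).1 (hl b hb).2
  -- translation parts
  obtain ⟨M0, hM0, hM0'⟩ : ∃ M, 0 ≤ M ∧ ∀ s ∈ S0, ∀ b ∈ ball Ω.b0 (ρ 0), ‖A.c s b‖ ≤ M := by
    refine M5_bound hS0 (P := fun s M => ∀ b ∈ ball Ω.b0 (ρ 0), ‖A.c s b‖ ≤ M) ?_ ?_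
    · intro s _
      obtain ⟨M, hM⟩ := (isCompact_closedBall Ω.b0 (ρ 0)).exists_bound_of_continuousOn
        ((A.c_holo s).continuousOn.mono (hsub0.trans hbD))
      exact ⟨M, fun b hb => hM b (ball_subset_closedBall hb)⟩
    · intro s M M' hMM' h b hb
      exact (h b hb).trans hMM'
  obtain ⟨M, hMz, hMs⟩ : ∃ M : ℕ → ℝ, M 0 = M0 ∧ ∀ k, M (k + 1) =
      (C2 * e k / (ρ k - ρ (k + 1)) + 2 * η k + η (k + 1) * (2 + η k)) * M k :=
    ⟨fun k => Nat.rec (motive := fun _ => ℝ) M0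
      (fun k x => (C2 * e k / (ρ k - ρ (k + 1)) + 2 * η k + η (k + 1) * (2 + η k)) * x) k,
      rfl, fun k => rfl⟩
  have hMnn : ∀ k, 0 ≤ M k := by
    intro k
    induction k with
    | zero => rw [hMz]; exact hM0
    | succ k ih =>
      rw [hMs]
      have h1 := hη0 k
      have h2 := hη0 (k + 1)
      have h3 : 0 ≤ C2 * e k / (ρ k - ρ (k + 1)) :=
        div_nonneg (mul_nonneg hC2.le (he0 k)) (hgap0 k).le
      positivity
  have hMt : Tendsto M atTop (𝓝 0) := by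
    refine M5_tendsto (r := fun k => C2 * e k / (ρ k - ρ (k + 1)) + 2 * η k +
      η (k + 1) * (2 + η k)) hMnn (fun k => (hMs k).le) ?_
    have h1 : Tendsto (fun k => C2 * e k / (ρ k - ρ (k + 1))) atTop (𝓝 0) := by
      have := hratio.const_mul C2
      rw [mul_zero] at this
      exact this.congr fun k => by ring
    have h2 := hηt.const_mul 2
    have h3 := (hηt.comp (tendsto_add_atTop_nat 1)).mul (hηt.const_add 2)
    have h4 := (h1.add h2).add h3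
    simpa using h4
  have hcb : ∀ k, ∀ s ∈ comSet^[k] S0, ∀ b ∈ ball Ω.b0 (ρ k), ‖A.c s b‖ ≤ M k := by
    intro k
    induction k with
    | zero =>
      intro s hs
      rw [hMz]
      exact hM0' s hs
    | succ k ih =>
      intro w hw
      have hw' := hw
      rw [hsucc] at hw
      obtain ⟨s, hs, t, ht, rfl⟩ := hw
      rw [hMs]
      exact hcs s t (ρ k) (ρ (k + 1)) (M k) (e k) (η k) (η (k + 1)) (hρ0 _) (hρlt k) (hρ1 k).le
        (he0 k) ((hek k).trans (mul_le_mul_of_nonneg_right hκ2' (hgap0 k).le)) (hMnn k) (hη0 k)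
        (hη0 (k + 1)) (hsm k s hs) (hsm k t ht) (fun b hb => ⟨has k s hs b hb, ih s hs b hb⟩)
        (fun b hb => ⟨has k t ht b hb, ih t ht b hb⟩) (has (k + 1) _ hw')
  -- proper discontinuity
  have hF := A.pd (closedBall Ω.b0 Ω.r1 ×ˢ closedBall (0 : E kk) 1)
    (prod_mono Ω.hB (subset_univ _)) ((isCompact_closedBall _ _).prod (isCompact_closedBall _ _))
  have het : Tendsto e atTop (𝓝 0) := by
    have h2 : Tendsto (fun k : ℕ => q * (1 / 4 : ℝ) ^ k) atTop (𝓝 0) := by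
      have := (tendsto_pow_atTop_nhds_zero_of_lt_one (r := (1 / 4 : ℝ)) (by norm_num)
        (by norm_num)).const_mul q
      simpa using this
    exact squeeze_zero he0 he1 h2
  have hev : ∀ᶠ k in atTop, ∀ γ ∈ {γ | ∃ x ∈ closedBall Ω.b0 Ω.r1 ×ˢ closedBall (0 : E kk) 1,
      A.act γ x ∈ closedBall Ω.b0 Ω.r1 ×ˢ closedBall (0 : E kk) 1},
      (∀ b ∈ Ω.B, ‖A.β γ b - b‖ ≤ e k) → ∀ b ∈ Ω.D, A.β γ b = b := by
    rw [eventually_all_finite hF]
    intro γ _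
    by_cases hγ : ∀ b ∈ Ω.D, A.β γ b = b
    · exact Eventually.of_forall fun k _ => hγ
    · obtain ⟨b, hb, hne⟩ : ∃ b ∈ Ω.B, A.β γ b ≠ b := by
        by_contra hcon
        push Not at hcon
        apply hγ
        have h1 := ident Ω.isOpen Ω.conn (A.holo γ) (differentiableOn_id) hr0
          (ball_subset_closedBall.trans Ω.B_sub)
          (fun y hy => hcon y (ball_subset_closedBall hy))
        exact fun b hb => h1 hb
      have hpos : 0 < ‖A.β γ b - b‖ := norm_pos_iff.2 (sub_ne_zero.2 hne)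
      filter_upwards [het.eventually_lt_const hpos] with k hk hall
      exact absurd (hall b hb) (not_le.2 hk)
  have hev2 : ∀ᶠ k in atTop, M k ≤ 1 := hMt.eventually_le_const (by norm_num)
  obtain ⟨k, hk1, hk2⟩ := (hev.and hev2).exists
  refine ⟨k, fun s hs => hk1 s ?_ (hsm k s hs)⟩
  have hmem : Ω.b0 ∈ closedBall Ω.b0 Ω.r1 := mem_closedBall_self (by linarith)
  refine ⟨(Ω.b0, 0), ⟨hmem, mem_closedBall_self (by norm_num)⟩, ?_⟩
  rw [A.act_eq s _ (Ω.hB hmem), map_zero, zero_add]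
  refine ⟨?_, ?_⟩
  · show A.β s Ω.b0 ∈ closedBall Ω.b0 Ω.r1
    rw [mem_closedBall, dist_eq_norm]
    exact ((hsm k s hs _ Ω.b0_mem_B).trans (heq k)).trans hq3
  · show A.c s Ω.b0 ∈ closedBall (0 : E kk) 1
    rw [mem_closedBall, dist_zero_right]
    exact (hcb k s hs _ (mem_ball_self (hρ0 k))).trans hk2

end Pool.Agent.H.MP_e23cd6_ag.CB
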