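import Pool.Agent.H.MP_e23cd6_ag.AK.Defs2

/-!
CB/Inv: a uniformly bounded representation of a group on `E kk` preserves a positive definite Hermitian form.

`K = {ξ | ∀ g, ‖T g' ξ‖ ≤ 1}` is a compact neighbourhood of zero in the dual space which is invariant under all transposed
operators `T g'`; these operators preserve Lebesgue measure (as they preserve the volume of `K`), and
`H v w = ∫_K ξ(v) conj(ξ(w)) dξ` is invariant.
-/

open Set Filter Topology Metric MeasureTheory
open scoped ContDiff ComplexConjugate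

namespace Pool.Agent.H.MP_e23cd6_ag.CB

open Pool.Agent.H.MP_e23cd6_ag.AB Pool.Agent.H.MP_e23cd6_ag.AK

variable {kk : ℕ}

/-- the pairing of `E kk` with itself -/
noncomputable def pr (ξ v : E kk) : ℂ := ∑ j, ξ j * v j

/-- the transposed operator -/
noncomputable def trp (A : E kk →L[ℂ] E kk) : E kk →ₗ[ℝ] E kk where
  toFun ξ j := ∑ i, ξ i * A (Pi.single j 1) i
  map_add' ξ η := by
    funext j
    simp only [Pi.add_apply, add_mul, Finset.sum_add_distrib]
  map_smul' a ξ := by
    funext j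
    simp only [Pi.smul_apply, RingHom.id_apply, Complex.real_smul, Finset.mul_sum, mul_assoc]

theorem trp_apply (A : E kk →L[ℂ] E kk) (ξ : E kk) (j : Fin kk) :
    trp A ξ j = ∑ i, ξ i * A (Pi.single j 1) i := rfl

theorem pr_trp (A : E kk →L[ℂ] E kk) (ξ v : E kk) : pr (trp A ξ) v = pr ξ (A v) := by
  have hv : v = ∑ j, v j • (Pi.single j (1 : ℂ) : E kk) := by
    ext j
    simp [Finset.sum_apply, Pi.single_apply]
  have hA : ∀ i, A v i = ∑ j, v j * A (Pi.single j 1) i := by
    intro i
    conv_lhs => rw [hv]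
    rw [map_sum, Finset.sum_apply]
    refine Finset.sum_congr rfl fun j _ => ?_
    rw [map_smul]
    simp
  unfold pr
  simp only [hA, trp_apply, Finset.sum_mul, Finset.mul_sum]
  rw [Finset.sum_comm]
  refine Finset.sum_congr rfl fun i _ => Finset.sum_congr rfl fun j _ => ?_
  ring

theorem pr_single (ξ : E kk) (j : Fin kk) : pr ξ (Pi.single j 1) = ξ j := by
  unfold pr
  rw [Finset.sum_eq_single j]
  · simp
  · intro i _ hi
    simp [Pi.single_apply, hi]
  · simp

theorem trp_mul (A B : E kk →L[ℂ] E kk) (ξ : E kk) : trp (A * B) ξ = trp B (trp A ξ) := by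
  funext j
  rw [← pr_single (trp (A * B) ξ) j, ← pr_single (trp B (trp A ξ)) j, pr_trp, pr_trp, pr_trp]
  rfl

theorem trp_one (ξ : E kk) : trp 1 ξ = ξ := by
  funext j
  rw [← pr_single (trp 1 ξ) j, pr_trp]
  exact pr_single ξ j

theorem trp_norm (A : E kk →L[ℂ] E kk) (ξ : E kk) : ‖trp A ξ‖ ≤ kk * ‖A‖ * ‖ξ‖ := by
  refine (pi_norm_le_iff_of_nonneg (by positivity)).2 fun j => ?_
  rw [trp_apply]
  have h : ∀ i, ‖ξ i * A (Pi.single j 1) i‖ ≤ ‖A‖ * ‖ξ‖ := by
    intro i
    rw [norm_mul]
    have h1 : ‖ξ i‖ ≤ ‖ξ‖ := norm_le_pi_norm ξ i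
    have h2 : ‖A (Pi.single j 1) i‖ ≤ ‖A‖ := by
      refine (norm_le_pi_norm _ i).trans ((A.le_opNorm _).trans ?_)
      rw [Pi.norm_single, norm_one, mul_one]
    calc ‖ξ i‖ * ‖A (Pi.single j 1) i‖ ≤ ‖ξ‖ * ‖A‖ :=
          mul_le_mul h1 h2 (norm_nonneg _) (norm_nonneg _)
      _ = _ := mul_comm _ _
  refine (norm_sum_le _ _).trans ((Finset.sum_le_sum fun i _ => h i).trans ?_)
  rw [Finset.sum_const, Finset.card_univ, Fintype.card_fin, nsmul_eq_mul, mul_assoc]

theorem pr_continuous (v : E kk) : Continuous fun ξ : E kk => pr ξ v := by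
  unfold pr
  fun_prop

section

variable {N : Type} [Group N] (T : N → E kk →L[ℂ] E kk)

/-- the invariant compact set -/
def KS : Set (E kk) := {ξ | ∀ g, ‖trp (T g) ξ‖ ≤ 1}

/-- the invariant form -/
noncomputable def HI (v w : E kk) : ℂ := ∫ ξ in KS T, pr ξ v * conj (pr ξ w)

variable {T}

theorem KS_closed : IsClosed (KS T) := by
  have : KS T = ⋂ g, {ξ | ‖trp (T g) ξ‖ ≤ 1} := by
    ext ξ; simp [KS]
  rw [this]
  refine isClosed_iInter fun g => ?_
  exact isClosed_le (LinearMap.continuous_of_finiteDimensional (trp (T g))).norm continuous_const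

variable (h1 : T 1 = 1)
include h1

theorem KS_compact : IsCompact (KS T) := by
  refine (isCompact_closedBall (0 : E kk) 1).of_isClosed_subset KS_closed fun ξ hξ => ?_
  have := hξ 1
  rw [h1, trp_one] at this
  simpa using this

theorem KS_meas : MeasurableSet (KS T) := (KS_compact h1).measurableSet

omit h1 in
theorem KS_ball {C : ℝ} (hC : ∀ g, ‖T g‖ ≤ C) : ∃ ρ : ℝ, 0 < ρ ∧ ball (0 : E kk) ρ ⊆ KS T := by
  refine ⟨1 / (kk * |C| + 1), by positivity, fun ξ hξ g => ?_⟩
  have h2 : ‖ξ‖ < 1 / (kk * |C| + 1) := by simpa using hξ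
  have h3 : ‖T g‖ ≤ |C| := (hC g).trans (le_abs_self C)
  have h4 : (0 : ℝ) < kk * |C| + 1 := by positivity
  calc ‖trp (T g) ξ‖ ≤ kk * ‖T g‖ * ‖ξ‖ := trp_norm _ _
    _ ≤ (kk * |C| + 1) * (1 / (kk * |C| + 1)) := by
        refine mul_le_mul ?_ h2.le (norm_nonneg _) h4.le
        have : (kk : ℝ) * ‖T g‖ ≤ kk * |C| := by gcongr
        linarith
    _ = 1 := by field_simp

theorem HI_integrable (v w : E kk) : IntegrableOn (fun ξ => pr ξ v * conj (pr ξ w)) (KS T) := by
  refine ContinuousOn.integrableOn_compact (KS_compact h1) ?_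
  exact ((pr_continuous v).mul (Complex.continuous_conj.comp (pr_continuous w))).continuousOn

theorem HI_herm {C : ℝ} (hC : ∀ g, ‖T g‖ ≤ C) : IsHerm (HI T) where
  add_left u v w := by
    unfold HI
    rw [← integral_add (HI_integrable h1 u w) (HI_integrable h1 v w)]
    refine integral_congr_ae (Eventually.of_forall fun ξ => ?_)
    simp only [pr, Pi.add_apply, mul_add, Finset.sum_add_distrib]
    ring
  smul_left a v w := by
    unfold HI
    rw [← integral_const_mul]
    refine integral_congr_ae (Eventually.of_forall fun ξ => ?_)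
    have : pr ξ (a • v) = a * pr ξ v := by
      unfold pr
      rw [Finset.mul_sum]
      refine Finset.sum_congr rfl fun j _ => ?_
      simp only [Pi.smul_apply, smul_eq_mul]
      ring
    simp only [this]
    ring
  herm v w := by
    unfold HI
    rw [← integral_conj]
    refine integral_congr_ae (Eventually.of_forall fun ξ => ?_)
    simp only [map_mul, Complex.conj_conj]
    ring
  pos v hv := by
    have hre : (HI T v v).re = ∫ ξ in KS T, ‖pr ξ v‖ ^ 2 := by
      have h2 : HI T v v = ((∫ ξ in KS T, ‖pr ξ v‖ ^ 2 : ℝ) : ℂ) := by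
        rw [HI, ← integral_complex_ofReal]
        refine integral_congr_ae (Eventually.of_forall fun ξ => ?_)
        simp only [Complex.mul_conj', Complex.ofReal_pow]
      rw [h2, Complex.ofReal_re]
    rw [hre]
    have hi : IntegrableOn (fun ξ : E kk => ‖pr ξ v‖ ^ 2) (KS T) :=
      ContinuousOn.integrableOn_compact (KS_compact h1) ((pr_continuous v).norm.pow 2).continuousOn
    rw [setIntegral_pos_iff_support_of_nonneg_ae (Eventually.of_forall fun ξ => by positivity) hi]
    obtain ⟨ρ, hρ, hb⟩ := KS_ball hC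
    have ho : IsOpen ({ξ : E kk | pr ξ v ≠ 0} ∩ ball 0 ρ) :=
      (isOpen_ne_fun (pr_continuous v) continuous_const).inter isOpen_ball
    have hne : ({ξ : E kk | pr ξ v ≠ 0} ∩ ball 0 ρ).Nonempty := by
      obtain ⟨j, hj⟩ : ∃ j, v j ≠ 0 := by
        by_contra hcon
        push Not at hcon
        exact hv (funext hcon)
      refine ⟨(Pi.single j ((ρ / 2 : ℝ) : ℂ) : E kk), ?_, ?_⟩
      · have : pr (Pi.single j ((ρ / 2 : ℝ) : ℂ) : E kk) v = ((ρ / 2 : ℝ) : ℂ) * v j := by
          unfold pr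
          rw [Finset.sum_eq_single j]
          · simp
          · intro i _ hi
            simp [Pi.single_apply, hi]
          · simp
        rw [mem_setOf_eq, this]
        refine mul_ne_zero ?_ hj
        exact_mod_cast (by positivity : ρ / 2 ≠ 0)
      · rw [mem_ball_zero_iff, Pi.norm_single, Complex.norm_real, Real.norm_eq_abs, abs_of_pos (by positivity)]
        linarith
    refine (ho.measure_pos volume hne).trans_le (measure_mono ?_)
    rintro ξ ⟨hx, hx2⟩
    refine ⟨?_, hb hx2⟩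
    rw [Function.mem_support]
    exact pow_ne_zero 2 (norm_ne_zero_iff.2 hx)

variable (hmul : ∀ g h, T (g * h) = T g * T h)
include hmul

omit h1 in
theorem KS_inv (g : N) {ξ : E kk} (hξ : ξ ∈ KS T) : trp (T g) ξ ∈ KS T := by
  intro h
  rw [← trp_mul, ← hmul]
  exact hξ _

theorem trp_inv (g : N) (ξ : E kk) : trp (T g) (trp (T g⁻¹) ξ) = ξ := by
  rw [← trp_mul, ← hmul, inv_mul_cancel, h1, trp_one]

theorem trp_inv' (g : N) (ξ : E kk) : trp (T g⁻¹) (trp (T g) ξ) = ξ := by
  rw [← trp_mul, ← hmul, mul_inv_cancel, h1, trp_one]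

/-- the transposed operator as an equivalence -/
noncomputable def trE (g : N) : E kk ≃ₗ[ℝ] E kk :=
  LinearEquiv.ofLinear (trp (T g)) (trp (T g⁻¹))
    (LinearMap.ext fun ξ => trp_inv h1 hmul g ξ) (LinearMap.ext fun ξ => trp_inv' h1 hmul g ξ)

theorem trp_det_ne (g : N) : LinearMap.det (trp (T g)) ≠ 0 := by
  have := (trE h1 hmul g).isUnit_det'
  exact this.ne_zero

theorem KS_preim (g : N) : (trp (T g)) ⁻¹' (KS T) = KS T := by
  ext ξ
  constructor
  · intro h
    have := KS_inv hmul g⁻¹ (ξ := trp (T g) ξ) h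
    rwa [trp_inv' h1 hmul] at this
  · exact fun h => KS_inv hmul g h

theorem trp_mp {C : ℝ} (hC : ∀ g, ‖T g‖ ≤ C) (g : N) :
    MeasurePreserving (trp (T g)) (volume : Measure (E kk)) volume := by
  have hd := trp_det_ne h1 hmul g
  refine ⟨(LinearMap.continuous_of_finiteDimensional (trp (T g))).measurable, ?_⟩
  rw [Measure.map_linearMap_addHaar_eq_smul_addHaar volume hd]
  have h2 := Measure.addHaar_preimage_linearMap (volume : Measure (E kk)) hd (KS T)
  rw [KS_preim h1 hmul] at h2
  have hpos : volume (KS T) ≠ 0 := by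
    obtain ⟨ρ, hρ, hb⟩ := KS_ball hC
    have := measure_ball_pos (volume : Measure (E kk)) 0 hρ
    exact (this.trans_le (measure_mono hb)).ne'
  have hfin : volume (KS T) ≠ ⊤ := (KS_compact h1).measure_lt_top.ne
  have h3 : ENNReal.ofReal |(LinearMap.det (trp (T g)))⁻¹| = 1 := by
    have h4 : 1 * volume (KS T) = ENNReal.ofReal |(LinearMap.det (trp (T g)))⁻¹| * volume (KS T) := by
      rw [one_mul]; exact h2
    exact ((ENNReal.mul_left_inj hpos hfin).1 h4).symm
  rw [h3, one_smul]

theorem HI_inv {C : ℝ} (hC : ∀ g, ‖T g‖ ≤ C) (g : N) (v w : E kk) :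
    HI T (T g v) (T g w) = HI T v w := by
  have hmp := trp_mp h1 hmul hC g
  have hemb : MeasurableEmbedding (trp (T g)) :=
    (trE h1 hmul g).toContinuousLinearEquiv.toHomeomorph.measurableEmbedding
  have := hmp.setIntegral_preimage_emb hemb (fun ξ => pr ξ v * conj (pr ξ w)) (KS T)
  rw [KS_preim h1 hmul] at this
  unfold HI
  rw [← this]
  refine integral_congr_ae (Eventually.of_forall fun ξ => ?_)
  simp only [pr_trp]

end

/-- **A bounded representation preserves a positive definite Hermitian form.** -/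
theorem exists_inv_herm {N : Type} [Group N] (T : N → E kk →L[ℂ] E kk) (h1 : T 1 = 1)
    (hmul : ∀ g h, T (g * h) = T g * T h) {C : ℝ} (hC : ∀ g, ‖T g‖ ≤ C) :
    ∃ H : E kk → E kk → ℂ, IsHerm H ∧ ∀ g v w, H (T g v) (T g w) = H v w :=
  ⟨HI T, HI_herm h1 hC, HI_inv h1 hmul hC⟩

end Pool.Agent.H.MP_e23cd6_ag.CB
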