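import Pool.Agent.H.MP_e23cd6_ag.CB.Defs
import Pool.Agent.H.MP_e23cd6_ag.CB.Inv

/-!
CB/M3b: a group of linear maps preserving the blocks and quasiconformal on them: an invariant Hermitian form for the
normalised maps, with orthogonal blocks.
-/

open Set Filter Topology Metric
open scoped ContDiff ComplexConjugate

namespace Pool.Agent.H.MP_e23cd6_ag.CB

open Pool.Agent.H.MP_e23cd6_ag.AB Pool.Agent.H.MP_e23cd6_ag.AK

variable {kk r : ℕ}

theorem sc_add (blk : Fin kk → Fin r) (x y : Fin r → ℂ) : sc blk (x + y) = sc blk x + sc blk y := by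
  ext1 v; funext j
  show sc blk (x + y) v j = sc blk x v j + sc blk y v j
  simp [add_mul]

theorem sc_smul (blk : Fin kk → Fin r) (a : ℂ) (x : Fin r → ℂ) : sc blk (a • x) = a • sc blk x := by
  ext1 v; funext j
  show sc blk (a • x) v j = a * sc blk x v j
  simp [mul_assoc]

theorem sc_norm (blk : Fin kk → Fin r) {x : Fin r → ℂ} {c : ℝ} (hc : 0 ≤ c) (hx : ∀ i, ‖x i‖ ≤ c) (v : E kk) :
    ‖sc blk x v‖ ≤ c * ‖v‖ := by
  refine (pi_norm_le_iff_of_nonneg (by positivity)).2 fun j => ?_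
  rw [sc_apply, norm_mul]
  exact mul_le_mul (hx _) (norm_le_pi_norm v j) (norm_nonneg _) hc

/-- the unitary group of block scalars acts by isometries: the blocks are orthogonal -/
theorem orth_of_unit (blk : Fin kk → Fin r) {H : E kk → E kk → ℂ} (hH : IsHerm H)
    (hu : ∀ u : Fin r → ℂ, (∀ i, ‖u i‖ = 1) → ∀ v w, H (sc blk u v) (sc blk u w) = H v w)
    (x : Fin r → ℂ) (v w : E kk) : H (sc blk x v) w = H v (sc blk (fun i => conj (x i)) w) := by
  classical
  have hP : ∀ i : Fin r, ∀ v w, H (sc blk (Pi.single i 1) v) w = H v (sc blk (Pi.single i 1) w) := by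
    intro i v w
    set u : Fin r → ℂ := fun j => if j = i then -1 else 1 with hu0
    have hun : ∀ j, ‖u j‖ = 1 := by
      intro j; rw [hu0]; by_cases h : j = i <;> simp [h]
    have hsq : ∀ w, sc blk u (sc blk u w) = w := by
      intro w; funext j
      rw [sc_apply, sc_apply, hu0]
      by_cases h : blk j = i <;> simp [h]
    have h1 : H (sc blk u v) w = H v (sc blk u w) := by
      have := hu u hun v (sc blk u w)
      rwa [hsq] at this
    have hs : ∀ v, sc blk (Pi.single i 1) v = (1 / 2 : ℂ) • (v - sc blk u v) := by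
      intro v; funext j
      show _ = (1 / 2 : ℂ) * (v j - sc blk u v j)
      rw [sc_apply, sc_apply, hu0]
      by_cases h : blk j = i
      · rw [h]; simp; ring
      · simp [h]
    have hc : conj (1 / 2 : ℂ) = 1 / 2 := by
      rw [map_div₀, map_one, map_ofNat]
    rw [hs, hs, hH.smul_left, hH.smul_right, hH.sub_left, hH.sub_right, h1, hc]
  have hx : ∀ (x : Fin r → ℂ) (v : E kk), sc blk x v = ∑ i, x i • sc blk (Pi.single i 1) v := by
    intro x v; funext j
    rw [sc_apply, Finset.sum_apply, Finset.sum_eq_single (blk j)]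
    · show _ = x (blk j) * sc blk (Pi.single (blk j) 1) v j
      rw [sc_apply]; simp
    · intro i _ hi
      show x i * sc blk (Pi.single i 1) v j = 0
      rw [sc_apply, Pi.single_apply, if_neg (Ne.symm hi)]; simp
    · simp
  rw [hx x v, hx _ w, hH.sum_left, hH.sum_right]
  refine Finset.sum_congr rfl fun i _ => ?_
  rw [hH.smul_left, hH.smul_right, hP, Complex.conj_conj]

/-- invariant form for the normalised maps, abstract version -/
theorem exists_herm_of {N : Type} [Group N] (L : N → (E kk →L[ℂ] E kk)) (L1 : L 1 = 1)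
    (Lm : ∀ γ δ, L (γ * δ) = L γ * L δ) (blk : Fin kk → Fin r)
    (hL : ∀ γ x, L γ * sc blk x = sc blk x * L γ) (ν : N → Fin r → ℝ) (hpos : ∀ γ i, 0 < ν γ i)
    (hmul : ∀ γ δ i, ν (γ * δ) i = ν γ i * ν δ i) {C : ℝ}
    (hb : ∀ γ i v, ‖sc blk (Pi.single i 1) (L γ v)‖ ≤ C * ν γ i * ‖v‖) :
    ∃ H : E kk → E kk → ℂ, IsHerm H ∧
      (∀ x : Fin r → ℂ, ∀ v w, H (sc blk x v) w = H v (sc blk (fun i => conj (x i)) w)) ∧
      ∀ γ v w, H (sc blk (fun i => (((ν γ i)⁻¹ : ℝ) : ℂ)) (L γ v))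
        (sc blk (fun i => (((ν γ i)⁻¹ : ℝ) : ℂ)) (L γ w)) = H v w := by
  classical
  have hν1 : ∀ i, ν 1 i = 1 := by
    intro i
    have h := hmul 1 1 i
    rw [mul_one] at h
    have h0 := (hpos 1 i).ne'
    exact (mul_right_cancel₀ h0 (by rw [one_mul]; exact h)).symm
  set x : N → Fin r → ℂ := fun γ i => (((ν γ i)⁻¹ : ℝ) : ℂ) with hxd
  let T : N × (Fin r → Circle) → (E kk →L[ℂ] E kk) := fun g =>
    sc blk (fun i => (g.2 i : ℂ)) * (sc blk (x g.1) * L g.1)
  have hT1 : T 1 = 1 := by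
    have e1 : (fun i => (((1 : N × (Fin r → Circle)).2 i : Circle) : ℂ)) = (1 : Fin r → ℂ) := by
      funext i; simp
    have e2 : x (1 : N × (Fin r → Circle)).1 = (1 : Fin r → ℂ) := by
      funext i; simp [hxd, hν1]
    show sc blk _ * (sc blk _ * L (1 : N × (Fin r → Circle)).1) = 1
    rw [e1, e2, sc_one, Prod.fst_one, L1]
    simp
  have hTm : ∀ g h, T (g * h) = T g * T h := by
    intro g h
    have e1 : (fun i => (((g * h).2 i : Circle) : ℂ)) =
        (fun i => (g.2 i : ℂ)) * (fun i => (h.2 i : ℂ)) := by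
      funext i; simp
    have e2 : x (g * h).1 = x g.1 * x h.1 := by
      funext i; simp [hxd, hmul, mul_comm]
    show sc blk _ * (sc blk _ * L (g * h).1) = (sc blk _ * (sc blk _ * L g.1)) * (sc blk _ * (sc blk _ * L h.1))
    rw [e1, e2, Prod.fst_mul, Lm, sc_mul, sc_mul]
    have c : ∀ a b : Fin r → ℂ, sc blk a * sc blk b = sc blk b * sc blk a := by
      intro a b; rw [← sc_mul, ← sc_mul, mul_comm]
    calc sc blk (fun i => (g.2 i : ℂ)) * sc blk (fun i => (h.2 i : ℂ)) *
          (sc blk (x g.1) * sc blk (x h.1) * (L g.1 * L h.1))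
        = sc blk (fun i => (g.2 i : ℂ)) * (sc blk (fun i => (h.2 i : ℂ)) * sc blk (x g.1)) *
          (sc blk (x h.1) * L g.1) * L h.1 := by noncomm_ring
      _ = sc blk (fun i => (g.2 i : ℂ)) * (sc blk (x g.1) * sc blk (fun i => (h.2 i : ℂ))) *
          (L g.1 * sc blk (x h.1)) * L h.1 := by rw [c (fun i => (h.2 i : ℂ)), hL]
      _ = sc blk (fun i => (g.2 i : ℂ)) * sc blk (x g.1) * (sc blk (fun i => (h.2 i : ℂ)) * L g.1) *
          (sc blk (x h.1) * L h.1) := by noncomm_ring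
      _ = sc blk (fun i => (g.2 i : ℂ)) * sc blk (x g.1) * (L g.1 * sc blk (fun i => (h.2 i : ℂ))) *
          (sc blk (x h.1) * L h.1) := by rw [hL]
      _ = _ := by noncomm_ring
  have hTC : ∀ g, ‖T g‖ ≤ |C| := by
    intro g
    refine ContinuousLinearMap.opNorm_le_bound _ (abs_nonneg _) fun v => ?_
    refine (pi_norm_le_iff_of_nonneg (by positivity)).2 fun j => ?_
    have e : T g v j = (g.2 (blk j) : ℂ) * (x g.1 (blk j) * L g.1 v j) := by
      show sc blk (fun i => (g.2 i : ℂ)) (sc blk (x g.1) (L g.1 v)) j = _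
      rw [sc_apply, sc_apply]
    rw [e, norm_mul, norm_mul, Circle.norm_coe, one_mul, hxd]
    have hp := hpos g.1 (blk j)
    have h1 : ‖L g.1 v j‖ ≤ C * ν g.1 (blk j) * ‖v‖ := by
      refine le_trans ?_ (hb g.1 (blk j) v)
      have := norm_le_pi_norm (sc blk (Pi.single (blk j) 1) (L g.1 v)) j
      rwa [sc_apply, Pi.single_eq_same, one_mul] at this
    have h2 : ‖((((ν g.1 (blk j))⁻¹ : ℝ)) : ℂ)‖ = (ν g.1 (blk j))⁻¹ := by
      rw [Complex.norm_real, Real.norm_eq_abs, abs_of_pos (inv_pos.2 hp)]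
    show ‖((((ν g.1 (blk j))⁻¹ : ℝ)) : ℂ)‖ * _ ≤ _
    rw [h2]
    calc (ν g.1 (blk j))⁻¹ * ‖L g.1 v j‖ ≤ (ν g.1 (blk j))⁻¹ * (C * ν g.1 (blk j) * ‖v‖) := by gcongr
      _ = C * ‖v‖ := by field_simp
      _ ≤ |C| * ‖v‖ := by gcongr; exact le_abs_self C
  obtain ⟨H, hH, hinv⟩ := exists_inv_herm T hT1 hTm hTC
  refine ⟨H, hH, orth_of_unit blk hH fun u hu v w => ?_, fun γ v w => ?_⟩
  · let u' : Fin r → Circle := fun i => ⟨u i, by rw [Submonoid.unitSphere]; simpa using hu i⟩
    have := hinv ((1 : N), u') v w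
    have e : ∀ v, T ((1 : N), u') v = sc blk u v := by
      intro v
      have e2 : x (1 : N) = (1 : Fin r → ℂ) := by
        funext i; simp [hxd, hν1]
      show sc blk _ (sc blk (x 1) (L 1 v)) = _
      rw [e2, sc_one, L1]
      rfl
    rwa [e, e] at this
  · have := hinv (γ, 1) v w
    have e : ∀ v, T (γ, 1) v = sc blk (x γ) (L γ v) := by
      intro v
      show sc blk (fun i => (((1 : Fin r → Circle) i : Circle) : ℂ)) (sc blk (x γ) (L γ v)) = _
      have e1 : (fun i => (((1 : Fin r → Circle) i : Circle) : ℂ)) = (1 : Fin r → ℂ) := by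
        funext i; simp
      rw [e1, sc_one]
      rfl
    rwa [e, e] at this

end Pool.Agent.H.MP_e23cd6_ag.CB
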