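import Pool.Agent.H.MP_e23cd6_ag.CB.M3a
import Pool.Agent.H.MP_e23cd6_ag.CB.M3b

/-!
CB/M3: a group of linear maps preserving the blocks and quasiconformal on them: an invariant Hermitian form with
orthogonal blocks for the normalised maps.
-/

open Set Filter Topology Metric
open scoped ContDiff ComplexConjugate

namespace Pool.Agent.H.MP_e23cd6_ag.CB

open Pool.Agent.H.MP_e23cd6_ag.AB Pool.Agent.H.MP_e23cd6_ag.AK

variable {kk r : ℕ}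

/-- the normalising factors are `(nu (L γ) i)⁻¹` -/
theorem exists_herm_nu {N : Type} [Group N] (L : N → (E kk →L[ℂ] E kk)) (L1 : L 1 = 1)
    (Lm : ∀ γ δ, L (γ * δ) = L γ * L δ) (blk : Fin kk → Fin r)
    (hL : ∀ γ x, L γ * sc blk x = sc blk x * L γ) {C : ℝ} (hC : 0 < C)
    (hq : ∀ γ i, ∀ v w : E kk, InB blk i v → InB blk i w → ‖L γ v‖ * ‖w‖ ≤ C * (‖L γ w‖ * ‖v‖)) :
    ∃ H : E kk → E kk → ℂ, IsHerm H ∧
      (∀ x : Fin r → ℂ, ∀ v w, H (sc blk x v) w = H v (sc blk (fun i => conj (x i)) w)) ∧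
      ∀ γ v w, H (sc blk (fun i => (((nu blk (L γ) i)⁻¹ : ℝ) : ℂ)) (L γ v))
        (sc blk (fun i => (((nu blk (L γ) i)⁻¹ : ℝ) : ℂ)) (L γ w)) = H v w := by
  obtain ⟨C', -, hb⟩ := nu_bound (kk := kk) blk hC
  exact exists_herm_of L L1 Lm blk hL (fun γ i => nu blk (L γ) i)
    (fun γ i => nu_pos blk (L γ) (L γ⁻¹) (by rw [← Lm, mul_inv_cancel, L1]) (hL γ) (hL γ⁻¹) i)
    (fun γ δ i => by rw [Lm]; exact nu_mul blk _ _ (hL γ) (hL δ) i)
    (fun γ i v => hb (L γ) (hL γ) (hq γ) i v)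

/-- a group of linear maps preserving the blocks, quasiconformal on them: invariant Hermitian form for the normalised maps -/
theorem exists_herm {N : Type} [Group N] (L : N → (E kk →L[ℂ] E kk)) (L1 : L 1 = 1)
    (Lm : ∀ γ δ, L (γ * δ) = L γ * L δ) (blk : Fin kk → Fin r)
    (hL : ∀ γ x, L γ * sc blk x = sc blk x * L γ) {C : ℝ} (hC : 0 < C)
    (hq : ∀ γ i, ∀ v w : E kk, InB blk i v → InB blk i w → ‖L γ v‖ * ‖w‖ ≤ C * (‖L γ w‖ * ‖v‖)) :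
    ∃ H : E kk → E kk → ℂ, IsHerm H ∧
      (∀ x : Fin r → ℂ, ∀ v w, H (sc blk x v) w = H v (sc blk (fun i => conj (x i)) w)) ∧
      ∀ γ, ∃ x : Fin r → ℝ, (∀ i, 0 < x i) ∧ ∀ v w,
        H (sc blk (fun i => (x i : ℂ)) (L γ v)) (sc blk (fun i => (x i : ℂ)) (L γ w)) = H v w := by
  obtain ⟨H, hH, ho, hi⟩ := exists_herm_nu L L1 Lm blk hL hC hq
  refine ⟨H, hH, ho, fun γ => ⟨fun i => (nu blk (L γ) i)⁻¹, fun i => inv_pos.2 ?_, hi γ⟩⟩
  exact nu_pos blk (L γ) (L γ⁻¹) (by rw [← Lm, mul_inv_cancel, L1]) (hL γ) (hL γ⁻¹) i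

end Pool.Agent.H.MP_e23cd6_ag.CB
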