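import Pool.Agent.H.MP_e23cd6_ag.CB.Z1

/-!
CB/Z2: a group acting on a vector space by affine maps with linear part (scales) x (unitary), properly discontinuously: a subgroup of finite index has commuting unitary parts.

`SAct V N`: `γ` acts by `z ↦ R γ (U γ z) + c γ`; `U` bounded, the `R γ` commute with each other and with all `U δ`.
`near_comm`: if `R g = 1` and `U g`, `U h` are near `1`, then `U (g h g⁻¹ h⁻¹) = 1`: the iterated commutators `g_{j+1} = [g, g_j]` have bounded translation parts and `U g_j → 1`, so `U g_j = 1` for large j by proper discontinuity; descend by `comm_one`.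
`exists_comm`: for `g`, `h` near `1` the commutator `w` has `R w = 1`, so `U w` commutes with `U g` and `comm_one` gives `U w = 1`. The elements near `1` generate a subgroup of finite index (pigeonhole).
-/

open Set Filter Topology Metric

namespace Pool.Agent.H.MP_e23cd6_ag.CB

/-- affine action with linear part (scales) x (unitary) -/
structure SAct (V : Type) [NormedAddCommGroup V] [NormedSpace ℂ V] (N : Type) [Group N] where
  U : N →* (V →L[ℂ] V)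
  R : N →* (V →L[ℂ] V)
  c : N → V
  RR : ∀ γ δ, R γ * R δ = R δ * R γ
  RU : ∀ γ δ, R γ * U δ = U δ * R γ
  c_mul : ∀ γ δ, c (γ * δ) = R γ (U γ (c δ)) + c γ
  C : ℝ
  hC : 1 ≤ C
  bd : ∀ γ, ‖U γ‖ ≤ C
  pd : ∀ ρ : ℝ, {γ | ‖c γ‖ ≤ ρ}.Finite

namespace SAct

variable {V : Type} [NormedAddCommGroup V] [NormedSpace ℂ V] {N : Type} [Group N] (B : SAct V N)

theorem U_inv (γ : N) : B.U γ * B.U γ⁻¹ = 1 := by rw [← map_mul, mul_inv_cancel, map_one]

theorem U_inv' (γ : N) : B.U γ⁻¹ * B.U γ = 1 := by rw [← map_mul, inv_mul_cancel, map_one]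

theorem R_comm (γ δ : N) : B.R (γ * δ * γ⁻¹ * δ⁻¹) = 1 := by
  have h : B.R (γ * δ) = B.R (δ * γ) := by rw [map_mul, map_mul, B.RR]
  calc B.R (γ * δ * γ⁻¹ * δ⁻¹) = B.R (γ * δ) * B.R (δ * γ)⁻¹ := by
        rw [← map_mul]; congr 1; group
    _ = B.R (δ * γ) * B.R (δ * γ)⁻¹ := by rw [h]
    _ = 1 := by rw [← map_mul, mul_inv_cancel, map_one]

theorem U_comm (γ δ : N) :
    B.U (γ * δ * γ⁻¹ * δ⁻¹) = B.U γ * B.U δ * B.U γ⁻¹ * B.U δ⁻¹ := by
  rw [map_mul, map_mul, map_mul]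

theorem U_comm_norm (γ δ : N) {a b : ℝ} (ha : ‖B.U γ - 1‖ ≤ a) (hb : ‖B.U δ - 1‖ ≤ b) :
    ‖B.U (γ * δ * γ⁻¹ * δ⁻¹) - 1‖ ≤ 2 * B.C ^ 2 * a * b := by
  have hC := B.hC
  have ha0 : 0 ≤ a := (norm_nonneg _).trans ha
  have hb0 : 0 ≤ b := (norm_nonneg _).trans hb
  have e : B.U (γ * δ * γ⁻¹ * δ⁻¹) - 1 =
      ((B.U γ - 1) * (B.U δ - 1) - (B.U δ - 1) * (B.U γ - 1)) * (B.U γ⁻¹ * B.U δ⁻¹) := by
    rw [U_comm]
    have h1 : B.U δ * B.U γ * (B.U γ⁻¹ * B.U δ⁻¹) = 1 := by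
      rw [← map_mul, ← map_mul, ← map_mul, show δ * γ * (γ⁻¹ * δ⁻¹) = 1 by group, map_one]
    calc B.U γ * B.U δ * B.U γ⁻¹ * B.U δ⁻¹ - 1
        = B.U γ * B.U δ * (B.U γ⁻¹ * B.U δ⁻¹) - B.U δ * B.U γ * (B.U γ⁻¹ * B.U δ⁻¹) := by
          rw [h1]; noncomm_ring
      _ = _ := by noncomm_ring
  rw [e]
  have h1 : ‖(B.U γ - 1) * (B.U δ - 1)‖ ≤ a * b :=
    (norm_mul_le _ _).trans (mul_le_mul ha hb (norm_nonneg _) ha0)
  have h2 : ‖(B.U δ - 1) * (B.U γ - 1)‖ ≤ b * a :=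
    (norm_mul_le _ _).trans (mul_le_mul hb ha (norm_nonneg _) hb0)
  have h3 : ‖B.U γ⁻¹ * B.U δ⁻¹‖ ≤ B.C * B.C :=
    (norm_mul_le _ _).trans (mul_le_mul (B.bd _) (B.bd _) (norm_nonneg _) (by linarith))
  have h4 := (norm_sub_le ((B.U γ - 1) * (B.U δ - 1)) ((B.U δ - 1) * (B.U γ - 1))).trans
    (add_le_add h1 h2)
  calc _ ≤ (a * b + b * a) * (B.C * B.C) :=
        (norm_mul_le _ _).trans (mul_le_mul h4 h3 (norm_nonneg _) (by positivity))
    _ = 2 * B.C ^ 2 * a * b := by ring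

/-- translation part of a commutator of isometric elements -/
theorem c_comm_norm {g x : N} (hg : B.R g = 1) (hx : B.R x = 1) {a b d : ℝ}
    (ha : ‖B.U g - 1‖ ≤ a) (hb : ‖B.U x - 1‖ ≤ b)
    (hd : ‖B.U (g * x * g⁻¹ * x⁻¹) - 1‖ ≤ d) :
    ‖B.c (g * x * g⁻¹ * x⁻¹)‖ ≤ (a + d) * ‖B.c x‖ + (b + B.C * d) * ‖B.c g‖ := by
  have hC := B.hC
  have hd0 : 0 ≤ d := (norm_nonneg _).trans hd
  set w := g * x * g⁻¹ * x⁻¹ with hw
  have hRw : B.R w = 1 := B.R_comm g x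
  have e1 : w * (x * g) = g * x := by rw [hw]; group
  have h1 := B.c_mul w (x * g)
  rw [e1, B.c_mul g x, B.c_mul x g, hRw, hg, hx] at h1
  simp only [one_apply_eq_self] at h1
  have h2 : B.c w = (B.U g - 1) (B.c x) - (B.U w - 1) (B.c x) - (B.U x - 1) (B.c g)
      - (B.U w - 1) (B.U x (B.c g)) := by
    have h3 : B.c w = B.U g (B.c x) + B.c g - (B.U w (B.U x (B.c g) + B.c x)) := by
      rw [h1]; abel
    rw [h3, map_add]
    simp only [sub_apply, one_apply_eq_self]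
    abel
  rw [h2]
  have n1 : ‖(B.U g - 1) (B.c x)‖ ≤ a * ‖B.c x‖ :=
    ((B.U g - 1).le_opNorm _).trans (mul_le_mul_of_nonneg_right ha (norm_nonneg _))
  have n2 : ‖(B.U w - 1) (B.c x)‖ ≤ d * ‖B.c x‖ :=
    ((B.U w - 1).le_opNorm _).trans (mul_le_mul_of_nonneg_right hd (norm_nonneg _))
  have n3 : ‖(B.U x - 1) (B.c g)‖ ≤ b * ‖B.c g‖ :=
    ((B.U x - 1).le_opNorm _).trans (mul_le_mul_of_nonneg_right hb (norm_nonneg _))
  have n4 : ‖(B.U w - 1) (B.U x (B.c g))‖ ≤ d * (B.C * ‖B.c g‖) := by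
    refine ((B.U w - 1).le_opNorm _).trans (mul_le_mul hd ?_ (norm_nonneg _) hd0)
    exact ((B.U x).le_opNorm _).trans (mul_le_mul_of_nonneg_right (B.bd x) (norm_nonneg _))
  calc _ ≤ ‖(B.U g - 1) (B.c x)‖ + ‖(B.U w - 1) (B.c x)‖ + ‖(B.U x - 1) (B.c g)‖
        + ‖(B.U w - 1) (B.U x (B.c g))‖ :=
        (norm_sub_le _ _).trans (add_le_add ((norm_sub_le _ _).trans
          (add_le_add (norm_sub_le _ _) le_rfl)) le_rfl)
    _ ≤ (a + d) * ‖B.c x‖ + (b + B.C * d) * ‖B.c g‖ := by linarith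

/-- iterated commutators -/
def itc (g h : N) : ℕ → N
  | 0 => h
  | j + 1 => g * itc g h j * g⁻¹ * (itc g h j)⁻¹

/-- the size of the neighbourhood of one -/
noncomputable def dl : ℝ := 1 / (8 * B.C ^ 3)

theorem dl_pos : 0 < B.dl := by
  have := B.hC
  unfold dl
  positivity

theorem C3_dl : B.C ^ 3 * B.dl = 1 / 8 := by
  have := B.hC
  unfold dl
  field_simp

theorem C2_dl : B.C ^ 2 * B.dl ≤ 1 / 8 := by
  have hC := B.hC
  have h1 := B.C3_dl
  have h2 := B.dl_pos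
  have h3 : B.C ^ 2 ≤ B.C ^ 3 := pow_le_pow_right₀ hC (by norm_num)
  nlinarith

theorem C1_dl : B.C * B.dl ≤ 1 / 8 := by
  have hC := B.hC
  have h1 := B.C2_dl
  have h2 := B.dl_pos
  have h3 : B.C ≤ B.C ^ 2 := by nlinarith
  nlinarith

theorem C0_dl : B.dl ≤ 1 / 8 := by
  have hC := B.hC
  have h1 := B.C1_dl
  have h2 := B.dl_pos
  nlinarith

theorem comm_dl : (B.C ^ 2 + 1) * B.C * B.dl < 1 := by
  have h1 := B.C3_dl
  have h2 := B.C1_dl
  have e : (B.C ^ 2 + 1) * B.C * B.dl = B.C ^ 3 * B.dl + B.C * B.dl := by ring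
  rw [e]
  linarith

theorem itc_U {g h : N} (hg : ‖B.U g - 1‖ ≤ B.dl) (hh : ‖B.U h - 1‖ ≤ B.dl) (j : ℕ) :
    ‖B.U (itc g h j) - 1‖ ≤ B.dl * (1 / 4) ^ j := by
  induction j with
  | zero => simpa [itc] using hh
  | succ j ih =>
    refine (B.U_comm_norm g (itc g h j) hg ih).trans ?_
    have h1 := B.C2_dl
    have h2 := B.dl_pos
    have h3 : 0 < B.dl * (1 / 4 : ℝ) ^ j := by positivity
    calc 2 * B.C ^ 2 * B.dl * (B.dl * (1 / 4) ^ j) = 2 * (B.C ^ 2 * B.dl) * (B.dl * (1 / 4) ^ j) := by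
          ring
      _ ≤ 2 * (1 / 8) * (B.dl * (1 / 4) ^ j) := by
          refine mul_le_mul_of_nonneg_right ?_ h3.le
          linarith
      _ = B.dl * (1 / 4) ^ (j + 1) := by rw [pow_succ]; ring

theorem itc_U' {g h : N} (hg : ‖B.U g - 1‖ ≤ B.dl) (hh : ‖B.U h - 1‖ ≤ B.dl) (j : ℕ) :
    ‖B.U (itc g h j) - 1‖ ≤ B.dl := by
  refine (B.itc_U hg hh j).trans ?_
  have h2 := B.dl_pos
  have h3 : (1 / 4 : ℝ) ^ j ≤ 1 := pow_le_one₀ (by norm_num) (by norm_num)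
  nlinarith

theorem itc_c {g h : N} (hRg : B.R g = 1) (hg : ‖B.U g - 1‖ ≤ B.dl) (hh : ‖B.U h - 1‖ ≤ B.dl) :
    ∃ M : ℝ, ∀ j : ℕ, ‖B.c (itc g h (j + 1))‖ ≤ M := by
  refine ⟨max ‖B.c (itc g h 1)‖ (‖B.c g‖), fun j => ?_⟩
  induction j with
  | zero => exact le_max_left _ _
  | succ j ih =>
    set M := max ‖B.c (itc g h 1)‖ (‖B.c g‖) with hM
    have hx : B.R (itc g h (j + 1)) = 1 := B.R_comm _ _
    have h1 := B.c_comm_norm hRg hx hg (B.itc_U' hg hh (j + 1)) (B.itc_U' hg hh (j + 2))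
    have hcg : ‖B.c g‖ ≤ M := le_max_right _ _
    have hM0 : 0 ≤ M := (norm_nonneg _).trans hcg
    have h2 := B.C0_dl
    have h3 := B.C1_dl
    have h4 := B.dl_pos
    refine h1.trans ?_
    have h5 : (B.dl + B.dl) * ‖B.c (itc g h (j + 1))‖ ≤ (1 / 8 + 1 / 8) * M :=
      mul_le_mul (by linarith) ih (norm_nonneg _) (by norm_num)
    have h6 : (B.dl + B.C * B.dl) * ‖B.c g‖ ≤ (1 / 8 + 1 / 8) * M :=
      mul_le_mul (by linarith) hcg (norm_nonneg _) (by norm_num)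
    linarith

theorem itc_ev {g h : N} (hRg : B.R g = 1) (hg : ‖B.U g - 1‖ ≤ B.dl)
    (hh : ‖B.U h - 1‖ ≤ B.dl) : ∃ j : ℕ, B.U (itc g h (j + 1)) = 1 := by
  classical
  obtain ⟨M, hM⟩ := B.itc_c hRg hg hh
  have hF := B.pd M
  by_contra hcon
  push_neg at hcon
  obtain ⟨μ, hμ, hmin⟩ : ∃ μ : ℝ, 0 < μ ∧ ∀ γ ∈ {γ | ‖B.c γ‖ ≤ M}, B.U γ ≠ 1 →
      μ ≤ ‖B.U γ - 1‖ := by
    set F := {γ | ‖B.c γ‖ ≤ M ∧ B.U γ ≠ 1} with hFd
    have hF2 : F.Finite := hF.subset fun γ hγ => hγ.1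
    by_cases hne : F.Nonempty
    · obtain ⟨f, hf, hfm⟩ := Set.exists_min_image F (fun γ => ‖B.U γ - 1‖) hF2 hne
      exact ⟨‖B.U f - 1‖, norm_pos_iff.2 (sub_ne_zero.2 hf.2), fun γ hγ hγ1 => hfm γ ⟨hγ, hγ1⟩⟩
    · exact ⟨1, one_pos, fun γ hγ hγ1 => absurd ⟨γ, hγ, hγ1⟩ hne⟩
  have hlim : Tendsto (fun j : ℕ => B.dl * (1 / 4 : ℝ) ^ (j + 1)) atTop (𝓝 0) := by
    have h1 := (tendsto_pow_atTop_nhds_zero_of_lt_one (r := (1 / 4 : ℝ)) (by norm_num)
      (by norm_num)).comp (tendsto_add_atTop_nat 1)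
    simpa using h1.const_mul B.dl
  obtain ⟨j, hj⟩ := (hlim.eventually_lt_const hμ).exists
  have h1 := hmin _ (hM j) (hcon j)
  have h2 := B.itc_U hg hh (j + 1)
  linarith

theorem pow_bd (γ : N) (m : ℕ) : ‖B.U γ ^ m‖ ≤ B.C := by
  rw [← map_pow]
  exact B.bd _

/-- a commutator which commutes with its first entry is one -/
theorem comm_one' {g x : N} (hx : ‖B.U x - 1‖ ≤ B.dl)
    (h : B.U (g * x * g⁻¹ * x⁻¹) * B.U g = B.U g * B.U (g * x * g⁻¹ * x⁻¹)) :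
    B.U (g * x * g⁻¹ * x⁻¹) = 1 := by
  rw [B.U_comm] at h ⊢
  exact comm_one (B.U_inv' g) (B.U_inv x) (B.U_inv' x) (B.pow_bd g) (B.pow_bd g⁻¹) (B.bd _)
    (B.U_inv g) h hx B.comm_dl

theorem eq_of_comm {g x : N} (h : B.U (g * x * g⁻¹ * x⁻¹) = 1) :
    B.U g * B.U x = B.U x * B.U g := by
  have e : g * x = g * x * g⁻¹ * x⁻¹ * (x * g) := by group
  rw [← map_mul, e, map_mul, h, one_mul, map_mul]

theorem near_comm {g h : N} (hRg : B.R g = 1) (hg : ‖B.U g - 1‖ ≤ B.dl)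
    (hh : ‖B.U h - 1‖ ≤ B.dl) : B.U (itc g h 1) = 1 := by
  obtain ⟨j, hj⟩ := B.itc_ev hRg hg hh
  induction j with
  | zero => exact hj
  | succ j ih =>
    apply ih
    have h1 : B.U g * B.U (itc g h (j + 1)) = B.U (itc g h (j + 1)) * B.U g := B.eq_of_comm hj
    exact B.comm_one' (g := g) (x := itc g h j) (B.itc_U' hg hh j) h1.symm

theorem near_comm' {g h : N} (hg : ‖B.U g - 1‖ ≤ B.dl) (hh : ‖B.U h - 1‖ ≤ B.dl) :
    B.U g * B.U h = B.U h * B.U g := by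
  set w := g * h * g⁻¹ * h⁻¹ with hw
  have hRw : B.R w = 1 := B.R_comm g h
  have hUw : ‖B.U w - 1‖ ≤ B.dl := by
    have h1 := B.itc_U' hg hh 1
    exact h1
  have h2 : B.U (itc w g 1) = 1 := B.near_comm hRw hUw hg
  have h3 : B.U w * B.U g = B.U g * B.U w := B.eq_of_comm h2
  exact B.eq_of_comm (B.comm_one' hh h3)

theorem closure_comm {S : Set N} (hS : ∀ x ∈ S, ∀ y ∈ S, B.U x * B.U y = B.U y * B.U x) :
    ∀ x ∈ Subgroup.closure S, ∀ y ∈ Subgroup.closure S, B.U x * B.U y = B.U y * B.U x := by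
  have hinv : ∀ x y : N, B.U x * B.U y = B.U y * B.U x → B.U x⁻¹ * B.U y = B.U y * B.U x⁻¹ := by
    intro x y h
    calc B.U x⁻¹ * B.U y = B.U x⁻¹ * (B.U y * B.U x) * B.U x⁻¹ := by
          rw [mul_assoc, mul_assoc, B.U_inv, mul_one]
      _ = B.U x⁻¹ * (B.U x * B.U y) * B.U x⁻¹ := by rw [h]
      _ = (B.U x⁻¹ * B.U x) * (B.U y * B.U x⁻¹) := by noncomm_ring
      _ = B.U y * B.U x⁻¹ := by rw [B.U_inv', one_mul]
  have key : ∀ T : Set N, ∀ y : N, (∀ x ∈ T, B.U x * B.U y = B.U y * B.U x) →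
      ∀ x ∈ Subgroup.closure T, B.U x * B.U y = B.U y * B.U x := by
    intro T y hT x hx
    induction hx using Subgroup.closure_induction with
    | mem x hx => exact hT x hx
    | one => rw [map_one, one_mul, mul_one]
    | mul x z _ _ hx hz => rw [map_mul, mul_assoc, hz, ← mul_assoc, hx, mul_assoc]
    | inv x _ hx => exact hinv x y hx
  intro x hx y hy
  refine key S y (fun x' hx' => ?_) x hx
  exact (key S x' (fun y' hy' => hS y' hy' x' hx') y hy).symm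

/-- a subgroup of finite index has commuting unitary parts -/
theorem exists_comm [FiniteDimensional ℂ V] : ∃ N' : Subgroup N, N'.FiniteIndex ∧
    ∀ x ∈ N', ∀ y ∈ N', B.U x * B.U y = B.U y * B.U x := by
  classical
  set S := {γ : N | ‖B.U γ - 1‖ ≤ B.dl} with hS
  refine ⟨Subgroup.closure S, ?_, B.closure_comm fun x hx y hy => B.near_comm' hx hy⟩
  have hC := B.hC
  have hdl := B.dl_pos
  haveI : ProperSpace (V →L[ℂ] V) := FiniteDimensional.proper ℂ _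
  have hcomp : IsCompact (closedBall (0 : V →L[ℂ] V) B.C) := isCompact_closedBall _ _
  have hr : 0 < B.dl / (2 * B.C) := by positivity
  obtain ⟨t, -, htf, htc⟩ := hcomp.finite_cover_balls hr
  have hx : ∀ γ : N, ∃ x : t, ‖B.U γ - x.1‖ < B.dl / (2 * B.C) := by
    intro γ
    have h1 : B.U γ ∈ closedBall (0 : V →L[ℂ] V) B.C := mem_closedBall_zero_iff.2 (B.bd γ)
    obtain ⟨x, hx, hx2⟩ := mem_iUnion₂.1 (htc h1)
    exact ⟨⟨x, hx⟩, by rwa [mem_ball, dist_eq_norm] at hx2⟩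
  choose f hf using hx
  haveI : Finite t := htf.to_subtype
  have hinj : Function.Injective fun q : N ⧸ Subgroup.closure S => f q.out := by
    intro q q' hqq
    have h1 : ‖B.U q.out - B.U q'.out‖ < B.dl / B.C := by
      have h2 := hf q.out
      have h3 := hf q'.out
      have hqq' : f q.out = f q'.out := hqq
      rw [← hqq'] at h3
      have e : B.U q.out - B.U q'.out = (B.U q.out - (f q.out).1) - (B.U q'.out - (f q.out).1) := by
        abel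
      rw [e]
      refine (norm_sub_le _ _).trans_lt ?_
      have e2 : B.dl / B.C = B.dl / (2 * B.C) + B.dl / (2 * B.C) := by
        field_simp
        ring
      rw [e2]
      exact add_lt_add h2 h3
    have h4 : q.out⁻¹ * q'.out ∈ Subgroup.closure S := by
      refine Subgroup.subset_closure ?_
      show ‖B.U (q.out⁻¹ * q'.out) - 1‖ ≤ B.dl
      have e : B.U (q.out⁻¹ * q'.out) - 1 = B.U q.out⁻¹ * (B.U q'.out - B.U q.out) := by
        rw [map_mul, mul_sub, B.U_inv']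
      rw [e]
      refine (norm_mul_le _ _).trans ?_
      rw [norm_sub_rev] at h1
      calc ‖B.U q.out⁻¹‖ * ‖B.U q'.out - B.U q.out‖ ≤ B.C * (B.dl / B.C) :=
            mul_le_mul (B.bd _) h1.le (norm_nonneg _) (by linarith)
        _ = B.dl := by field_simp
    have h5 := QuotientGroup.eq.2 h4
    rwa [QuotientGroup.out_eq', QuotientGroup.out_eq'] at h5
  haveI : Finite (N ⧸ Subgroup.closure S) := Finite.of_injective _ hinj
  exact Subgroup.finiteIndex_of_finite_quotient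

end SAct

end Pool.Agent.H.MP_e23cd6_ag.CB
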