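import Mathlib
import Pool.Agent.H.MP_e23cd6_ag.AB.Defs

/-!
CB/Z3: groups of affine maps of ℂ^k with commuting linear parts, acting properly discontinuously and cocompactly: the translations and their span
(the file AK/Mb1, Mb1b, Mb2 with a commuting family of linear maps `L γ` instead of diagonal matrices; `ss`: the kernel and the range of `L γ - 1` meet in `0`).

`exists_idem`: the projection onto the range of `T = L γ - 1` along its kernel.
`sub_one_mem`: the range of `L γ - 1` lies in the real span `W` of the translation vectors.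
-/

open Set Filter Topology Metric

namespace Pool.Agent.H.MP_e23cd6_ag.CB

open Pool.Agent.H.MP_e23cd6_ag.AB

/-- a group of affine maps with commuting linear parts, properly discontinuous and cocompact -/
structure CAct (kk : ℕ) (N : Type) [Group N] where
  L : N → (E kk →L[ℂ] E kk)
  c : N → E kk
  L_one : L 1 = 1
  L_mul : ∀ γ δ, L (γ * δ) = L γ * L δ
  c_mul : ∀ γ δ, c (γ * δ) = L γ (c δ) + c γ
  comm : ∀ γ δ, L γ * L δ = L δ * L γ
  ss : ∀ γ v u, L γ v = v → v = L γ u - u → v = 0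
  pd : ∀ R : ℝ, {γ | ∃ z : E kk, ‖z‖ ≤ R ∧ ‖L γ z + c γ‖ ≤ R}.Finite
  cc : ∃ R : ℝ, ∀ z : E kk, ∃ γ, ‖L γ z + c γ‖ ≤ R

namespace CAct

variable {kk : ℕ} {N : Type} [Group N] (B : CAct kk N)

theorem c_one : B.c 1 = 0 := by
  have h := B.c_mul 1 1
  rw [mul_one, B.L_one] at h
  exact left_eq_add.1 h

theorem L_inv_left (γ : N) (v : E kk) : B.L γ⁻¹ (B.L γ v) = v := by
  have h : B.L γ⁻¹ * B.L γ = 1 := by rw [← B.L_mul, inv_mul_cancel, B.L_one]
  exact congrArg (fun T : E kk →L[ℂ] E kk => T v) h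

theorem L_inv_right (γ : N) (v : E kk) : B.L γ (B.L γ⁻¹ v) = v := by
  have h : B.L γ * B.L γ⁻¹ = 1 := by rw [← B.L_mul, mul_inv_cancel, B.L_one]
  exact congrArg (fun T : E kk →L[ℂ] E kk => T v) h

theorem L_comm (γ δ : N) (v : E kk) : B.L γ (B.L δ v) = B.L δ (B.L γ v) :=
  congrArg (fun T : E kk →L[ℂ] E kk => T v) (B.comm γ δ)

theorem L_inv_of_one {t : N} (ht : B.L t = 1) : B.L t⁻¹ = 1 := by
  have h := B.L_mul t t⁻¹
  rw [mul_inv_cancel, B.L_one, ht, one_mul] at h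
  exact h.symm

/-- translation vectors -/
def lam : AddSubgroup (E kk) where
  carrier := {z | ∃ t, B.L t = 1 ∧ B.c t = z}
  zero_mem' := ⟨1, B.L_one, B.c_one⟩
  add_mem' := by
    rintro _ _ ⟨s, hs, rfl⟩ ⟨t, ht, rfl⟩
    refine ⟨s * t, by rw [B.L_mul, hs, ht, one_mul], ?_⟩
    rw [B.c_mul, hs, add_comm]
    rfl
  neg_mem' := by
    rintro _ ⟨t, ht, rfl⟩
    refine ⟨t⁻¹, B.L_inv_of_one ht, ?_⟩
    have h := B.c_mul t t⁻¹
    rw [mul_inv_cancel, B.c_one, ht] at h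
    exact eq_neg_of_add_eq_zero_left h.symm

/-- the real span of the translation vectors -/
noncomputable def W : Submodule ℝ (E kk) := Submodule.span ℝ (B.lam : Set (E kk))

theorem lam_L (γ : N) {z : E kk} (hz : z ∈ B.lam) : B.L γ z ∈ B.lam := by
  obtain ⟨t, ht, rfl⟩ := hz
  have h1 : B.L γ * B.L γ⁻¹ = 1 := by rw [← B.L_mul, mul_inv_cancel, B.L_one]
  have hs : B.L (γ * t * γ⁻¹) = 1 := by rw [B.L_mul, B.L_mul, ht, mul_one, h1]
  refine ⟨γ * t * γ⁻¹, hs, ?_⟩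
  have h2 := B.c_mul (γ * t * γ⁻¹) γ
  rw [inv_mul_cancel_right, B.c_mul γ t, hs, add_comm (B.L γ (B.c t))] at h2
  have h3 : B.c γ + B.L γ (B.c t) = B.c γ + B.c (γ * t * γ⁻¹) := h2
  exact (add_left_cancel h3).symm

theorem W_L (γ : N) {z : E kk} (hz : z ∈ B.W) : B.L γ z ∈ B.W := by
  unfold W at hz ⊢
  induction hz using Submodule.span_induction with
  | mem x hx => exact Submodule.subset_span (B.lam_L γ hx)
  | zero => rw [map_zero]; exact Submodule.zero_mem _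
  | add x y _ _ hx hy => rw [map_add]; exact Submodule.add_mem _ hx hy
  | smul r x _ hx =>
    have h : B.L γ (r • x) = r • B.L γ x := by
      rw [← Complex.coe_smul, map_smul, Complex.coe_smul]
    rw [h]
    exact Submodule.smul_mem _ r hx

theorem W_T (γ : N) {z : E kk} (hz : z ∈ B.W) : (B.L γ - 1) z ∈ B.W := by
  have h : (B.L γ - 1) z = B.L γ z - z := rfl
  rw [h]
  exact B.W.sub_mem (B.W_L γ hz) hz

theorem comm_mem (γ δ : N) : (B.L γ - 1) (B.c δ) - (B.L δ - 1) (B.c γ) ∈ B.lam := by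
  have h0 : B.L (γ * δ) = B.L (δ * γ) := by rw [B.L_mul, B.L_mul, B.comm]
  have hw : B.L (γ * δ * (δ * γ)⁻¹) = 1 := by
    rw [B.L_mul (γ * δ), h0, ← B.L_mul, mul_inv_cancel, B.L_one]
  refine ⟨γ * δ * (δ * γ)⁻¹, hw, ?_⟩
  have h2 := B.c_mul (γ * δ * (δ * γ)⁻¹) (δ * γ)
  rw [inv_mul_cancel_right, hw, B.c_mul γ δ, B.c_mul δ γ] at h2
  have h2' : B.L γ (B.c δ) + B.c γ = (B.L δ (B.c γ) + B.c δ) + B.c (γ * δ * (δ * γ)⁻¹) := h2
  have h3 : B.c (γ * δ * (δ * γ)⁻¹) = B.L γ (B.c δ) + B.c γ - (B.L δ (B.c γ) + B.c δ) := by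
    rw [h2']; abel
  rw [h3]
  simp only [sub_apply, one_apply_eq_self]
  abel

/-- bounded sets contain only finitely many translation vectors -/
theorem latW_finite (R : ℝ) : {z : E kk | z ∈ B.lam ∧ ‖z‖ ≤ R}.Finite := by
  apply Set.Finite.subset ((B.pd R).image B.c)
  rintro z ⟨⟨t, ht, rfl⟩, hz⟩
  refine ⟨t, ⟨0, ?_, ?_⟩, rfl⟩
  · rw [norm_zero]
    exact (norm_nonneg _).trans hz
  · rw [map_zero, zero_add]
    exact hz

/-- the translation vectors as a lattice in their real span -/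
noncomputable def latW : Submodule ℤ B.W :=
  AddSubgroup.toIntSubmodule (B.lam.comap (B.W.subtype : B.W →+ E kk))

theorem mem_latW {x : B.W} : x ∈ B.latW ↔ (x : E kk) ∈ B.lam := Iff.rfl

theorem latW_discrete : DiscreteTopology B.latW := by
  have hfin : ({z : B.W | (z : E kk) ∈ B.lam ∧ ‖(z : E kk)‖ ≤ 1} \ {0}).Finite := by
    have h1 : ({z : B.W | (z : E kk) ∈ B.lam ∧ ‖(z : E kk)‖ ≤ 1}).Finite :=
      (B.latW_finite 1).preimage Subtype.val_injective.injOn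
    exact h1.subset sdiff_subset
  have hopen : IsOpen (ball (0 : B.W) 1 ∩
      ({z : B.W | (z : E kk) ∈ B.lam ∧ ‖(z : E kk)‖ ≤ 1} \ {0})ᶜ) :=
    isOpen_ball.inter hfin.isClosed.isOpen_compl
  apply discreteTopology_of_isOpen_singleton_zero
  have he : ({0} : Set B.latW) = Subtype.val ⁻¹'
      (ball (0 : B.W) 1 ∩ ({z : B.W | (z : E kk) ∈ B.lam ∧ ‖(z : E kk)‖ ≤ 1} \ {0})ᶜ) := by
    ext ⟨z, hz⟩
    constructor
    · intro h
      have h0 : z = 0 := congrArg Subtype.val h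
      subst h0
      refine ⟨mem_ball_self one_pos, fun h1 => h1.2 rfl⟩
    · rintro ⟨h1, h2⟩
      have h3 : ‖z‖ < 1 := by simpa using h1
      by_contra hne
      apply h2
      refine ⟨⟨hz, h3.le⟩, fun h4 => hne ?_⟩
      exact Subtype.ext h4
  rw [he]
  exact hopen.preimage continuous_subtype_val

theorem latW_span : Submodule.span ℝ (B.latW : Set B.W) = ⊤ :=
  Submodule.span_span_coe_preimage

theorem exists_basis : ∃ (r : ℕ) (w : Fin r → E kk), (∀ j, w j ∈ B.lam) ∧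
    LinearIndependent ℝ w ∧ ∀ z ∈ B.lam, ∃ m : Fin r → ℤ, z = ∑ j, (m j : ℝ) • w j := by
  have := B.latW_discrete
  have : IsZLattice ℝ B.latW := ⟨B.latW_span⟩
  have := ZLattice.module_free ℝ B.latW
  have := ZLattice.module_finite ℝ B.latW
  let e := Module.finBasis ℤ B.latW
  let e' := e.ofZLatticeBasis ℝ B.latW
  refine ⟨_, fun j => ((e j : B.W) : E kk), fun j => (e j).2, ?_, ?_⟩
  · have h := e'.linearIndependent.map' B.W.subtype (Submodule.ker_subtype _)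
    have h2 : (fun j => ((e j : B.W) : E kk)) = B.W.subtype ∘ e' := by
      funext j
      show _ = B.W.subtype (e' j)
      rw [show e' j = (e j : B.W) from Module.Basis.ofZLatticeBasis_apply ℝ B.latW e j]
      rfl
    rw [h2]
    exact h
  · intro z hz
    have hzW : z ∈ B.W := Submodule.subset_span hz
    obtain ⟨x, hx⟩ : ∃ x : B.latW, ((x : B.W) : E kk) = z := ⟨⟨⟨z, hzW⟩, hz⟩, rfl⟩
    refine ⟨fun j => e.repr x j, ?_⟩
    rw [← hx]
    conv_lhs => rw [← e.sum_repr x]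
    rw [AddSubmonoidClass.coe_finsetSum, AddSubmonoidClass.coe_finsetSum]
    apply Finset.sum_congr rfl
    intro j _
    rw [Int.cast_smul_eq_zsmul]
    rfl

theorem exists_near : ∃ R : ℝ, ∀ y ∈ B.W, ∃ z ∈ B.lam, ‖y + z‖ ≤ R := by
  obtain ⟨r, w, hw, -, hint⟩ := B.exists_basis
  refine ⟨∑ j, ‖w j‖, fun y hy => ?_⟩
  have hy2 : y ∈ Submodule.span ℝ (range w) := by
    have h1 : B.W ≤ Submodule.span ℝ (range w) := by
      rw [W, Submodule.span_le]
      intro z hz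
      obtain ⟨m, hm⟩ := hint z hz
      rw [SetLike.mem_coe, hm]
      exact Submodule.sum_mem _ fun j _ => Submodule.smul_mem _ _ (Submodule.subset_span ⟨j, rfl⟩)
    exact h1 hy
  obtain ⟨y', hy'⟩ := (Submodule.mem_span_range_iff_exists_fun ℝ).mp hy2
  refine ⟨-∑ j, ⌊y' j⌋ • w j, neg_mem (sum_mem fun j _ => zsmul_mem (hw j) _), ?_⟩
  have h2 : y + -∑ j, ⌊y' j⌋ • w j = ∑ j, (y' j - ⌊y' j⌋) • w j := by
    rw [← hy', ← sub_eq_add_neg, ← Finset.sum_sub_distrib]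
    apply Finset.sum_congr rfl
    intro j _
    rw [sub_smul, Int.cast_smul_eq_zsmul]
  rw [h2]
  refine (norm_sum_le _ _).trans (Finset.sum_le_sum fun j _ => ?_)
  rw [norm_smul, Real.norm_eq_abs, abs_of_nonneg (sub_nonneg.mpr (Int.floor_le _))]
  have h3 : y' j - ⌊y' j⌋ ≤ 1 := by
    have := Int.lt_floor_add_one (y' j)
    linarith
  exact mul_le_of_le_one_left (norm_nonneg _) h3

/-- the projection onto the range of `T` along its kernel -/
theorem exists_idem {T : E kk →L[ℂ] E kk} (h : ∀ v u, T v = 0 → v = T u → v = 0) :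
    ∃ e : E kk →L[ℂ] E kk, (∀ v, T (e v) = T v) ∧ ∀ v, ∃ u, e v = T u := by
  let T0 : E kk →ₗ[ℂ] E kk := T
  let φ : LinearMap.range T0 →ₗ[ℂ] LinearMap.range T0 :=
    T0.restrict (p := LinearMap.range T0) (q := LinearMap.range T0) (fun x _ => ⟨x, rfl⟩)
  have hφ : ∀ x, ((φ x : LinearMap.range T0) : E kk) = T x.1 := fun x => rfl
  have hinj : Function.Injective φ := by
    rw [injective_iff_map_eq_zero]
    rintro ⟨x, u, hu⟩ hx
    have h1 : T x = 0 := congrArg Subtype.val hx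
    exact Subtype.ext (h x u h1 hu.symm)
  let ψ := LinearEquiv.ofInjectiveEndo φ hinj
  let e0 : E kk →ₗ[ℂ] E kk := (LinearMap.range T0).subtype ∘ₗ ψ.symm.toLinearMap ∘ₗ T0.rangeRestrict
  refine ⟨LinearMap.toContinuousLinearMap e0, fun v => ?_, fun v => ?_⟩
  · have h1 : φ (ψ.symm (T0.rangeRestrict v)) = T0.rangeRestrict v := by
      have h2 := ψ.apply_symm_apply (T0.rangeRestrict v)
      exact h2
    exact congrArg Subtype.val h1
  · obtain ⟨u, hu⟩ := (ψ.symm (T0.rangeRestrict v)).2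
    exact ⟨u, hu.symm⟩

section idem

variable (γ : N)

theorem T_ss : ∀ v u, (B.L γ - 1) v = 0 → v = (B.L γ - 1) u → v = 0 := by
  intro v u h1 h2
  refine B.ss γ v u ?_ h2
  have h3 : B.L γ v - v = 0 := h1
  exact sub_eq_zero.1 h3

theorem T_comm (γ δ : N) (v : E kk) : (B.L γ - 1) (B.L δ v) = B.L δ ((B.L γ - 1) v) := by
  show B.L γ (B.L δ v) - B.L δ v = B.L δ (B.L γ v - v)
  rw [map_sub, B.L_comm]

variable {γ} {e : E kk →L[ℂ] E kk} (he1 : ∀ v, (B.L γ - 1) (e v) = (B.L γ - 1) v)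
  (he2 : ∀ v, ∃ u, e v = (B.L γ - 1) u)

include he1 he2

theorem e_unique {v y : E kk} (h1 : (B.L γ - 1) y = (B.L γ - 1) v)
    (h2 : ∃ u, y = (B.L γ - 1) u) : e v = y := by
  obtain ⟨u, hu⟩ := h2
  obtain ⟨u', hu'⟩ := he2 v
  have h3 : e v - y = 0 := by
    refine B.T_ss γ _ (u' - u) ?_ ?_
    · rw [map_sub, he1, h1, sub_self]
    · rw [map_sub, ← hu, ← hu']
  exact sub_eq_zero.1 h3

theorem e_L (δ : N) (v : E kk) : e (B.L δ v) = B.L δ (e v) := by
  refine B.e_unique he1 he2 ?_ ?_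
  · rw [B.T_comm, he1, B.T_comm]
  · obtain ⟨u, hu⟩ := he2 v
    exact ⟨B.L δ u, by rw [hu, B.T_comm]⟩

theorem e_e (v : E kk) : e (e v) = e v := B.e_unique he1 he2 rfl (he2 v)

theorem e_T (v : E kk) : e ((B.L γ - 1) v) = (B.L γ - 1) v :=
  B.e_unique he1 he2 rfl ⟨v, rfl⟩

theorem T_cancel {y z : E kk} (hy : e y = y) (hz : e z = z)
    (h : (B.L γ - 1) y = (B.L γ - 1) z) : y = z := by
  rw [← hy, ← hz]
  refine B.e_unique he1 he2 ?_ (he2 z)
  rw [he1, h]

/-- division in the span -/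
theorem div_mem' {w : E kk} (hw : w ∈ B.W) (hew : e w = w) :
    ∃ y ∈ B.W, e y = y ∧ (B.L γ - 1) y = w := by
  let W2 : Submodule ℝ (E kk) :=
    { carrier := {w | w ∈ B.W ∧ e w = w}
      add_mem' := by
        rintro u v ⟨h1, h2⟩ ⟨h3, h4⟩
        exact ⟨B.W.add_mem h1 h3, by rw [map_add, h2, h4]⟩
      zero_mem' := ⟨B.W.zero_mem, by rw [map_zero]⟩
      smul_mem' := by
        rintro r v ⟨h1, h2⟩
        refine ⟨B.W.smul_mem r h1, ?_⟩
        rw [← Complex.coe_smul, map_smul, h2] }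
  have hmap : ∀ w ∈ W2, (B.L γ - 1) w ∈ W2 := by
    rintro w ⟨h1, h2⟩
    exact ⟨B.W_T γ h1, B.e_T he1 he2 w⟩
  let φ : W2 →ₗ[ℝ] W2 :=
    { toFun := fun w => ⟨(B.L γ - 1) w.1, hmap w.1 w.2⟩
      map_add' := fun u v => Subtype.ext (map_add (B.L γ - 1) u.1 v.1)
      map_smul' := fun r u => Subtype.ext (by
        show (B.L γ - 1) (r • u.1) = r • ((B.L γ - 1) u.1)
        rw [← Complex.coe_smul, map_smul, Complex.coe_smul]) }
  have hinj : Function.Injective φ := by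
    rintro u v huv
    exact Subtype.ext (B.T_cancel he1 he2 u.2.2 v.2.2 (congrArg Subtype.val huv))
  have hsurj := LinearMap.injective_iff_surjective.1 hinj
  obtain ⟨z, hz⟩ := hsurj ⟨w, hw, hew⟩
  exact ⟨z.1, z.2.1, z.2.2, congrArg Subtype.val hz⟩

theorem div_mem {y : E kk} (hy : e y = y) (h : (B.L γ - 1) y ∈ B.W) : y ∈ B.W := by
  obtain ⟨z, hz1, hz2, hz3⟩ := B.div_mem' he1 he2 h (B.e_T he1 he2 y)
  rw [← B.T_cancel he1 he2 hz2 hy hz3]
  exact hz1

theorem e_mem {w : E kk} (hw : w ∈ B.W) : e w ∈ B.W := by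
  refine B.div_mem he1 he2 (B.e_e he1 he2 w) ?_
  rw [he1]
  exact B.W_T γ hw

end idem

theorem sub_one_mem (γ : N) (v : E kk) : (B.L γ - 1) v ∈ B.W := by
  classical
  obtain ⟨e, he1, he2⟩ := exists_idem (B.T_ss γ)
  by_contra hv
  set v2 := (B.L γ - 1) v with hv2
  have hev : e v2 = v2 := B.e_T he1 he2 v
  have hsm : ∀ (s : ℝ) (T : E kk →L[ℂ] E kk) (y : E kk), T (s • y) = s • T y := by
    intro s T y
    rw [← Complex.coe_smul, map_smul, Complex.coe_smul]
  obtain ⟨x, hex, hax⟩ : ∃ x : E kk, e x = x ∧ (B.L γ - 1) x = -(e (B.c γ)) := by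
    obtain ⟨u, hu⟩ := he2 (B.c γ)
    refine ⟨-(e u), by rw [map_neg, B.e_e he1 he2], ?_⟩
    rw [map_neg, he1, hu]
  let d : N → E kk := fun δ => e (B.c δ) + (B.L δ - 1) x
  have hed : ∀ δ, e (d δ) = d δ := by
    intro δ
    show e (e (B.c δ) + (B.L δ x - x)) = e (B.c δ) + (B.L δ x - x)
    rw [map_add, map_sub, B.e_e he1 he2, B.e_L he1 he2, hex]
  have had : ∀ δ, d δ ∈ B.W := by
    intro δ
    refine B.div_mem he1 he2 (hed δ) ?_
    have h1 : (B.L γ - 1) (d δ) = e ((B.L γ - 1) (B.c δ) - (B.L δ - 1) (B.c γ)) := by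
      show (B.L γ - 1) (e (B.c δ) + (B.L δ x - x)) = _
      have h2 : e ((B.L δ - 1) (B.c γ)) = B.L δ (e (B.c γ)) - e (B.c γ) := by
        show e (B.L δ (B.c γ) - B.c γ) = _
        rw [map_sub, B.e_L he1 he2]
      rw [map_add, map_sub, he1, B.T_comm, hax, map_sub, B.e_T he1 he2, h2, map_neg]
      abel
    rw [h1]
    exact B.e_mem he1 he2 (Submodule.subset_span (B.comm_mem γ δ))
  obtain ⟨R, hR⟩ := B.cc
  obtain ⟨R2, hR2⟩ := B.exists_near
  have hen : 0 ≤ ‖e‖ := norm_nonneg _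
  set R3 := ‖x‖ + (1 + ‖e‖) * |R| + |R2| with hR3
  have hF := B.pd R3
  set F := {γ | ∃ z : E kk, ‖z‖ ≤ R3 ∧ ‖B.L γ z + B.c γ‖ ≤ R3} with hFd
  have hne : F.Nonempty := by
    refine ⟨1, 0, ?_, ?_⟩
    · rw [norm_zero]; positivity
    · rw [map_zero, B.c_one, add_zero, norm_zero]; positivity
  have hcl : IsClosed (B.W : Set (E kk)) := Submodule.closed_of_finiteDimensional _
  have hWne : (B.W : Set (E kk)).Nonempty := ⟨0, B.W.zero_mem⟩
  obtain ⟨f0, hf0, hmin⟩ := Set.exists_min_image F (fun f => infDist (B.L f v2) B.W) hF hne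
  have hμ : 0 < infDist (B.L f0 v2) B.W := by
    rw [← hcl.notMem_iff_infDist_pos hWne]
    intro h
    apply hv
    have h2 := B.W_L f0⁻¹ h
    rwa [B.L_inv_left] at h2
  set μ := infDist (B.L f0 v2) B.W with hμd
  set K := ‖e‖ * |R| + ‖x‖ with hK
  have hK0 : 0 ≤ K := by positivity
  set s := (K + 1) / μ with hs
  have hs0 : 0 < s := by positivity
  obtain ⟨δ, hδ⟩ := hR (x + s • v2)
  have hδ' : ‖B.L δ (x + s • v2) + B.c δ‖ ≤ |R| := hδ.trans (le_abs_self R)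
  have hexp : e (B.L δ (x + s • v2) + B.c δ) = x + s • (B.L δ v2) + d δ := by
    show _ = x + s • (B.L δ v2) + (e (B.c δ) + (B.L δ x - x))
    rw [map_add, B.e_L he1 he2, map_add, hex, hsm, hev, map_add, hsm]
    abel
  have h1 : ‖x + s • (B.L δ v2) + d δ‖ ≤ ‖e‖ * |R| := by
    rw [← hexp]
    exact (e.le_opNorm _).trans (mul_le_mul_of_nonneg_left hδ' hen)
  have h2 : ‖B.c δ - e (B.c δ)‖ ≤ (1 + ‖e‖) * |R| := by
    have h3 : B.c δ - e (B.c δ) = (B.L δ (x + s • v2) + B.c δ) -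
        e (B.L δ (x + s • v2) + B.c δ) := by
      rw [hexp]
      show _ = _ - (x + s • (B.L δ v2) + (e (B.c δ) + (B.L δ x - x)))
      rw [map_add, hsm]
      abel
    rw [h3]
    refine (norm_sub_le _ _).trans ?_
    have h4 := (e.le_opNorm (B.L δ (x + s • v2) + B.c δ)).trans
      (mul_le_mul_of_nonneg_left hδ' hen)
    linarith
  obtain ⟨z, ⟨t, ht1, ht2⟩, hz⟩ := hR2 (d δ) (had δ)
  have hatδ : B.L (t * δ) = B.L δ := by rw [B.L_mul, ht1, one_mul]
  have hctδ : B.c (t * δ) = B.c δ + z := by rw [B.c_mul, ht1, ht2]; rfl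
  have hmem : t * δ ∈ F := by
    refine ⟨x, ?_, ?_⟩
    · have := abs_nonneg R
      have := abs_nonneg R2
      have : 0 ≤ (1 + ‖e‖) * |R| := by positivity
      linarith
    · have h4 : B.L (t * δ) x + B.c (t * δ) = x + (B.c δ - e (B.c δ)) + (d δ + z) := by
        rw [hatδ, hctδ]
        show _ = x + (B.c δ - e (B.c δ)) + (e (B.c δ) + (B.L δ x - x) + z)
        abel
      rw [h4]
      have h5 := norm_add_le (x + (B.c δ - e (B.c δ))) (d δ + z)
      have h6 := norm_add_le x (B.c δ - e (B.c δ))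
      have h7 := hz.trans (le_abs_self R2)
      linarith
  have hle : μ ≤ infDist (B.L δ v2) B.W := by
    have := hmin _ hmem
    rwa [hatδ] at this
  have hlt : infDist (B.L δ v2) B.W ≤ s⁻¹ * K := by
    have hm : -(s⁻¹ • d δ) ∈ B.W := B.W.neg_mem (B.W.smul_mem _ (had δ))
    refine (infDist_le_dist_of_mem hm).trans ?_
    rw [dist_eq_norm, sub_neg_eq_add]
    have h8 : B.L δ v2 + s⁻¹ • d δ = s⁻¹ • ((x + s • (B.L δ v2) + d δ) - x) := by
      have h9 : (x + s • (B.L δ v2) + d δ) - x = s • (B.L δ v2) + d δ := by abel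
      rw [h9, smul_add (s⁻¹) (s • (B.L δ v2)) (d δ), smul_smul,
        inv_mul_cancel₀ hs0.ne', one_smul]
    rw [h8, norm_smul, Real.norm_of_nonneg (by positivity)]
    refine mul_le_mul_of_nonneg_left ?_ (by positivity)
    exact (norm_sub_le _ _).trans (add_le_add h1 le_rfl)
  have hfin : s⁻¹ * K < μ := by
    rw [hs, inv_div, div_mul_eq_mul_div, div_lt_iff₀ (by positivity)]
    nlinarith
  linarith

end CAct

end Pool.Agent.H.MP_e23cd6_ag.CB
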