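import Pool.Agent.H.MP_e23cd6_ag.AK.Mb3a
import Pool.Agent.H.MP_e23cd6_ag.CB.Z3

/-!
CB/Z4: average of a Kaehler metric over the translations of a group of affine maps with commuting linear parts; consequences for the scales
(AK/Mb3a, Mb3b for `CAct`).

`av_const`: if `v` and `I • v` lie in the span of the translations then `av v v` is constant.
`cact_unit`: if `F` is a complex subspace stable under `L γ`, contained in the range of `L γ - 1`, on which `L γ` multiplies a Hermitian form by `ρ`, then `ρ = 1` (if `F ≠ 0`).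
-/

open Set Filter Topology Metric MeasureTheory
open scoped ContDiff ComplexConjugate

namespace Pool.Agent.H.MP_e23cd6_ag.CB

open Pool.Agent.H.MP_e23cd6_ag.AB Pool.Agent.H.MP_e23cd6_ag.AK

variable {kk : ℕ} {N : Type} [Group N]

theorem rsm (T : E kk →L[ℂ] E kk) (s : ℝ) (y : E kk) : T (s • y) = s • T y := by
  rw [← Complex.coe_smul, map_smul, Complex.coe_smul]

theorem clm_sum_smul {r : ℕ} (T : E kk →L[ℂ] E kk) (w : Fin r → E kk) (x : Fin r → ℝ) :
    T (∑ j, x j • w j) = ∑ j, x j • T (w j) := by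
  rw [map_sum]
  exact Finset.sum_congr rfl fun j _ => rsm _ _ _

theorem cav_W (B : CAct kk N) (h : KMet (univ : Set (E kk)))
    (hinv : ∀ γ z v v', h.h (B.L γ z + B.c γ) (B.L γ v) (B.L γ v') = h.h z v v')
    {r : ℕ} (w : Fin r → E kk) (hw : ∀ j, w j ∈ B.lam)
    (hb : ∀ z ∈ B.lam, ∃ m : Fin r → ℤ, z = ∑ j, (m j : ℝ) • w j) (v v' z : E kk) {y : E kk}
    (hy : y ∈ B.W) : av w h v v' (z + y) = av w h v v' z := by
  have hy2 : y ∈ Submodule.span ℝ (Set.range w) := by
    refine (Submodule.span_le.2 ?_ : B.W ≤ _) hy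
    intro t ht
    obtain ⟨m, hm⟩ := hb t ht
    show t ∈ Submodule.span ℝ (Set.range w)
    rw [hm]
    exact Submodule.sum_mem _ fun j _ => Submodule.smul_mem _ _ (Submodule.subset_span ⟨j, rfl⟩)
  obtain ⟨x0, hx0⟩ := (Submodule.mem_span_range_iff_exists_fun ℝ).1 hy2
  have hF : Continuous fun x : Fin r → ℝ => h.h (z + ∑ j, x j • w j) v v' :=
    (Mb3a_smooth h v v').continuous.comp (continuous_const.add (Mb3a_pt w))
  have hper : ∀ i (x : Fin r → ℝ), h.h (z + ∑ j, (x + Pi.single i 1 : Fin r → ℝ) j • w j) v v' =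
      h.h (z + ∑ j, x j • w j) v v' := by
    intro i x
    obtain ⟨t, ht1, ht2⟩ : ∃ t, B.L t = 1 ∧ B.c t = w i := hw i
    have e : z + ∑ j, (x + Pi.single i 1 : Fin r → ℝ) j • w j = (z + ∑ j, x j • w j) + w i := by
      have e1 : ∑ j, (Pi.single i 1 : Fin r → ℝ) j • w j = w i := by
        rw [Finset.sum_eq_single i (fun j _ hj => by rw [Pi.single_eq_of_ne hj, zero_smul])
          (fun hi => absurd (Finset.mem_univ i) hi), Pi.single_eq_same, one_smul]
      simp only [Pi.add_apply, add_smul, Finset.sum_add_distrib]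
      rw [e1, add_assoc]
    have h1 := hinv t (z + ∑ j, x j • w j) v v'
    rw [ht1, ht2] at h1
    rw [e]
    exact h1
  have h2 := per_int hF hper 1 1 (one_mul _) (one_mul _) x0
  rw [Matrix.map_one _ Int.cast_zero Int.cast_one] at h2
  simp only [Matrix.one_mulVec] at h2
  rw [av, av, ← h2]
  refine integral_congr_ae (ae_of_all _ fun x => ?_)
  show h.h (z + y + ∑ j, x j • w j) v v' = h.h (z + ∑ j, (x + x0) j • w j) v v'
  congr 1
  simp only [Pi.add_apply, add_smul, Finset.sum_add_distrib, hx0]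
  abel

theorem cav_inv (B : CAct kk N) (h : KMet (univ : Set (E kk)))
    (hinv : ∀ γ z v v', h.h (B.L γ z + B.c γ) (B.L γ v) (B.L γ v') = h.h z v v')
    {r : ℕ} (w : Fin r → E kk) (hw : ∀ j, w j ∈ B.lam) (hli : LinearIndependent ℝ w)
    (hb : ∀ z ∈ B.lam, ∃ m : Fin r → ℤ, z = ∑ j, (m j : ℝ) • w j) (γ : N) (v v' z : E kk) :
    av w h (B.L γ v) (B.L γ v') (B.L γ z + B.c γ) = av w h v v' z := by
  have haa : ∀ δ : N, ∃ Nm : Matrix (Fin r) (Fin r) ℤ, ∀ j,
      B.L δ (w j) = ∑ l, (Nm l j : ℝ) • w l := by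
    intro δ
    choose m hm using fun j => hb _ (B.lam_L δ (hw j))
    exact ⟨fun l j => m j l, fun j => hm j⟩
  have hcomp : ∀ (δ δ' : N), (∀ y, B.L δ (B.L δ' y) = y) → ∀ Nm Nm' : Matrix (Fin r) (Fin r) ℤ,
      (∀ j, B.L δ (w j) = ∑ l, (Nm l j : ℝ) • w l) →
      (∀ j, B.L δ' (w j) = ∑ l, (Nm' l j : ℝ) • w l) → Nm * Nm' = 1 := by
    intro δ δ' hδ Nm Nm' h1 h2
    ext i j
    have h3 : w j = ∑ i, (((Nm * Nm') i j : ℤ) : ℝ) • w i := by
      calc w j = B.L δ (B.L δ' (w j)) := (hδ _).symm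
        _ = ∑ l, (Nm' l j : ℝ) • (B.L δ (w l)) := by
            rw [h2 j]; exact clm_sum_smul _ _ _
        _ = ∑ l, ∑ i, ((Nm' l j : ℝ) * (Nm i l : ℝ)) • w i := by
            refine Finset.sum_congr rfl fun l _ => ?_
            rw [h1 l, Finset.smul_sum]
            exact Finset.sum_congr rfl fun i _ => smul_smul _ _ _
        _ = ∑ i, (((Nm * Nm') i j : ℤ) : ℝ) • w i := by
            rw [Finset.sum_comm]
            refine Finset.sum_congr rfl fun i _ => ?_
            rw [← Finset.sum_smul, Matrix.mul_apply]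
            congr 1
            push_cast
            exact Finset.sum_congr rfl fun l _ => mul_comm _ _
    have h4 : ∑ i, ((((Nm * Nm') i j : ℤ) : ℝ) - (if i = j then 1 else 0)) • w i = 0 := by
      simp only [sub_smul, Finset.sum_sub_distrib, ite_smul, one_smul, zero_smul,
        Finset.sum_ite_eq', Finset.mem_univ, if_true]
      rw [← h3, sub_self]
    have h5 := Fintype.linearIndependent_iff.1 hli _ h4 i
    rw [Matrix.one_apply]
    have h6 : (((Nm * Nm') i j : ℤ) : ℝ) = if i = j then 1 else 0 := by linarith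
    split_ifs with hij
    · rw [if_pos hij] at h6
      exact_mod_cast h6
    · rw [if_neg hij] at h6
      exact_mod_cast h6
  obtain ⟨Nm, hNm⟩ := haa γ⁻¹
  obtain ⟨Nm', hNm'⟩ := haa γ
  have hN := hcomp _ _ (B.L_inv_left γ) Nm Nm' hNm hNm'
  have hN' := hcomp _ _ (B.L_inv_right γ) Nm' Nm hNm' hNm
  have hpt : ∀ x : Fin r → ℝ, B.L γ⁻¹ (∑ j, x j • w j) =
      ∑ l, ((Nm.map (Int.cast : ℤ → ℝ)).mulVec x) l • w l := by
    intro x
    rw [clm_sum_smul]
    calc ∑ j, x j • (B.L γ⁻¹ (w j)) = ∑ j, ∑ l, (x j * (Nm l j : ℝ)) • w l := by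
          refine Finset.sum_congr rfl fun j _ => ?_
          rw [hNm j, Finset.smul_sum]
          exact Finset.sum_congr rfl fun l _ => smul_smul _ _ _
      _ = ∑ l, ((Nm.map (Int.cast : ℤ → ℝ)).mulVec x) l • w l := by
          rw [Finset.sum_comm]
          refine Finset.sum_congr rfl fun l _ => ?_
          rw [← Finset.sum_smul]
          congr 1
          simp only [Matrix.mulVec, dotProduct, Matrix.map_apply]
          exact Finset.sum_congr rfl fun j _ => mul_comm _ _
  set F : (Fin r → ℝ) → ℂ := fun x => h.h (z + ∑ j, x j • w j) v v' with hF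
  have hFc : Continuous F := by
    have h1 : Continuous fun y => h.h y v v' := by
      have := (h.smooth v v').continuousOn
      rwa [continuousOn_univ] at this
    refine h1.comp ?_
    fun_prop
  have hFp : ∀ i x, F (x + Pi.single i 1) = F x := by
    intro i x
    obtain ⟨t, ht1, ht2⟩ := hw i
    have h1 := hinv t (z + ∑ j, x j • w j) v v'
    rw [ht1, ht2] at h1
    have h1' : h.h (z + ∑ j, x j • w j + w i) v v' = h.h (z + ∑ j, x j • w j) v v' := h1
    rw [hF]
    simp only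
    rw [← h1']
    congr 1
    simp only [Pi.add_apply, add_smul, Finset.sum_add_distrib]
    rw [add_assoc]
    congr 2
    simp [Pi.single_apply]
  have hper := per_int hFc hFp Nm Nm' hN hN' 0
  unfold av
  rw [← hper]
  refine setIntegral_congr_fun measurableSet_Icc fun x _ => ?_
  simp only [hF, add_zero]
  rw [← hpt x]
  have h1 := hinv γ (z + B.L γ⁻¹ (∑ j, x j • w j)) v v'
  rw [← h1]
  congr 1
  rw [map_add, B.L_inv_right]
  abel

/-- the average is a positive definite Hermitian form -/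
theorem av_isHerm {r : ℕ} (w : Fin r → E kk) (h : KMet (univ : Set (E kk))) (z : E kk) :
    IsHerm fun v v' => av w h v v' z := by
  have hint : ∀ v v' : E kk, IntegrableOn (fun x : Fin r → ℝ => h.h (z + ∑ j, x j • w j) v v')
      (Icc 0 1) := fun v v' =>
    ((Mb3a_smooth h v v').continuous.comp
      (continuous_const.add (Mb3a_pt w))).continuousOn.integrableOn_compact isCompact_Icc
  refine ⟨fun u v v' => ?_, fun a v v' => ?_, fun v v' => ?_, fun v hv => (av_real w h v z).2.1 hv⟩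
  · show av w h (u + v) v' z = av w h u v' z + av w h v v' z
    unfold av
    rw [← integral_add (hint u v') (hint v v')]
    exact integral_congr_ae (ae_of_all _ fun x => h.add_left _ (mem_univ _) _ _ _)
  · show av w h (a • v) v' z = a * av w h v v' z
    unfold av
    rw [← integral_const_mul]
    exact integral_congr_ae (ae_of_all _ fun x => h.smul_left _ (mem_univ _) _ _ _)
  · show av w h v' v z = conj (av w h v v' z)
    unfold av
    rw [← integral_conj]
    exact integral_congr_ae (ae_of_all _ fun x => h.herm _ (mem_univ _) _ _)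

/-- constancy of the average in directions of complex lines in the span of the translations -/
theorem av_const (B : CAct kk N) (h : KMet (univ : Set (E kk)))
    (hinv : ∀ γ z v v', h.h (B.L γ z + B.c γ) (B.L γ v) (B.L γ v') = h.h z v v')
    {r : ℕ} (w : Fin r → E kk) (hw : ∀ j, w j ∈ B.lam)
    (hb : ∀ z ∈ B.lam, ∃ m : Fin r → ℤ, z = ∑ j, (m j : ℝ) • w j) {v : E kk}
    (hv : v ∈ B.W) (hIv : Complex.I • v ∈ B.W) (z z' : E kk) :
    av w h v v z = av w h v v z' := by
  have hline : ∀ (ψ : E kk → ℂ), Differentiable ℝ ψ → ∀ z y,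
      HasDerivAt (fun t : ℝ => ψ (z + t • y)) (fderiv ℝ ψ z y) 0 := by
    intro ψ hψ z y
    exact (hψ z).hasFDerivAt.hasLineDerivAt y
  have hzero : ∀ u z y, y ∈ B.W → fderiv ℝ (av w h u v) z y = 0 := by
    intro u z y hy
    have h1 := hline _ (av_diff w h u v) z y
    have h2 : (fun t : ℝ => av w h u v (z + t • y)) = fun _ => av w h u v z := by
      funext t
      exact cav_W B h hinv w hw hb u v z (B.W.smul_mem t hy)
    rw [h2] at h1
    exact h1.unique (hasDerivAt_const 0 _)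
  have hdz : ∀ z u, dz (av w h v v) z u = 0 := by
    intro z u
    rw [av_kahler w h u v v z]
    unfold dz
    rw [hzero u z v hv, hzero u z _ hIv]
    ring
  have hreal : ∀ z u, (fderiv ℝ (av w h v v) z u).im = 0 := by
    intro z u
    have h1 := hline _ (av_diff w h v v) z u
    have h2 := (Complex.imCLM.hasFDerivAt (x := av w h v v (z + (0 : ℝ) • u))).comp_hasDerivAt
      (0 : ℝ) h1
    have h3 : (Complex.imCLM ∘ fun t : ℝ => av w h v v (z + t • u)) = fun _ => (0 : ℝ) := by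
      funext t
      exact (av_real w h v _).1
    rw [h3] at h2
    exact h2.unique (hasDerivAt_const 0 _)
  have hfd : ∀ z, fderiv ℝ (av w h v v) z = 0 := by
    intro z
    ext u
    have h1 := hdz z u
    unfold dz at h1
    have h2 : fderiv ℝ (av w h v v) z u = Complex.I * fderiv ℝ (av w h v v) z (Complex.I • u) := by
      have h3 : (1 / 2 : ℂ) ≠ 0 := by norm_num
      exact sub_eq_zero.1 ((mul_eq_zero.1 h1).resolve_left h3)
    have h4 : (fderiv ℝ (av w h v v) z u).re = 0 := by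
      rw [h2, Complex.mul_re, Complex.I_re, Complex.I_im, hreal z (Complex.I • u)]
      ring
    simp only [_root_.zero_apply]
    exact Complex.ext h4 (hreal z u)
  exact is_const_of_fderiv_eq_zero (av_diff w h v v) hfd z z'

/-- bounds for a positive definite Hermitian form -/
theorem herm_bounds {H : E kk → E kk → ℂ} (hH : IsHerm H) :
    ∃ C : ℝ, 0 < C ∧ ∀ v : E kk, (H v v).re ≤ C * ‖v‖ ^ 2 ∧ ‖v‖ ^ 2 ≤ C * (H v v).re := by
  have hcont : Continuous fun v : E kk => (H v v).re := by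
    have h1 : Continuous fun x : E kk => ∑ p, ∑ q, x p * conj (x q) *
        H (Pi.single p 1) (Pi.single q 1) := by
      fun_prop
    refine (Complex.continuous_re.comp h1).congr fun x => ?_
    show _ = (H x x).re
    rw [hH.expand x x]
    rfl
  have hS : IsCompact (sphere (0 : E kk) 1) := isCompact_sphere _ _
  have hpos : ∀ x ∈ sphere (0 : E kk) 1, 0 < (H x x).re := by
    intro x hx
    refine hH.pos _ fun h0 => ?_
    have h1 : ‖x‖ = 1 := by simpa using hx
    rw [h0, norm_zero] at h1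
    exact zero_ne_one h1
  obtain ⟨C1, hC1⟩ := hS.exists_bound_of_continuousOn hcont.continuousOn
  obtain ⟨C2, hC2⟩ := hS.exists_bound_of_continuousOn
    (hcont.continuousOn.inv₀ fun x hx => (hpos x hx).ne')
  refine ⟨max (max C1 C2) 1, lt_of_lt_of_le one_pos (le_max_right _ _), fun v => ?_⟩
  by_cases hv : v = 0
  · rw [hv, hH.zero_left]
    simp
  have hn : 0 < ‖v‖ := norm_pos_iff.2 hv
  set u : E kk := ‖v‖⁻¹ • v with hu
  have hu1 : ‖u‖ = 1 := by
    rw [hu, norm_smul, norm_inv, norm_norm, inv_mul_cancel₀ hn.ne']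
  have hvu : v = ‖v‖ • u := by
    rw [hu, smul_smul, mul_inv_cancel₀ hn.ne', one_smul]
  have hmem : u ∈ sphere (0 : E kk) 1 := by simp [hu1]
  have e : (H v v).re = ‖v‖ ^ 2 * (H u u).re := by
    have e1 : H v v = ((‖v‖ ^ 2 : ℝ) : ℂ) * H u u := by
      conv_lhs => rw [hvu, hH.rsmul_left, hH.rsmul_right]
      push_cast
      ring
    rw [e1, Complex.re_ofReal_mul]
  have h1 : ‖(H u u).re‖ ≤ C1 := hC1 _ hmem
  have h2 : ‖((H u u).re)⁻¹‖ ≤ C2 := hC2 _ hmem
  have h3 : 0 < (H u u).re := hpos _ hmem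
  simp only [Real.norm_eq_abs] at h1 h2
  rw [abs_of_pos h3] at h1
  rw [abs_of_pos (inv_pos.2 h3)] at h2
  have h4 : (H u u).re ≤ max (max C1 C2) 1 :=
    h1.trans ((le_max_left _ _).trans (le_max_left _ _))
  have h5 : ((H u u).re)⁻¹ ≤ max (max C1 C2) 1 :=
    h2.trans ((le_max_right _ _).trans (le_max_left _ _))
  have h6 : 1 ≤ max (max C1 C2) 1 * (H u u).re := by
    have := mul_le_mul_of_nonneg_right h5 h3.le
    rwa [inv_mul_cancel₀ h3.ne'] at this
  rw [e]
  have hn2 : 0 < ‖v‖ ^ 2 := by positivity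
  constructor
  · rw [mul_comm (‖v‖ ^ 2)]
    exact mul_le_mul_of_nonneg_right h4 hn2.le
  · calc ‖v‖ ^ 2 = ‖v‖ ^ 2 * 1 := (mul_one _).symm
      _ ≤ ‖v‖ ^ 2 * (max (max C1 C2) 1 * (H u u).re) :=
          mul_le_mul_of_nonneg_left h6 hn2.le
      _ = _ := by ring

theorem eq_one_of_pow_bounded {ρ c C : ℝ} (hρ : 0 < ρ) (hc : 0 < c)
    (h : ∀ m : ℕ, c ≤ ρ ^ m ∧ ρ ^ m ≤ C) : ρ = 1 := by
  rcases lt_trichotomy ρ 1 with h1 | h1 | h1
  · obtain ⟨m, hm⟩ := exists_pow_lt_of_lt_one hc h1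
    exact absurd (h m).1 (not_le.2 hm)
  · exact h1
  · obtain ⟨m, hm⟩ := pow_unbounded_of_one_lt C h1
    exact absurd (h m).2 (not_le.2 hm)

theorem cact_unit (B : CAct kk N) (h : KMet (univ : Set (E kk)))
    (hinv : ∀ γ z v v', h.h (B.L γ z + B.c γ) (B.L γ v) (B.L γ v') = h.h z v v')
    {H : E kk → E kk → ℂ} (hH : IsHerm H) (γ : N) (F : Submodule ℂ (E kk))
    (hFL : ∀ v ∈ F, B.L γ v ∈ F) (hFT : ∀ v ∈ F, ∃ u, v = (B.L γ - 1) u)
    {ρ : ℝ} (hρ0 : 0 < ρ) (hρ : ∀ v ∈ F, H (B.L γ v) (B.L γ v) = ρ * H v v)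
    {v : E kk} (hv : v ∈ F) (hv0 : v ≠ 0) : ρ = 1 := by
  obtain ⟨r, w, hw, hli, hb⟩ := B.exists_basis
  have hFW : ∀ x ∈ F, x ∈ B.W := by
    intro x hx
    obtain ⟨u, hu⟩ := hFT x hx
    rw [hu]
    exact B.sub_one_mem γ u
  set f : E kk → E kk → ℂ := fun x y => av w h x y 0 with hf
  have hfH : IsHerm f := av_isHerm w h 0
  have hfinv : ∀ x ∈ F, f (B.L γ x) (B.L γ x) = f x x := by
    intro x hx
    have h1 := cav_inv B h hinv w hw hli hb γ x x 0
    have h2 := av_const B h hinv w hw hb (hFW _ (hFL x hx))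
      (hFW _ (F.smul_mem Complex.I (hFL x hx))) 0 (B.L γ 0 + B.c γ)
    show av w h _ _ 0 = av w h x x 0
    rw [h2, h1]
  obtain ⟨C1, hC1, hb1⟩ := herm_bounds hH
  obtain ⟨C2, hC2, hb2⟩ := herm_bounds hfH
  have hpow : ∀ m : ℕ, ∃ y ∈ F, H y y = (ρ ^ m : ℝ) * H v v ∧ f y y = f v v := by
    intro m
    induction m with
    | zero => exact ⟨v, hv, by simp, rfl⟩
    | succ m ih =>
      obtain ⟨y, hy, hy1, hy2⟩ := ih
      refine ⟨B.L γ y, hFL y hy, ?_, by rw [hfinv y hy, hy2]⟩
      rw [hρ y hy, hy1]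
      push_cast
      ring
  have hHv : 0 < (H v v).re := hH.pos v hv0
  have hfv : 0 < (f v v).re := hfH.pos v hv0
  refine eq_one_of_pow_bounded (c := (f v v).re / (C1 * C2 * (H v v).re))
    (C := C1 * C2 * (f v v).re / (H v v).re) hρ0 (by positivity) fun m => ?_
  obtain ⟨y, hy, hy1, hy2⟩ := hpow m
  have h1 := hb1 y
  have h2 := hb2 y
  rw [hy1, Complex.re_ofReal_mul] at h1
  rw [hy2] at h2
  constructor
  · rw [div_le_iff₀ (by positivity)]
    calc (f v v).re ≤ C2 * ‖y‖ ^ 2 := h2.1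
      _ ≤ C2 * (C1 * (ρ ^ m * (H v v).re)) := mul_le_mul_of_nonneg_left h1.2 hC2.le
      _ = ρ ^ m * (C1 * C2 * (H v v).re) := by ring
  · rw [le_div_iff₀ hHv]
    calc ρ ^ m * (H v v).re ≤ C1 * ‖y‖ ^ 2 := h1.1
      _ ≤ C1 * (C2 * (f v v).re) := mul_le_mul_of_nonneg_left h2.2 hC1.le
      _ = C1 * C2 * (f v v).re := by ring

end Pool.Agent.H.MP_e23cd6_ag.CB
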