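import Pool.Agent.H.MP_e23cd6_ag.AK.Md
import Pool.Agent.H.MP_e23cd6_ag.CB.M3b
import Pool.Agent.H.MP_e23cd6_ag.CB.Z2
import Pool.Agent.H.MP_e23cd6_ag.CB.Z4

/-!
CB/Z5: one fibre: a group of affine maps of ℂ^k, properly discontinuous and cocompact, preserving a Kaehler metric, whose linear parts preserve the blocks and are, up to positive block scalars `ν γ i`,
unitary for a Hermitian form `H`: the linear parts are unitary for `H`.

Proof. `U γ = sc (ν γ)⁻¹ * L γ`, `R γ = sc (ν γ)`: `SAct`, so (Z2) a subgroup `N'` of finite index has commuting linear parts. `ss`: in the block `i`, `L γ v = v ≠ 0` forces `ν γ i = 1`, and a fixed vector of a unitary map is orthogonal to the range of `U γ - 1`.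
If `ν γ i ≠ 1` (γ ∈ N') then `L γ - 1` is injective, so surjective, on the block `i`, and `cact_unit` (Z4) gives `ν γ i = 1`. For general γ take a power in `N'`.
-/

open Set Filter Topology Metric
open scoped ContDiff ComplexConjugate

namespace Pool.Agent.H.MP_e23cd6_ag.CB

open Pool.Agent.H.MP_e23cd6_ag.AB Pool.Agent.H.MP_e23cd6_ag.AK

variable {kk r : ℕ}

/-- linear parts which are unitary up to positive block scalars -/
structure UB (blk : Fin kk → Fin r) (N : Type) [Group N] where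
  L : N → (E kk →L[ℂ] E kk)
  L1 : L 1 = 1
  Lm : ∀ γ δ, L (γ * δ) = L γ * L δ
  hL : ∀ γ x, L γ * sc blk x = sc blk x * L γ
  ν : N → Fin r → ℝ
  pos : ∀ γ i, 0 < ν γ i
  mul : ∀ γ δ i, ν (γ * δ) i = ν γ i * ν δ i
  H : E kk → E kk → ℂ
  hH : IsHerm H
  hHs : ∀ x : Fin r → ℂ, ∀ v w, H (sc blk x v) w = H v (sc blk (fun i => conj (x i)) w)
  hU : ∀ γ v w, H (sc blk (fun i => (((ν γ i)⁻¹ : ℝ) : ℂ)) (L γ v))
    (sc blk (fun i => (((ν γ i)⁻¹ : ℝ) : ℂ)) (L γ w)) = H v w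

namespace UB

variable {blk : Fin kk → Fin r} {N : Type} [Group N] (B : UB blk N)

/-- the scalars -/
noncomputable def y (γ : N) : Fin r → ℂ := fun i => ((B.ν γ i : ℝ) : ℂ)

/-- the inverse scalars -/
noncomputable def x (γ : N) : Fin r → ℂ := fun i => (((B.ν γ i)⁻¹ : ℝ) : ℂ)

theorem ν_one (i : Fin r) : B.ν 1 i = 1 := by
  have h := B.mul 1 1 i
  rw [mul_one] at h
  have h2 := B.pos 1 i
  nlinarith

theorem y_one : B.y 1 = 1 := by
  funext i
  simp [y, B.ν_one]

theorem x_one : B.x 1 = 1 := by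
  funext i
  simp [x, B.ν_one]

theorem y_mul (γ δ : N) : B.y (γ * δ) = B.y γ * B.y δ := by
  funext i
  simp [y, B.mul]

theorem x_mul (γ δ : N) : B.x (γ * δ) = B.x γ * B.x δ := by
  funext i
  simp only [x, B.mul, mul_inv, Pi.mul_apply]
  push_cast
  ring

theorem yx (γ : N) : B.y γ * B.x γ = 1 := by
  funext i
  have h := (B.pos γ i).ne'
  simp only [x, y, Pi.mul_apply, Pi.one_apply]
  rw [← Complex.ofReal_mul, mul_inv_cancel₀ h, Complex.ofReal_one]

/-- the unitary parts -/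
noncomputable def U (γ : N) : E kk →L[ℂ] E kk := sc blk (B.x γ) * B.L γ

theorem U_herm (γ : N) (v w : E kk) : B.H (B.U γ v) (B.U γ w) = B.H v w := B.hU γ v w

theorem L_eq (γ : N) : B.L γ = sc blk (B.y γ) * B.U γ := by
  unfold U
  rw [← mul_assoc, ← sc_mul, B.yx, sc_one, one_mul]

theorem U_one : B.U 1 = 1 := by
  unfold U
  rw [B.x_one, sc_one, B.L1, one_mul]

theorem U_mul (γ δ : N) : B.U (γ * δ) = B.U γ * B.U δ := by
  unfold U
  rw [B.x_mul, sc_mul, B.Lm]
  calc sc blk (B.x γ) * sc blk (B.x δ) * (B.L γ * B.L δ)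
      = sc blk (B.x γ) * (sc blk (B.x δ) * B.L γ) * B.L δ := by simp only [mul_assoc]
    _ = sc blk (B.x γ) * (B.L γ * sc blk (B.x δ)) * B.L δ := by rw [B.hL]
    _ = _ := by simp only [mul_assoc]

theorem sc_comm (a b : Fin r → ℂ) : sc blk a * sc blk b = sc blk b * sc blk a := by
  rw [← sc_mul, ← sc_mul, mul_comm]

theorem U_sc (γ : N) (a : Fin r → ℂ) : B.U γ * sc blk a = sc blk a * B.U γ := by
  unfold U
  rw [mul_assoc, B.hL, ← mul_assoc, sc_comm, mul_assoc]

theorem U_bd : ∃ C : ℝ, 1 ≤ C ∧ ∀ γ, ‖B.U γ‖ ≤ C := by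
  obtain ⟨C, hC, hb⟩ := herm_bounds B.hH
  refine ⟨max C 1, le_max_right _ _, fun γ => le_trans ?_ (le_max_left _ _)⟩
  refine ContinuousLinearMap.opNorm_le_bound _ hC.le fun v => ?_
  have h1 := (hb (B.U γ v)).2
  rw [B.U_herm] at h1
  have h2 := (hb v).1
  have h3 : ‖B.U γ v‖ ^ 2 ≤ (C * ‖v‖) ^ 2 := by
    calc _ ≤ C * (B.H v v).re := h1
      _ ≤ C * (C * ‖v‖ ^ 2) := mul_le_mul_of_nonneg_left h2 hC.le
      _ = _ := by ring
  exact (pow_le_pow_iff_left₀ (norm_nonneg _) (by positivity) two_ne_zero).1 h3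

/-- vectors supported in the block `i` -/
noncomputable def Bi (blk : Fin kk → Fin r) (i : Fin r) : Submodule ℂ (E kk) where
  carrier := {v | InB blk i v}
  add_mem' := by
    intro u v hu hv j hj
    show u j + v j = 0
    rw [hu j hj, hv j hj, add_zero]
  zero_mem' := fun _ _ => rfl
  smul_mem' := by
    intro a v hv j hj
    show a * v j = 0
    rw [hv j hj, mul_zero]

theorem mem_Bi (i : Fin r) (v : E kk) : v ∈ Bi blk i ↔ sc blk (Pi.single i 1) v = v := by
  constructor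
  · intro h
    funext j
    rw [sc_apply]
    by_cases hj : blk j = i
    · rw [hj, Pi.single_eq_same, one_mul]
    · rw [Pi.single_eq_of_ne hj, zero_mul, h j hj]
  · intro h j hj
    have h2 := congrFun h j
    rw [sc_apply, Pi.single_eq_of_ne hj, zero_mul] at h2
    exact h2.symm

theorem sc_Bi {i : Fin r} (a : Fin r → ℂ) {v : E kk} (hv : v ∈ Bi blk i) :
    sc blk a v = a i • v := by
  funext j
  rw [sc_apply]
  by_cases hj : blk j = i
  · rw [hj]; rfl
  · rw [Pi.smul_apply, hv j hj, mul_zero, smul_zero]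

theorem clm_mul_apply (S T : E kk →L[ℂ] E kk) (v : E kk) : (S * T) v = S (T v) := rfl

theorem L_Bi {i : Fin r} (γ : N) {v : E kk} (hv : v ∈ Bi blk i) : B.L γ v ∈ Bi blk i := by
  rw [mem_Bi] at hv ⊢
  rw [← clm_mul_apply, ← B.hL, clm_mul_apply, hv]

theorem U_Bi {i : Fin r} (γ : N) {v : E kk} (hv : v ∈ Bi blk i) : B.U γ v ∈ Bi blk i := by
  rw [mem_Bi] at hv ⊢
  rw [← clm_mul_apply, ← B.U_sc, clm_mul_apply, hv]

theorem proj_Bi (i : Fin r) (v : E kk) : sc blk (Pi.single i 1) v ∈ Bi blk i := by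
  intro j hj
  rw [sc_apply, Pi.single_eq_of_ne hj, zero_mul]

theorem proj_L (γ : N) (i : Fin r) (v : E kk) :
    sc blk (Pi.single i 1) (B.L γ v) = B.L γ (sc blk (Pi.single i 1) v) := by
  rw [← clm_mul_apply, ← B.hL, clm_mul_apply]

theorem L_eq_Bi {i : Fin r} (γ : N) {v : E kk} (hv : v ∈ Bi blk i) :
    B.L γ v = ((B.ν γ i : ℝ) : ℂ) • B.U γ v := by
  rw [B.L_eq, clm_mul_apply, sc_Bi _ (B.U_Bi γ hv)]
  rfl

/-- a fixed vector in a block: the scalar is one -/
theorem ν_of_fixed {i : Fin r} (γ : N) {v : E kk} (hv : v ∈ Bi blk i) (hv0 : v ≠ 0)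
    (h : B.L γ v = v) : B.ν γ i = 1 := by
  have h1 := B.U_herm γ v v
  have hp := B.pos γ i
  have h2 : B.U γ v = (((B.ν γ i)⁻¹ : ℝ) : ℂ) • v := by
    have h3 := B.L_eq_Bi γ hv
    rw [h] at h3
    conv_rhs => rw [h3]
    rw [smul_smul, ← Complex.ofReal_mul, inv_mul_cancel₀ hp.ne', Complex.ofReal_one, one_smul]
  rw [h2, B.hH.smul_left, B.hH.smul_right, Complex.conj_ofReal] at h1
  have h4 : B.H v v ≠ 0 := by
    intro h0
    have h5 := B.hH.pos v hv0
    rw [h0, Complex.zero_re] at h5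
    exact lt_irrefl _ h5
  have h6 : ((((B.ν γ i)⁻¹ * (B.ν γ i)⁻¹ : ℝ) : ℂ)) * B.H v v = 1 * B.H v v := by
    rw [one_mul]
    conv_rhs => rw [← h1]
    push_cast
    ring
  have h7 := mul_right_cancel₀ h4 h6
  have h8 : (B.ν γ i)⁻¹ * (B.ν γ i)⁻¹ = 1 := by exact_mod_cast h7
  have h9 : 0 < (B.ν γ i)⁻¹ := inv_pos.2 hp
  have h10 : (B.ν γ i)⁻¹ = 1 := by nlinarith
  exact inv_eq_one.1 h10

theorem eq_zero_of_blocks {v : E kk} (h : ∀ i : Fin r, sc blk (Pi.single i 1) v = 0) : v = 0 := by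
  funext j
  have h1 := congrFun (h (blk j)) j
  rw [sc_apply, Pi.single_eq_same, one_mul] at h1
  exact h1

theorem ss (γ : N) (v u : E kk) (h1 : B.L γ v = v) (h2 : v = B.L γ u - u) : v = 0 := by
  refine eq_zero_of_blocks (blk := blk) fun i => ?_
  by_contra hne
  set v' := sc blk (Pi.single i 1) v with hv'
  set u' := sc blk (Pi.single i 1) u with hu'
  have hvB : v' ∈ Bi blk i := proj_Bi i v
  have huB : u' ∈ Bi blk i := proj_Bi i u
  have h3 : B.L γ v' = v' := by rw [hv', ← B.proj_L, h1]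
  have h4 : v' = B.L γ u' - u' := by
    rw [hv', hu', ← B.proj_L, ← map_sub, ← h2]
  have hν := B.ν_of_fixed γ hvB hne h3
  have hUv : B.U γ v' = v' := by
    have := B.L_eq_Bi γ hvB
    rw [hν, Complex.ofReal_one, one_smul, h3] at this
    exact this.symm
  have hUu : B.L γ u' = B.U γ u' := by
    have := B.L_eq_Bi γ huB
    rwa [hν, Complex.ofReal_one, one_smul] at this
  have e : v' = B.U γ u' - u' := by rw [← hUu]; exact h4
  have h7 : B.H (B.U γ u') v' = B.H u' v' := by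
    conv_lhs => rw [← hUv]
    exact B.U_herm γ u' v'
  have h5 : B.H v' v' = 0 := by
    calc B.H v' v' = B.H (B.U γ u' - u') v' := by rw [← e]
      _ = 0 := by rw [B.hH.sub_left, h7, sub_self]
  have h6 := B.hH.pos v' hne
  rw [h5, Complex.zero_re] at h6
  exact lt_irrefl _ h6

/-- `L γ - 1` is onto on the blocks where the scalar is not one -/
theorem onto_Bi {i : Fin r} (γ : N) (hν : B.ν γ i ≠ 1) {v : E kk} (hv : v ∈ Bi blk i) :
    ∃ u, v = (B.L γ - 1) u := by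
  have hmap : ∀ v ∈ Bi blk i, (B.L γ - 1) v ∈ Bi blk i := fun v hv =>
    (Bi blk i).sub_mem (B.L_Bi γ hv) hv
  let T0 : E kk →ₗ[ℂ] E kk := (B.L γ - 1 : E kk →L[ℂ] E kk)
  let φ : Bi blk i →ₗ[ℂ] Bi blk i := T0.restrict hmap
  have hinj : Function.Injective φ := by
    rw [injective_iff_map_eq_zero]
    rintro ⟨x, hx⟩ h0
    have h1 : B.L γ x - x = 0 := congrArg Subtype.val h0
    by_contra hne
    have hx0 : x ≠ 0 := fun h => hne (Subtype.ext h)
    exact hν (B.ν_of_fixed γ hx hx0 (sub_eq_zero.1 h1))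
  obtain ⟨u, hu⟩ := LinearMap.injective_iff_surjective.1 hinj ⟨v, hv⟩
  exact ⟨u.1, (congrArg Subtype.val hu).symm⟩

/-- the form is multiplied by the square of the scalar on a block -/
theorem H_Bi {i : Fin r} (γ : N) {v : E kk} (hv : v ∈ Bi blk i) :
    B.H (B.L γ v) (B.L γ v) = ((B.ν γ i ^ 2 : ℝ) : ℂ) * B.H v v := by
  rw [B.L_eq_Bi γ hv, B.hH.smul_left, B.hH.smul_right, Complex.conj_ofReal, B.U_herm]
  push_cast
  ring

end UB

open Classical in
/-- the main result of Z5 -/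
theorem UB.isom {blk : Fin kk → Fin r} {N : Type} [Group N] (B : UB blk N) (c : N → E kk)
    (hc : ∀ γ δ, c (γ * δ) = B.L γ (c δ) + c γ)
    (pd : ∀ R : ℝ, {γ | ∃ z : E kk, ‖z‖ ≤ R ∧ ‖B.L γ z + c γ‖ ≤ R}.Finite)
    (cc : ∃ R : ℝ, ∀ z : E kk, ∃ γ, ‖B.L γ z + c γ‖ ≤ R)
    (h : KMet (univ : Set (E kk)))
    (hinv : ∀ γ z v v', h.h (B.L γ z + c γ) (B.L γ v) (B.L γ v') = h.h z v v')
    (γ : N) (v w : E kk) : B.H (B.L γ v) (B.L γ w) = B.H v w := by
  obtain ⟨C, hC1, hC⟩ := B.U_bd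
  let S : SAct (E kk) N :=
    { U := { toFun := B.U, map_one' := B.U_one, map_mul' := B.U_mul }
      R := { toFun := fun γ => sc blk (B.y γ)
             map_one' := by rw [B.y_one, sc_one]
             map_mul' := fun γ δ => by rw [B.y_mul, sc_mul] }
      c := c
      RR := fun γ δ => UB.sc_comm _ _
      RU := fun γ δ => (B.U_sc δ (B.y γ)).symm
      c_mul := fun γ δ => by
        rw [hc, B.L_eq]
        rfl
      C := C
      hC := hC1
      bd := hC
      pd := fun ρ => (pd (max ρ 0)).subset fun γ hγ => by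
        refine ⟨0, by simp, ?_⟩
        rw [map_zero, zero_add]
        exact le_trans hγ (le_max_left _ _) }
  obtain ⟨N', hfin, hcomm⟩ := S.exists_comm
  have hLc : ∀ γ ∈ N', ∀ δ ∈ N', B.L γ * B.L δ = B.L δ * B.L γ := by
    intro γ hγ δ hδ
    have h1 : B.U γ * B.U δ = B.U δ * B.U γ := hcomm γ hγ δ hδ
    rw [B.L_eq γ, B.L_eq δ]
    calc sc blk (B.y γ) * B.U γ * (sc blk (B.y δ) * B.U δ)
        = sc blk (B.y γ) * (B.U γ * sc blk (B.y δ)) * B.U δ := by simp only [mul_assoc]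
      _ = (sc blk (B.y γ) * sc blk (B.y δ)) * (B.U γ * B.U δ) := by
          rw [B.U_sc]; simp only [mul_assoc]
      _ = (sc blk (B.y δ) * sc blk (B.y γ)) * (B.U δ * B.U γ) := by
          rw [UB.sc_comm, h1]
      _ = sc blk (B.y δ) * (sc blk (B.y γ) * B.U δ) * B.U γ := by simp only [mul_assoc]
      _ = sc blk (B.y δ) * (B.U δ * sc blk (B.y γ)) * B.U γ := by rw [B.U_sc]
      _ = _ := by simp only [mul_assoc]
  obtain ⟨Rp, hRp, hrep⟩ := exists_reps N'
  let A : CAct kk N' :=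
    { L := fun γ => B.L γ.1
      c := fun γ => c γ.1
      L_one := B.L1
      L_mul := fun γ δ => B.Lm γ.1 δ.1
      c_mul := fun γ δ => hc γ.1 δ.1
      comm := fun γ δ => hLc γ.1 γ.2 δ.1 δ.2
      ss := fun γ v u h1 h2 => B.ss γ.1 v u h1 h2
      pd := fun R => (pd R).preimage (f := fun γ : N' => γ.1) Subtype.val_injective.injOn
      cc := by
        obtain ⟨R0, hR0⟩ := cc
        obtain ⟨R1, hR1⟩ : ∃ R1 : ℝ, ∀ s ∈ Rp, ‖B.L s‖ * |R0| + ‖c s‖ ≤ R1 := by
          obtain ⟨M, hM⟩ := (hRp.image fun s => ‖B.L s‖ * |R0| + ‖c s‖).bddAbove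
          exact ⟨M, fun s hs => hM ⟨s, hs, rfl⟩⟩
        refine ⟨R1, fun z => ?_⟩
        obtain ⟨γ, hγ⟩ := hR0 z
        obtain ⟨s, hs, hsγ⟩ := hrep γ
        refine ⟨⟨s * γ, hsγ⟩, le_trans ?_ (hR1 s hs)⟩
        show ‖B.L (s * γ) z + c (s * γ)‖ ≤ _
        have e : B.L (s * γ) z + c (s * γ) = B.L s (B.L γ z + c γ) + c s := by
          rw [hc, B.Lm, map_add]
          show B.L s (B.L γ z) + (B.L s (c γ) + c s) = _
          abel
        rw [e]
        refine (norm_add_le _ _).trans (add_le_add ?_ le_rfl)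
        exact ((B.L s).le_opNorm _).trans
          (mul_le_mul_of_nonneg_left (hγ.trans (le_abs_self R0)) (norm_nonneg _)) }
  have hone : ∀ δ ∈ N', ∀ i, (∃ j, blk j = i) → B.ν δ i = 1 := by
    rintro δ hδ i ⟨j, hj⟩
    by_contra hne
    have hv : (Pi.single j 1 : E kk) ∈ UB.Bi blk i := by
      intro j' hj'
      refine Pi.single_eq_of_ne ?_ _
      rintro rfl
      exact hj' hj
    have hv0 : (Pi.single j 1 : E kk) ≠ 0 := by
      intro h0
      have := congrFun h0 j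
      simp at this
    have h1 := cact_unit A h (fun γ z v v' => hinv γ.1 z v v') B.hH ⟨δ, hδ⟩ (UB.Bi blk i)
      (fun v hv => B.L_Bi δ hv) (fun v hv => B.onto_Bi δ hne hv) (ρ := B.ν δ i ^ 2)
      (pow_pos (B.pos δ i) 2) (fun v hv => B.H_Bi δ hv) hv hv0
    have h2 := B.pos δ i
    apply hne
    nlinarith
  have hall : ∀ j, B.ν γ (blk j) = 1 := by
    intro j
    have hpow : ∀ m : ℕ, B.ν (γ ^ m) (blk j) = B.ν γ (blk j) ^ m := by
      intro m
      induction m with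
      | zero => rw [pow_zero, pow_zero, B.ν_one]
      | succ m ih => rw [pow_succ, B.mul, ih, pow_succ]
    obtain ⟨m, hm, -, hm2⟩ := Subgroup.exists_pow_mem_of_index_ne_zero
      (H := N') hfin.index_ne_zero γ
    have h1 := hone _ hm2 (blk j) ⟨j, rfl⟩
    rw [hpow] at h1
    exact (pow_eq_one_iff_of_nonneg (B.pos γ (blk j)).le hm.ne').1 h1
  have hy : sc blk (B.y γ) = 1 := by
    ext1 v
    funext j
    rw [sc_apply]
    show ((B.ν γ (blk j) : ℝ) : ℂ) * v j = v j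
    rw [hall j, Complex.ofReal_one, one_mul]
  rw [B.L_eq, hy, one_mul]
  exact B.U_herm γ v w

end Pool.Agent.H.MP_e23cd6_ag.CB
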