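import Pool.Agent.H.MP_e23cd6_ag.AK.Mc1
import Pool.Agent.H.MP_e23cd6_ag.CB.M3
import Pool.Agent.H.MP_e23cd6_ag.CB.Z5

/-!
CB/M7: the elements acting trivially on the base are isometric on every fibre.
-/

open Set Filter Topology Metric
open scoped ContDiff ComplexConjugate

namespace Pool.Agent.H.MP_e23cd6_ag.CB

open Pool.Agent.H.MP_e23cd6_ag.AB Pool.Agent.H.MP_e23cd6_ag.AK

variable {n kk r : ℕ} {Ω : Dom n} {Γ : Type} [Group Γ]

theorem ker_isom (A : FibAct Ω kk Γ) (blk : Fin kk → Fin r) (hblk : IsBlk A blk) (hqc : QC A blk)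
    (hpd : BasePD A.toBaseAct) (h : KMet (TM Ω kk)) (hinv : InvMet A.toTotAct h)
    {b : E n} (hb : b ∈ Ω.D) :
    ∃ H : E kk → E kk → ℂ, IsHerm H ∧
      ∀ γ ∈ kerN A.toBaseAct, ∀ v w, H (A.L γ b v) (A.L γ b w) = H v w := by
  have hβ : ∀ γ : kerN A.toBaseAct, A.β γ.1 b = b := fun γ => γ.2 b hb
  obtain ⟨C, hC, hq⟩ := hqc {b} (singleton_subset_iff.2 hb) isCompact_singleton
  have L1 : A.L (1 : kerN A.toBaseAct).1 b = 1 := A.L_one hb
  have Lm : ∀ γ δ : kerN A.toBaseAct, A.L (γ * δ).1 b = A.L γ.1 b * A.L δ.1 b :=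
    fun γ δ => ker_L_mul δ.2 hb
  have hL : ∀ (γ : kerN A.toBaseAct) (x : Fin r → ℂ),
      A.L γ.1 b * sc blk x = sc blk x * A.L γ.1 b := fun γ x => hblk γ.1 b hb x
  obtain ⟨H, hH, hHs, hU⟩ := exists_herm_nu (fun γ : kerN A.toBaseAct => A.L γ.1 b) L1 Lm blk hL hC
    (fun γ i v w hv hw => hq γ.1 b rfl (hβ γ) i v w hv hw)
  let B : UB blk (kerN A.toBaseAct) :=
    { L := fun γ => A.L γ.1 b
      L1 := L1
      Lm := Lm
      hL := hL
      ν := fun γ i => nu blk (A.L γ.1 b) i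
      pos := fun γ i => nu_pos blk (A.L γ.1 b) (A.L (γ⁻¹).1 b)
        (by rw [← Lm, mul_inv_cancel, L1]) (hL γ) (hL γ⁻¹) i
      mul := fun γ δ i => by rw [Lm]; exact nu_mul blk _ _ (hL γ) (hL δ) i
      H := H
      hH := hH
      hHs := hHs
      hU := hU }
  obtain ⟨h', hh'⟩ := exists_fibKMet h hb
  refine ⟨H, hH, fun γ hγ v w => ?_⟩
  refine B.isom (fun γ => A.c γ.1 b) (fun γ δ => ker_c_mul δ.2 hb) ?_ ?_ h' ?_ ⟨γ, hγ⟩ v w
  · intro R
    have hK : (({b} : Set (E n)) ×ˢ closedBall (0 : E kk) R) ⊆ TM Ω kk := by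
      rintro ⟨x, z⟩ ⟨hx, _⟩
      have hx' : x = b := hx
      refine ⟨?_, trivial⟩
      change x ∈ Ω.D
      rw [hx']
      exact hb
    have hKc : IsCompact (({b} : Set (E n)) ×ˢ closedBall (0 : E kk) R) :=
      isCompact_singleton.prod (isCompact_closedBall _ _)
    refine ((A.pd _ hK hKc).preimage (f := fun γ : kerN A.toBaseAct => γ.1)
      Subtype.val_injective.injOn).subset ?_
    rintro γ ⟨z, hz, hz2⟩
    refine ⟨(b, z), ⟨rfl, mem_closedBall_zero_iff.2 hz⟩, ?_⟩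
    rw [A.act_eq γ.1 b hb, hβ γ]
    exact ⟨rfl, mem_closedBall_zero_iff.2 hz2⟩
  · obtain ⟨R, hR⟩ := fib_cc A hpd hb
    refine ⟨R, fun z => ?_⟩
    obtain ⟨γ, hγ, h1⟩ := hR z
    exact ⟨⟨γ, hγ⟩, h1⟩
  · intro γ z v v'
    have h1 := met_ver h hinv γ.1 hb z v v'
    rw [A.act_eq γ.1 b hb, hβ γ] at h1
    rw [hh', hh']
    exact h1

end Pool.Agent.H.MP_e23cd6_ag.CB
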