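import Pool.Agent.H.MP_e23cd6_ag.AK.Tr2

/-!
CB M8: the translations have finite index in the group acting trivially on the base, if that group is isometric for a
Hermitian form on every fibre (no continuity in the base point is needed).

`exists_eact_ker`: copy of `exists_eact` (AK/Tr1). `rigid_ker`: copy of `rigid` (AK/Bnd): the trace of a holomorphic
family of unitary maps is holomorphic with maximum modulus `kk` at a point where the map is `1`.
-/

open Set Filter Topology Metric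

namespace Pool.Agent.H.MP_e23cd6_ag.CB

open Pool.Agent.H.MP_e23cd6_ag.AB Pool.Agent.H.MP_e23cd6_ag.AK

variable {n kk : ℕ} {Ω : Dom n} {Γ : Type} [Group Γ]

/-- The elements acting trivially on the base form a crystallographic group on every fibre on which they are
isometric for a Hermitian form. -/
theorem exists_eact_ker (A : FibAct Ω kk Γ) (hpd : BasePD A.toBaseAct) {b : E n} (hb : b ∈ Ω.D)
    {H : E kk → E kk → ℂ} (hH : IsHerm H)
    (hiso : ∀ γ ∈ kerN A.toBaseAct, ∀ v w, H (A.L γ b v) (A.L γ b w) = H v w) :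
    ∃ (S : E kk ≃ₗ[ℂ] EuclideanSpace ℂ (Fin kk))
      (B : EAct (EuclideanSpace ℂ (Fin kk)) (kerN A.toBaseAct)),
      (∀ (γ : kerN A.toBaseAct) (v : E kk), B.L γ (S v) = S (A.L γ.1 b v)) ∧
      ∀ γ : kerN A.toBaseAct, B.c γ = S (A.c γ.1 b) := by
  obtain ⟨S, hS⟩ := herm_frame hH
  have hnorm : ∀ w : E kk, ‖S w‖ ^ 2 = (H w w).re := by
    intro w
    rw [← hS w w, ← inner_self_eq_norm_sq (𝕜 := ℂ)]
    rfl
  have hiso : ∀ (γ : kerN A.toBaseAct) (w : E kk), ‖S (A.L γ.1 b w)‖ = ‖S w‖ := by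
    intro γ w
    have h1 : H (A.L γ.1 b w) (A.L γ.1 b w) = H w w := hiso γ.1 γ.2 w w
    have h2 : ‖S (A.L γ.1 b w)‖ ^ 2 = ‖S w‖ ^ 2 := by rw [hnorm, hnorm, h1]
    exact (pow_left_inj₀ (norm_nonneg _) (norm_nonneg _) two_ne_zero).1 h2
  obtain ⟨C, hC0, hC⟩ : ∃ C : ℝ, 0 ≤ C ∧ ∀ w : E kk, ‖S w‖ ≤ C * ‖w‖ :=
    ⟨‖LinearMap.toContinuousLinearMap S.toLinearMap‖, norm_nonneg _,
      fun w => (LinearMap.toContinuousLinearMap S.toLinearMap).le_opNorm w⟩
  obtain ⟨C', hC'0, hC'⟩ : ∃ C : ℝ, 0 ≤ C ∧ ∀ w : E kk, ‖w‖ ≤ C * ‖S w‖ :=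
    ⟨‖LinearMap.toContinuousLinearMap S.symm.toLinearMap‖, norm_nonneg _, fun w => by
      have h := (LinearMap.toContinuousLinearMap S.symm.toLinearMap).le_opNorm (S w)
      have e : (LinearMap.toContinuousLinearMap S.symm.toLinearMap) (S w) = w :=
        S.symm_apply_apply w
      rwa [e] at h⟩
  let B : EAct (EuclideanSpace ℂ (Fin kk)) (kerN A.toBaseAct) :=
    { L := fun γ => (S.toLinearMap ∘ₗ (A.L γ.1 b).toLinearMap ∘ₗ
        S.symm.toLinearMap).restrictScalars ℝ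
      c := fun γ => S (A.c γ.1 b)
      L_one := by
        ext1 v
        show S (A.L 1 b (S.symm v)) = v
        rw [A.L_one hb]
        exact S.apply_symm_apply v
      L_mul := by
        intro γ δ
        ext1 v
        show S (A.L (γ.1 * δ.1) b (S.symm v)) = S (A.L γ.1 b (S.symm (S (A.L δ.1 b (S.symm v)))))
        rw [ker_L_mul δ.2 hb, S.symm_apply_apply]
        rfl
      c_one := by
        show S (A.c 1 b) = 0
        rw [A.c_one hb, map_zero]
      c_mul := by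
        intro γ δ
        show S (A.c (γ.1 * δ.1) b) = S (A.L γ.1 b (S.symm (S (A.c δ.1 b)))) + S (A.c γ.1 b)
        rw [ker_c_mul δ.2 hb, map_add, S.symm_apply_apply]
      iso := by
        intro γ v
        show ‖S (A.L γ.1 b (S.symm v))‖ = ‖v‖
        rw [hiso, S.apply_symm_apply]
      pd := by
        intro R
        refine ((fib_pd A hb (C' * R)).preimage Subtype.val_injective.injOn).subset fun γ hγ => ?_
        refine ⟨γ.2, (hC' _).trans (mul_le_mul_of_nonneg_left ?_ hC'0)⟩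
        exact hγ
      cc := by
        obtain ⟨R, hR⟩ := fib_cc A hpd hb
        refine ⟨C * R, fun z => ?_⟩
        obtain ⟨γ, hγ, h⟩ := hR (S.symm z)
        refine ⟨⟨γ, hγ⟩, ?_⟩
        show ‖S (A.L γ b (S.symm z)) + S (A.c γ b)‖ ≤ C * R
        rw [← map_add]
        exact (hC _).trans (mul_le_mul_of_nonneg_left h hC0) }
  refine ⟨S, B, fun γ v => ?_, fun γ => rfl⟩
  show S (A.L γ.1 b (S.symm (S v))) = _
  rw [S.symm_apply_apply]

/-- A holomorphic family of maps, each isometric for some Hermitian form, which is `1` at a point is `1`. -/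
theorem rigid_ker {T : E n → (E kk →L[ℂ] E kk)} (hT : DifferentiableOn ℂ T Ω.D)
    {H : E n → E kk → E kk → ℂ} (hH : ∀ b ∈ Ω.D, IsHerm (H b))
    (hU : ∀ b ∈ Ω.D, ∀ v, H b (T b v) (T b v) = H b v v) {b1 : E n} (hb1 : b1 ∈ Ω.D)
    (h1 : T b1 = 1) : ∀ b ∈ Ω.D, T b = 1 := by
  have hd : DifferentiableOn ℂ (fun b => trCLM kk (T b)) Ω.D :=
    (trCLM kk).differentiable.comp_differentiableOn hT
  have hut : ∀ b ∈ Ω.D, _ := fun b hb =>
    unitary_trace (hH b hb) (T b : E kk →ₗ[ℂ] E kk) (fun v => hU b hb v)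
  have hb1t : trCLM kk (T b1) = kk := by
    rw [trCLM_apply, h1]
    have h2 : ((1 : E kk →L[ℂ] E kk) : E kk →ₗ[ℂ] E kk) = LinearMap.id := rfl
    rw [h2, LinearMap.trace_id]
    simp
  have hmax : IsMaxOn (norm ∘ fun b => trCLM kk (T b)) Ω.D b1 := by
    intro b hb
    show ‖trCLM kk (T b)‖ ≤ ‖trCLM kk (T b1)‖
    rw [hb1t, Complex.norm_natCast]
    exact (hut b hb).1
  have heq := Complex.eqOn_of_isPreconnected_of_isMaxOn_norm Ω.conn Ω.isOpen hd hb1 hmax
  intro b hb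
  have h3 : trCLM kk (T b) = kk := by
    have := heq hb
    simp only [Function.const_apply] at this
    rw [this, hb1t]
  ext1 v
  exact (hut b hb).2 h3 v

/-- The translations have finite index in the group acting trivially on the base, if this group is isometric in
the fibres. -/
theorem tr_index_ker (A : FibAct Ω kk Γ) (hpd : BasePD A.toBaseAct) (H : E n → E kk → E kk → ℂ)
    (hH : ∀ b ∈ Ω.D, IsHerm (H b))
    (hiso : ∀ γ ∈ kerN A.toBaseAct, ∀ b ∈ Ω.D, ∀ v w, H b (A.L γ b v) (A.L γ b w) = H b v w) :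
    ∃ F : Set Γ, F.Finite ∧ (∀ δ ∈ F, δ ∈ kerN A.toBaseAct) ∧
      ∀ γ ∈ kerN A.toBaseAct, ∃ δ ∈ F, δ⁻¹ * γ ∈ trN A := by
  obtain ⟨S, B, hBL, _⟩ := exists_eact_ker A hpd Ω.b0_mem (hH _ Ω.b0_mem)
    fun γ hγ => hiso γ hγ _ Ω.b0_mem
  obtain ⟨F, hF, h⟩ := bieb_index B
  refine ⟨Subtype.val '' F, hF.image _, ?_, fun γ hγ => ?_⟩
  · rintro _ ⟨δ, _, rfl⟩
    exact δ.2
  · obtain ⟨δ, hδ, h1⟩ := h ⟨γ, hγ⟩
    refine ⟨δ.1, ⟨δ, hδ, rfl⟩, ?_⟩
    have hk : δ.1⁻¹ * γ ∈ kerN A.toBaseAct := mul_mem (inv_mem δ.2) hγ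
    have h2 : A.L (δ.1⁻¹ * γ) Ω.b0 = 1 := by
      ext1 v
      have h3 := hBL (δ⁻¹ * ⟨γ, hγ⟩) v
      rw [h1] at h3
      exact (S.injective h3).symm
    exact ⟨hk, rigid_ker (A.L_holo _) hH (fun b hb v => hiso _ hk b hb v v) Ω.b0_mem h2⟩

end Pool.Agent.H.MP_e23cd6_ag.CB
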