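import Pool.Agent.H.MP_e23cd6_ag.CB.M0
import Pool.Agent.H.MP_e23cd6_ag.CB.M1
import Pool.Agent.H.MP_e23cd6_ag.CB.M2
import Pool.Agent.H.MP_e23cd6_ag.CB.M4
import Pool.Agent.H.MP_e23cd6_ag.CB.M5
import Pool.Agent.H.MP_e23cd6_ag.CB.M7
import Pool.Agent.H.MP_e23cd6_ag.CB.M8
import Pool.Agent.H.MP_e23cd6_ag.AK.MainM
import Pool.Agent.H.MP_e23cd6_ag.AK.E9

/-!
CB Main: compact Kaehler quotients of (bounded domain) × ℂ^k whose leaves are products of quasiconformally flat blocks.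
-/

open Set Filter Topology Metric MeasureTheory
open scoped ContDiff ComplexConjugate

namespace Pool.Agent.H.MP_e23cd6_ag.CB

open Pool.Agent.H.MP_e23cd6_ag.AB Pool.Agent.H.MP_e23cd6_ag.AK

variable {n kk r : ℕ} {Ω : Dom n} {Γ : Type} [Group Γ]

/-! ### M6 (helper17): no limit fields -/

theorem no_perfect_cb (A : FibAct Ω kk Γ) (blk : Fin kk → Fin r) (hblk : IsBlk A blk) (hqc : QC A blk)
    (P : Submodule ℝ (Lie A.toBaseAct))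
    (hP : ∀ δ, ∀ X ∈ P, AdL A.toBaseAct δ X ∈ P)
    (hperf : P ≤ Submodule.span ℝ {Z | ∃ X ∈ P, ∃ Y ∈ P, Z = brL A.toBaseAct X Y}) : P = ⊥ := by
  by_contra hne
  obtain ⟨q, δ, hq, hδ, h⟩ := comm_trivial_cb A blk hblk
  obtain ⟨η, N, hη, hpig⟩ := pigeon_blk A blk hblk hqc hδ
  obtain ⟨S0, hfin, hR, hS⟩ := small_comm_pred A.toBaseAct P hP hne hperf
    (fun s => Near A blk δ s) hη N hpig hq
  obtain ⟨k, hk⟩ := h S0 hfin hR (fun k => (hS k).1)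
  obtain ⟨s, hs, b, hb, hne'⟩ := (hS k).2
  exact hne' (hk s hs b hb)

theorem base_pd_cb (A : FibAct Ω kk Γ) (blk : Fin kk → Fin r) (hblk : IsBlk A blk) (hqc : QC A blk)
    (h : KMet (TM Ω kk)) (hinv : InvMet A.toTotAct h) : BasePD A.toBaseAct := by
  refine base_pd A.toBaseAct fun X => ?_
  by_contra hX
  obtain ⟨P, hne, hst, hab⟩ := exists_abelian_of A.toBaseAct (no_perfect_cb A blk hblk hqc) ⟨X, hX⟩
  exact hne (no_abelian A.toTotAct h hinv P hst hab)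

/-! ### M9 (helper17): assembly -/

theorem main_cb (A : TotAct Ω kk Γ) (blk : Fin kk → Fin r) (hp : PermBlk A blk) (hq : QCT A blk)
    (h : KMet (TM Ω kk)) (hinv : InvMet A h) :
    ∃ B : FibAct Ω kk Γ, B.toTotAct = A ∧
    BasePD B.toBaseAct ∧ TrCC B ∧ ∃ m : ℕ, 0 < m ∧ ∀ b ∈ Ω.D, ∃ F, WtF B m F ∧ F b ≠ 0 := by
  obtain ⟨B, hB, G, hG, hblk, hqc⟩ := exists_qfib A blk hp hq
  subst hB
  have hinv' : InvMet (resFib B G).toTotAct h := fun γ => hinv γ.1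
  have hpd' : BasePD (resFib B G).toBaseAct := base_pd_cb _ blk hblk hqc h hinv'
  have hpd : BasePD B.toBaseAct := basePD_of_res B G hpd'
  choose! H hH hiso using fun (b : E n) (hb : b ∈ Ω.D) => ker_isom _ blk hblk hqc hpd' h hinv' hb
  obtain ⟨F, hF, hFk, hF2⟩ := tr_index_of_res B G (tr_index_ker _ hpd' H hH
    fun γ hγ b hb v w => hiso b hb γ hγ v w)
  obtain ⟨hcc, m0, hm0, hker⟩ := tr_cc_of_index B hpd hF hFk hF2
  exact ⟨B, rfl, hpd, hcc, glob_gen_fib B hpd hcc hm0 hker h hinv⟩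

theorem mainCB {n kk : ℕ} {D : Set (E n)} (hD : IsOpen D) (hconn : IsPreconnected D)
    (hbdd : Bornology.IsBounded D) {Γ : Type} [Group Γ] (g : Γ → E n × E kk → E n × E kk)
    (maps : ∀ γ, MapsTo (g γ) (D ×ˢ univ) (D ×ˢ univ))
    (holo : ∀ γ, DifferentiableOn ℂ (g γ) (D ×ˢ univ))
    (one : ∀ x ∈ D ×ˢ (univ : Set (E kk)), g 1 x = x)
    (mul : ∀ γ δ, ∀ x ∈ D ×ˢ (univ : Set (E kk)), g (γ * δ) x = g γ (g δ x))
    (pd : ∀ K ⊆ D ×ˢ (univ : Set (E kk)), IsCompact K → {γ | (g γ '' K ∩ K).Nonempty}.Finite)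
    (cc : ∃ K ⊆ D ×ˢ (univ : Set (E kk)), IsCompact K ∧
      ∀ x ∈ D ×ˢ (univ : Set (E kk)), ∃ γ, g γ x ∈ K)
    (h : KMet (D ×ˢ (univ : Set (E kk))))
    (hinv : ∀ γ, ∀ x ∈ D ×ˢ (univ : Set (E kk)), ∀ v w,
      h.h (g γ x) (fderiv ℂ (g γ) x v) (fderiv ℂ (g γ) x w) = h.h x v w)
    {r : ℕ} (blk : Fin kk → Fin r)
    (hperm : ∀ γ, ∃ σ : Equiv.Perm (Fin r), ∀ b ∈ D, ∀ z z' : E kk, ∀ i,
      (∀ j, blk j = σ i → z j = z' j) → ∀ j, blk j = i → (g γ (b, z)).2 j = (g γ (b, z')).2 j)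
    (hecc : ∀ K ⊆ D, IsCompact K → ∃ C : ℝ, ∀ b ∈ K, ∀ z : E kk, ∀ i, ∀ v w : E kk,
      (∀ j, blk j ≠ i → v j = 0) → (∀ j, blk j ≠ i → w j = 0) →
      (h.h (b, z) (0, v) (0, v)).re * ‖w‖ ^ 2 ≤ C * ((h.h (b, z) (0, w) (0, w)).re * ‖v‖ ^ 2)) :
    (∃ m : ℕ, 0 < m ∧ ∀ x ∈ D ×ˢ (univ : Set (E kk)), ∃ F : E n × E kk → ℂ,
      DifferentiableOn ℂ F (D ×ˢ univ) ∧
      (∀ γ, ∀ y ∈ D ×ˢ (univ : Set (E kk)), F (g γ y) * (fderiv ℂ (g γ) y).det ^ m = F y) ∧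
      (∀ b z, F (b, z) = F (b, 0)) ∧ F x ≠ 0) ∧
    (∀ K ⊆ D, IsCompact K →
      {f : D → E n | ∃ γ, (∃ b ∈ K, (g γ (b, 0)).1 ∈ K) ∧
        f = fun b : D => (g γ ((b : E n), 0)).1}.Finite) ∧
    ∀ b ∈ D, ∃ R : ℝ, ∀ z : E kk, ∃ γ, ∃ c : E kk, (∀ w, g γ (b, w) = (b, w + c)) ∧
      ‖z + c‖ ≤ R := by
  classical
  rcases D.eq_empty_or_nonempty with rfl | ⟨b0, hb0⟩
  · refine ⟨⟨1, one_pos, fun x hx => absurd hx.1 (by simp)⟩, fun K hK _ => ?_,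
      fun b hb => absurd hb (by simp)⟩
    refine Set.Finite.subset (Set.finite_empty) ?_
    rintro f ⟨γ, ⟨b, hb, -⟩, -⟩
    exact absurd (hK hb) (by simp)
  · obtain ⟨s, hs, hball⟩ := Metric.nhds_basis_closedBall.mem_iff.mp (hD.mem_nhds hb0)
    let Ω : Dom n := ⟨D, hD, hconn, hbdd, b0, s / 2, s, by linarith, by linarith, hball⟩
    obtain ⟨A0, rfl⟩ := exists_totAct Ω kk g maps holo one mul pd cc
    have hp : PermBlk A0 blk := hperm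
    obtain ⟨A, rfl, hpd, hcc, m, hm, hF⟩ := main_cb A0 blk hp (qct_of_metric A0 h hinv blk hp hecc) h hinv
    have hfst : ∀ γ, ∀ b ∈ D, (A.act γ (b, 0)).1 = A.β γ b := fun γ b hb => by
      rw [A.act_eq γ b hb]
    refine ⟨⟨m, hm, ?_⟩, ?_, ?_⟩
    · rintro ⟨b, z⟩ hx
      obtain ⟨F, hW, hne⟩ := hF b hx.1
      refine ⟨fun y => F y.1, ?_, ?_, fun _ _ => rfl, hne⟩
      · exact hW.1.comp differentiableOn_fst (fun y hy => hy.1)
      · rintro γ ⟨b', z'⟩ hy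
        have h1 := det_fib A γ hy
        have h2 := hW.2 γ b' hy.1
        show F (A.act γ (b', z')).1 * (fderiv ℂ (A.act γ) (b', z')).det ^ m = F b'
        rw [h1, A.act_eq γ b' hy.1 z']
        exact h2
    · intro K hK hKc
      obtain ⟨F, hFf, hF'⟩ := hpd K hK hKc
      refine Set.Finite.subset (hFf.image fun δ => fun b : D => A.β δ b) ?_
      rintro f ⟨γ, ⟨b, hb, hbK⟩, rfl⟩
      rw [hfst γ b (hK hb)] at hbK
      obtain ⟨δ, hδ, hδ'⟩ := hF' γ ⟨b, hb, hbK⟩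
      refine ⟨δ, hδ, ?_⟩
      funext b
      rw [hfst γ b b.2]
      exact (hδ' b b.2).symm
    · intro b hb
      obtain ⟨R, hR⟩ := hcc b hb
      refine ⟨R, fun z => ?_⟩
      obtain ⟨t, ht, htz⟩ := hR z
      exact ⟨t, A.c t b, fun w => tr_act ht hb w, htz⟩

end Pool.Agent.H.MP_e23cd6_ag.CB
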