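import Pool.Agent.H.MP_e23cd6_ag.AB.A6

/-!
CB Aff: entire maps which are conformal for Hermitian forms are affine in dimension at least two.
-/

set_option autoImplicit false

open scoped ComplexConjugate

namespace Pool.Agent.H.MP_e23cd6_ag.CB

open Pool.Agent.H.MP_e23cd6_ag.AB

/-- a positive definite Hermitian form (complex linear in the first variable) -/
structure IsHermV {V : Type} [AddCommGroup V] [Module ℂ V] (H : V → V → ℂ) : Prop where
  add_left : ∀ u v w, H (u + v) w = H u w + H v w
  smul_left : ∀ (a : ℂ) (v w : V), H (a • v) w = a * H v w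
  herm : ∀ v w, H w v = conj (H v w)
  pos : ∀ v, v ≠ 0 → 0 < (H v v).re

namespace IsHermV

variable {V : Type} [AddCommGroup V] [Module ℂ V] {H : V → V → ℂ} (h : IsHermV H)
include h

theorem add_right (u v w : V) : H u (v + w) = H u v + H u w := by
  rw [h.herm (v + w) u, h.add_left, map_add, ← h.herm, ← h.herm]

theorem smul_right (a : ℂ) (v w : V) : H v (a • w) = conj a * H v w := by
  rw [h.herm (a • w) v, h.smul_left, map_mul, ← h.herm]

theorem sub_left (u v w : V) : H (u - v) w = H u w - H v w := by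
  have h1 := h.smul_left (-1) v w
  rw [sub_eq_add_neg, ← neg_one_smul ℂ v, h.add_left, h1]
  ring

theorem self_ne {v : V} (hv : v ≠ 0) : H v v ≠ 0 := by
  intro h0
  have h1 := h.pos v hv
  rw [h0] at h1
  simp at h1

theorem eq_zero {v : V} (hv : H v v = 0) : v = 0 := by
  by_contra h0
  exact h.self_ne h0 hv

end IsHermV

/-- An entire map between spaces of the same dimension at least two whose derivatives are conformal
for fixed Hermitian forms has constant derivative. -/
theorem conf_const {V W : Type} [NormedAddCommGroup V] [NormedSpace ℂ V] [FiniteDimensional ℂ V]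
    [NormedAddCommGroup W] [NormedSpace ℂ W] [FiniteDimensional ℂ W] {H : V → V → ℂ}
    {H' : W → W → ℂ} (hH : IsHermV H) (hH' : IsHermV H') {f : V → W} (hf : Differentiable ℂ f)
    (hconf : ∀ z, ∃ ρ : ℝ, 0 < ρ ∧ ∀ v w, H' (fderiv ℂ f z v) (fderiv ℂ f z w) = ρ * H v w)
    (hdim : Module.finrank ℂ W = Module.finrank ℂ V) (h2 : 2 ≤ Module.finrank ℂ V) (z : V) :
    fderiv ℂ f z = fderiv ℂ f 0 := by
  obtain ⟨J, hJ⟩ : ∃ J, J = fderiv ℂ f := ⟨_, rfl⟩
  rw [← hJ] at hconf ⊢
  have hJd : Differentiable ℂ J := by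
    rw [hJ, ← differentiableOn_univ]
    exact holo_fderiv isOpen_univ (differentiableOn_univ.2 hf)
  choose ρ hρ hconf using hconf
  -- injectivity and surjectivity
  have hinj : ∀ z, Function.Injective (J z) := by
    intro z
    rw [injective_iff_map_eq_zero]
    intro v hv
    by_contra h0
    have h1 := hconf z v v
    have h3 : H' (J z v) (J z v) = 0 := by
      rw [hv]
      have := hH'.smul_left 0 (0 : W) 0
      simpa using this
    rw [h3] at h1
    have h4 : (ρ z : ℂ) ≠ 0 := by exact_mod_cast (hρ z).ne'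
    exact mul_ne_zero h4 (hH.self_ne h0) h1.symm
  have hsurj : ∀ z, Function.Surjective (J z) := by
    intro z
    have h1 : Function.Injective (J z : V →ₗ[ℂ] W) := hinj z
    exact (LinearMap.injective_iff_surjective_of_finrank_eq_finrank hdim.symm).1 h1
  -- the real bilinear form
  let B0 : W →ₗ[ℝ] W →ₗ[ℝ] ℂ := LinearMap.mk₂ ℝ H' hH'.add_left
    (fun a v w => by
      rw [← Complex.coe_smul, hH'.smul_left, ← smul_eq_mul, Complex.coe_smul])
    hH'.add_right
    (fun a v w => by
      rw [← Complex.coe_smul, hH'.smul_right, Complex.conj_ofReal, ← smul_eq_mul,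
        Complex.coe_smul])
  have : FiniteDimensional ℝ W := FiniteDimensional.complexToReal W
  have : FiniteDimensional ℝ V := FiniteDimensional.complexToReal V
  let B : W →L[ℝ] W →L[ℝ] ℂ := B0.toContinuousBilinearMap
  have hB : ∀ v w, B v w = H' v w := fun v w => rfl
  -- derivatives of `J`
  obtain ⟨D, hD⟩ : ∃ D : V → V → V → W, ∀ z u v, D z u v = fderiv ℂ J z u v :=
    ⟨_, fun _ _ _ => rfl⟩
  have hJr : ∀ z v u, HasFDerivAt (fun z => J z v)
      (((ContinuousLinearMap.apply ℂ W v).comp (fderiv ℂ J z)).restrictScalars ℝ) z ∧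
      ((ContinuousLinearMap.apply ℂ W v).comp (fderiv ℂ J z)).restrictScalars ℝ u = D z u v := by
    intro z v u
    refine ⟨?_, ?_⟩
    · have h1 : HasFDerivAt (fun z => J z v)
          ((ContinuousLinearMap.apply ℂ W v).comp (fderiv ℂ J z)) z :=
        (ContinuousLinearMap.apply ℂ W v).hasFDerivAt.comp z (hJd z).hasFDerivAt
      exact h1.restrictScalars ℝ
    · rw [hD]
      rfl
  have hDI : ∀ z u v, D z (Complex.I • u) v = Complex.I • D z u v := by
    intro z u v
    rw [hD, hD, map_smul]
    rfl
  -- the complex derivative of the Gram function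
  obtain ⟨F, hF⟩ : ∃ F : V → V → V → ℂ, ∀ v w z, F v w z = H' (J z v) (J z w) :=
    ⟨_, fun _ _ _ => rfl⟩
  have hFd : ∀ v w z, ∃ L : V →L[ℝ] ℂ, HasFDerivAt (F v w) L z ∧
      ∀ u, L u = H' (J z v) (D z u w) + H' (D z u v) (J z w) := by
    intro v w z
    have h1 := B.hasFDerivAt_of_bilinear (hJr z v 0).1 (hJr z w 0).1
    have e : F v w = fun z => B (J z v) (J z w) := by
      funext z
      rw [hF, hB]
    rw [e]
    refine ⟨_, h1, fun u => ?_⟩
    show B (J z v) (((ContinuousLinearMap.apply ℂ W w).comp (fderiv ℂ J z)).restrictScalars ℝ u) +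
      B (((ContinuousLinearMap.apply ℂ W v).comp (fderiv ℂ J z)).restrictScalars ℝ u) (J z w) = _
    rw [(hJr z v u).2, (hJr z w u).2]
    rfl
  have hdz : ∀ v w z u, (fderiv ℝ (F v w) z u - Complex.I * fderiv ℝ (F v w) z (Complex.I • u)) =
      2 * H' (D z u v) (J z w) := by
    intro v w z u
    obtain ⟨L, hL, hLu⟩ := hFd v w z
    rw [hL.fderiv, hLu, hLu, hDI, hDI, hH'.smul_left, hH'.smul_right, Complex.conj_I]
    ring_nf
    rw [Complex.I_sq]
    ring
  -- a unit vector
  have hnt : ∃ e : V, e ≠ 0 := by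
    have : Nontrivial V := Module.nontrivial_of_finrank_pos (R := ℂ) (by omega)
    exact exists_ne 0
  obtain ⟨e, he⟩ := hnt
  have hFe : ∀ v w z, F v w z = (H v w / H e e) * F e e z := by
    intro v w z
    rw [hF, hF, hconf, hconf]
    have := hH.self_ne he
    field_simp
  have key : ∀ z u v w, H' (D z u v) (J z w) = (H v w / H e e) * H' (D z u e) (J z e) := by
    intro z u v w
    have h1 := hdz v w z u
    have h3 : F v w = fun z => (H v w / H e e) * F e e z := funext fun z => hFe v w z
    obtain ⟨L, hL, _⟩ := hFd e e z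
    have h4 : fderiv ℝ (F v w) z = (H v w / H e e) • L := by
      rw [h3]
      exact (hL.const_mul (H v w / H e e)).fderiv
    have h5 := hdz e e z u
    rw [hL.fderiv] at h5
    rw [h4, smul_apply, smul_apply, smul_eq_mul,
      smul_eq_mul] at h1
    linear_combination (-1 / 2 : ℂ) * h1 + (1 / 2 : ℂ) * (H v w / H e e) * h5
  -- the second derivative is a multiple of the first one
  obtain ⟨c, hc⟩ : ∃ c : V → V → ℂ, ∀ z u, c z u = H' (D z u e) (J z e) / (H e e * ρ z) :=
    ⟨_, fun _ _ => rfl⟩
  have hDc : ∀ z u v, D z u v = c z u • J z v := by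
    intro z u v
    rw [← sub_eq_zero]
    apply hH'.eq_zero
    obtain ⟨w, hw⟩ := hsurj z (D z u v - c z u • J z v)
    have h1 : H' (D z u v - c z u • J z v) (J z w) = 0 := by
      rw [hH'.sub_left, hH'.smul_left, key, hconf, hc]
      have h3 := hH.self_ne he
      have h4 : (ρ z : ℂ) ≠ 0 := by exact_mod_cast (hρ z).ne'
      field_simp
      ring
    rwa [hw] at h1
  have hsymm : ∀ z u v, D z u v = D z v u := by
    intro z u v
    rw [hD, hD, hJ]
    have h1 : ∀ y, HasFDerivAt (𝕜 := ℂ) f (J y) y := fun y => by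
      rw [hJ]
      exact (hf y).hasFDerivAt
    have h3 : HasFDerivAt (𝕜 := ℂ) J (fderiv ℂ J z) z := (hJd z).hasFDerivAt
    have h4 := second_derivative_symmetric h1 h3 u v
    rw [hJ] at h4
    exact h4
  have hc0 : ∀ z u, c z u = 0 := by
    intro z u
    by_cases hu : u = 0
    · rw [hc]
      have : D z u e = 0 := by
        rw [hD, hu, map_zero]
        rfl
      rw [this]
      have h3 : H' 0 (J z e) = 0 := by
        have := hH'.smul_left 0 (0 : W) (J z e)
        simpa using this
      rw [h3, zero_div]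
    · obtain ⟨v, hv⟩ : ∃ v : V, v ∉ Submodule.span ℂ {u} := by
        by_contra hcon
        push Not at hcon
        have h3 : Submodule.span ℂ {u} = ⊤ := Submodule.eq_top_iff'.2 hcon
        have h4 := finrank_span_singleton (K := ℂ) hu
        rw [h3, finrank_top] at h4
        omega
      have h3 := hsymm z u v
      rw [hDc, hDc, ← map_smul, ← map_smul] at h3
      have h4 := hinj z h3
      by_contra hne
      apply hv
      rw [Submodule.mem_span_singleton]
      refine ⟨(c z u)⁻¹ * c z v, ?_⟩
      rw [mul_smul, ← h4, smul_smul, inv_mul_cancel₀ hne, one_smul]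
  have hfd : ∀ z, fderiv ℂ J z = 0 := by
    intro z
    ext u v
    have h1 := hDc z u v
    rw [hc0, zero_smul, hD] at h1
    exact h1
  exact is_const_of_fderiv_eq_zero hJd hfd z 0

end Pool.Agent.H.MP_e23cd6_ag.CB
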