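import Pool.Agent.H.MP_e23cd6_ag.CB.Defs

/-!
CB M0: the derivatives of the fibre maps permute the blocks; an invariant metric with locally bounded eccentricity on the
blocks makes the fibre maps uniformly quasiconformal on the blocks.
-/

open Set Filter Topology Metric
open scoped ContDiff ComplexConjugate

namespace Pool.Agent.H.MP_e23cd6_ag.CB

open Pool.Agent.H.MP_e23cd6_ag.AB Pool.Agent.H.MP_e23cd6_ag.AK

variable {n kk r : ℕ} {Ω : Dom n} {Γ : Type} [Group Γ]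

theorem act_diffAt (A : TotAct Ω kk Γ) (γ : Γ) {b : E n} (hb : b ∈ Ω.D) (z : E kk) :
    DifferentiableAt ℂ (A.act γ) (b, z) :=
  (A.tholo γ).differentiableAt ((TM_open Ω kk).mem_nhds ⟨hb, trivial⟩)

theorem fib_hasFDerivAt (A : TotAct Ω kk Γ) (γ : Γ) {b : E n} (hb : b ∈ Ω.D) (z : E kk) :
    HasFDerivAt (fun z : E kk => A.act γ (b, z))
      ((fderiv ℂ (A.act γ) (b, z)).comp (ContinuousLinearMap.inr ℂ (E n) (E kk))) z :=
  (act_diffAt A γ hb z).hasFDerivAt.comp z (hasFDerivAt_prodMk_right b z)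

theorem fib_diff (A : TotAct Ω kk Γ) (γ : Γ) {b : E n} (hb : b ∈ Ω.D) :
    Differentiable ℂ (fun z : E kk => (A.act γ (b, z)).2) :=
  fun z => (fib_hasFDerivAt A γ hb z).differentiableAt.snd

/-- the derivative of the group element in the fibre directions -/
theorem fderiv_ver (A : TotAct Ω kk Γ) (γ : Γ) {b : E n} (hb : b ∈ Ω.D) (z v : E kk) :
    fderiv ℂ (A.act γ) (b, z) (0, v) = (0, DF A γ b z v) := by
  have h1 := fib_hasFDerivAt A γ hb z
  have h2 : HasFDerivAt (fun z : E kk => (A.act γ (b, z)).1) (0 : E kk →L[ℂ] E n) z := by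
    have e : (fun z : E kk => (A.act γ (b, z)).1) = fun _ => A.β γ b := by
      funext z
      exact A.fst γ (b, z) ⟨hb, trivial⟩
    rw [e]
    exact hasFDerivAt_const _ _
  refine Prod.ext ?_ ?_
  · have h3 := congrArg (fun T : E kk →L[ℂ] E n => T v) (h1.fst.unique h2)
    exact h3
  · have h3 := congrArg (fun T : E kk →L[ℂ] E kk => T v) h1.snd.fderiv
    exact h3.symm

/-- the derivatives of the fibre maps permute the blocks -/
theorem DF_InB (A : TotAct Ω kk Γ) {blk : Fin kk → Fin r} (hp : PermBlk A blk) (γ : Γ) (i : Fin r) :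
    ∃ i' : Fin r, ∀ b ∈ Ω.D, ∀ z v : E kk, InB blk i v → InB blk i' (DF A γ b z v) := by
  obtain ⟨σ, hσ⟩ := hp γ
  refine ⟨σ.symm i, fun b hb z v hv j hj => ?_⟩
  have h1 : HasDerivAt (fun t : ℂ => (A.act γ (b, z + t • v)).2) (DF A γ b z v) 0 := by
    have h2 : HasFDerivAt (fun z : E kk => (A.act γ (b, z)).2) (DF A γ b z) (z + (0 : ℂ) • v) := by
      rw [zero_smul, add_zero]
      exact (fib_diff A γ hb z).hasFDerivAt
    have h3 : HasDerivAt (fun t : ℂ => z + t • v) v 0 := by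
      simpa using ((hasDerivAt_id (0 : ℂ)).smul_const v).const_add z
    exact h2.comp_hasDerivAt (0 : ℂ) h3
  have h2 := (hasDerivAt_pi.1 h1) j
  have h3 : (fun t : ℂ => (A.act γ (b, z + t • v)).2 j) = fun _ => (A.act γ (b, z)).2 j := by
    funext t
    refine hσ b hb _ _ (blk j) (fun l hl => ?_) j rfl
    have hl' : blk l ≠ i := by
      rintro rfl
      apply hj
      rw [hl, Equiv.symm_apply_apply]
    simp [hv l hl']
  rw [h3] at h2
  exact h2.unique (hasDerivAt_const 0 _)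

theorem qct_of_metric (A : TotAct Ω kk Γ) (h : KMet (TM Ω kk)) (hinv : InvMet A h)
    (blk : Fin kk → Fin r) (hp : PermBlk A blk)
    (hQ : ∀ K ⊆ Ω.D, IsCompact K → ∃ C : ℝ, ∀ b ∈ K, ∀ z : E kk, ∀ i, ∀ v w : E kk, InB blk i v →
      InB blk i w → (h.h (b, z) (0, v) (0, v)).re * ‖w‖ ^ 2 ≤ C * ((h.h (b, z) (0, w) (0, w)).re * ‖v‖ ^ 2)) :
    QCT A blk := by
  intro K hK hKc
  obtain ⟨C, hC⟩ := hQ K hK hKc
  refine ⟨max C 1, lt_of_lt_of_le one_pos (le_max_right _ _), ?_⟩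
  intro γ b hb hb' z i v w hv hw
  have hbD := hK hb
  have hC1 : 0 < max C 1 := lt_of_lt_of_le one_pos (le_max_right _ _)
  have hmem : ∀ z : E kk, (b, z) ∈ TM Ω kk := fun z => ⟨hbD, trivial⟩
  have hmem' : ∀ z : E kk, (A.β γ b, z) ∈ TM Ω kk := fun z => ⟨hK hb', trivial⟩
  by_cases hv0 : v = 0
  · rw [hv0]; simp
  by_cases hw0 : w = 0
  · rw [hw0]; simp
  obtain ⟨i', hi'⟩ := DF_InB A hp γ i
  have e1 : A.act γ (b, z) = (A.β γ b, (A.act γ (b, z)).2) :=
    Prod.ext (A.fst γ _ (hmem z)) rfl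
  have hi : ∀ u : E kk, h.h (A.β γ b, (A.act γ (b, z)).2) (0, DF A γ b z u) (0, DF A γ b z u) =
      h.h (b, z) (0, u) (0, u) := by
    intro u
    have h1 := hinv γ (b, z) (hmem z) (0, u) (0, u)
    rw [fderiv_ver A γ hbD, e1] at h1
    exact h1
  have a1 := hC (A.β γ b) hb' (A.act γ (b, z)).2 i' (DF A γ b z w) (DF A γ b z v)
    (hi' b hbD z w hw) (hi' b hbD z v hv)
  have a2 := hC b hb z i v w hv hw
  rw [hi, hi] at a1
  have pv : 0 < (h.h (b, z) (0, v) (0, v)).re := h.pos _ (hmem z) _ fun h0 => hv0 (Prod.ext_iff.1 h0).2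
  have pw : 0 < (h.h (b, z) (0, w) (0, w)).re := h.pos _ (hmem z) _ fun h0 => hw0 (Prod.ext_iff.1 h0).2
  set p := (h.h (b, z) (0, v) (0, v)).re
  set q := (h.h (b, z) (0, w) (0, w)).re
  have b1 : q * ‖DF A γ b z v‖ ^ 2 ≤ max C 1 * (p * ‖DF A γ b z w‖ ^ 2) :=
    a1.trans (mul_le_mul_of_nonneg_right (le_max_left _ _) (by positivity))
  have b2 : p * ‖w‖ ^ 2 ≤ max C 1 * (q * ‖v‖ ^ 2) :=
    a2.trans (mul_le_mul_of_nonneg_right (le_max_left _ _) (by positivity))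
  have b3 : (q * ‖DF A γ b z v‖ ^ 2) * (p * ‖w‖ ^ 2) ≤
      (max C 1 * (p * ‖DF A γ b z w‖ ^ 2)) * (max C 1 * (q * ‖v‖ ^ 2)) :=
    mul_le_mul b1 b2 (by positivity) (by positivity)
  have b4 : (p * q) * (‖DF A γ b z v‖ * ‖w‖) ^ 2 ≤
      (p * q) * (max C 1 * (‖DF A γ b z w‖ * ‖v‖)) ^ 2 := by
    calc (p * q) * (‖DF A γ b z v‖ * ‖w‖) ^ 2 = (q * ‖DF A γ b z v‖ ^ 2) * (p * ‖w‖ ^ 2) := by ring
      _ ≤ _ := b3
      _ = _ := by ring
  have b5 := le_of_mul_le_mul_left b4 (mul_pos pv pw)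
  exact (pow_le_pow_iff_left₀ (by positivity) (by positivity) two_ne_zero).1 b5

end Pool.Agent.H.MP_e23cd6_ag.CB
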