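import Pool.Agent.H.MP_e23cd6_ag.CB.M3b

/-!
CB/M3a: block determinants `bdet` and the factors `nu = |bdet|^(1/size)` of a linear map preserving the blocks; a block which
is quasiconformal is bounded by its factor.
-/

open Set Filter Topology Metric
open scoped ContDiff ComplexConjugate

namespace Pool.Agent.H.MP_e23cd6_ag.CB

open Pool.Agent.H.MP_e23cd6_ag.AB Pool.Agent.H.MP_e23cd6_ag.AK

variable {kk r : ℕ}

/-- the determinant of the block `i` of a linear map -/
noncomputable def bdet (blk : Fin kk → Fin r) (i : Fin r) (T : E kk →L[ℂ] E kk) : ℂ :=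
  (sc blk (Pi.single i 1) * T + sc blk (1 - Pi.single i 1)).det

/-- size of the block -/
def bsz (blk : Fin kk → Fin r) (i : Fin r) : ℕ := (Finset.univ.filter fun j => blk j = i).card

/-- the factors `|bdet|^(1/size)` -/
noncomputable def nu (blk : Fin kk → Fin r) (T : E kk →L[ℂ] E kk) (i : Fin r) : ℝ :=
  ‖bdet blk i T‖ ^ ((bsz blk i : ℝ)⁻¹)

/-- the determinant in matrix form -/
theorem det_eq_mat (T : E kk →L[ℂ] E kk) :
    T.det = (Matrix.of fun i j => T (Pi.single j 1) i : Matrix (Fin kk) (Fin kk) ℂ).det := by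
  have h : T.det = LinearMap.det (T : E kk →ₗ[ℂ] E kk) := rfl
  rw [h, ← LinearMap.det_toMatrix']
  congr 1

theorem det_mul' (T S : E kk →L[ℂ] E kk) : (T * S).det = T.det * S.det := by
  show LinearMap.det ((T : E kk →ₗ[ℂ] E kk) ∘ₗ (S : E kk →ₗ[ℂ] E kk)) = _
  rw [LinearMap.det_comp]

theorem det_one' : (1 : E kk →L[ℂ] E kk).det = 1 := by
  show LinearMap.det (LinearMap.id : E kk →ₗ[ℂ] E kk) = 1
  exact LinearMap.det_id

/-- the determinant of the block scalars -/
theorem det_sc (blk : Fin kk → Fin r) (x : Fin r → ℂ) : (sc blk x).det = ∏ j, x (blk j) := by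
  rw [det_eq_mat]
  have : (Matrix.of fun i j => sc blk x (Pi.single j 1) i : Matrix (Fin kk) (Fin kk) ℂ) =
      Matrix.diagonal fun j => x (blk j) := by
    ext i j
    rw [Matrix.of_apply, sc_apply, Matrix.diagonal_apply]
    by_cases h : i = j
    · subst h; simp
    · simp [h]
  rw [this, Matrix.det_diagonal]

/-- the determinant is differentiable -/
theorem det_diff : Differentiable ℂ fun T : E kk →L[ℂ] E kk => T.det := by
  have h : (fun T : E kk →L[ℂ] E kk => T.det) = fun T => ∑ σ : Equiv.Perm (Fin kk),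
      ((Equiv.Perm.sign σ : ℤ) : ℂ) * ∏ i, T (Pi.single i 1) (σ i) := by
    funext T
    rw [det_eq_mat, Matrix.det_apply']
    rfl
  rw [h]
  refine Differentiable.fun_sum fun σ _ => (differentiable_const _).mul ?_
  have h2 : ∀ i, Differentiable ℂ fun T : E kk →L[ℂ] E kk => T (Pi.single i 1) (σ i) := fun i =>
    ((ContinuousLinearMap.proj (R := ℂ) (φ := fun _ : Fin kk => ℂ) (σ i)).comp
      (ContinuousLinearMap.apply ℂ (E kk) (Pi.single i (1 : ℂ) : E kk))).differentiable
  have h3 : ∀ s : Finset (Fin kk),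
      Differentiable ℂ fun T : E kk →L[ℂ] E kk => ∏ i ∈ s, T (Pi.single i 1) (σ i) := by
    intro s
    classical
    induction s using Finset.induction_on with
    | empty => simp
    | insert a s ha ih =>
      simp only [Finset.prod_insert ha]
      exact (h2 a).mul ih
  exact h3 Finset.univ

theorem bdet_diff (blk : Fin kk → Fin r) (i : Fin r) : Differentiable ℂ (bdet blk i) := by
  refine det_diff.comp ?_
  exact ((differentiable_const _).mul differentiable_id).add (differentiable_const _)

/-- bound of the determinant -/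
theorem det_le (T : E kk →L[ℂ] E kk) {x : ℝ} (hx : ∀ v, ‖T v‖ ≤ x * ‖v‖) :
    ‖T.det‖ ≤ (kk.factorial : ℝ) * x ^ kk := by
  rw [det_eq_mat]
  have h := Matrix.det_le (A := (Matrix.of fun i j => T (Pi.single j 1) i : Matrix (Fin kk) (Fin kk) ℂ))
    (abv := NormedField.toAbsoluteValue ℂ) (x := x) (fun i j => by
      show ‖T (Pi.single j 1) i‖ ≤ x
      refine (norm_le_pi_norm _ i).trans ((hx _).trans ?_)
      have : ‖(Pi.single j (1 : ℂ) : E kk)‖ = 1 := by
        rw [Pi.norm_single]; simp
      rw [this, mul_one])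
  rw [Fintype.card_fin, nsmul_eq_mul] at h
  exact h

/-- product of two block maps -/
theorem blk_mul (blk : Fin kk → Fin r) {T : E kk →L[ℂ] E kk} (S : E kk →L[ℂ] E kk)
    (hT : ∀ x, T * sc blk x = sc blk x * T) (x y : Fin r → ℂ) :
    (sc blk x * T + sc blk (1 - x)) * (sc blk y * S + sc blk (1 - y)) =
      sc blk (x * y) * (T * S) + sc blk (x * (1 - y)) * T + sc blk ((1 - x) * y) * S +
        sc blk ((1 - x) * (1 - y)) := by
  rw [mul_add, add_mul, add_mul]
  have e1 : sc blk x * T * (sc blk y * S) = sc blk (x * y) * (T * S) := by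
    rw [sc_mul, mul_assoc, ← mul_assoc T, hT, mul_assoc, mul_assoc]
  have e2 : sc blk (1 - x) * (sc blk y * S) = sc blk ((1 - x) * y) * S := by
    rw [sc_mul, mul_assoc]
  have e3 : sc blk x * T * sc blk (1 - y) = sc blk (x * (1 - y)) * T := by
    rw [sc_mul, mul_assoc, hT, mul_assoc]
  rw [e1, e2, e3, ← sc_mul]
  abel

theorem sc_zero (blk : Fin kk → Fin r) : sc blk 0 = 0 := by
  ext1 v; funext j; simp

theorem bdet_mul (blk : Fin kk → Fin r) (i : Fin r) {T : E kk →L[ℂ] E kk} (S : E kk →L[ℂ] E kk)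
    (hT : ∀ x, T * sc blk x = sc blk x * T) : bdet blk i (T * S) = bdet blk i T * bdet blk i S := by
  have h1 : (Pi.single i 1 : Fin r → ℂ) * Pi.single i 1 = Pi.single i 1 := by
    rw [← Pi.single_mul, one_mul]
  have h2 : (Pi.single i 1 : Fin r → ℂ) * (1 - Pi.single i 1) = 0 := by
    rw [mul_sub, mul_one, h1, sub_self]
  have h3 : (1 - Pi.single i 1 : Fin r → ℂ) * Pi.single i 1 = 0 := by
    rw [sub_mul, one_mul, h1, sub_self]
  have h4 : (1 - Pi.single i 1 : Fin r → ℂ) * (1 - Pi.single i 1) = 1 - Pi.single i 1 := by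
    rw [mul_sub, mul_one, h3, sub_zero]
  unfold bdet
  rw [← det_mul', blk_mul blk S hT, h1, h2, h3, h4, sc_zero, zero_mul, zero_mul, add_zero, add_zero]

theorem bdet_one (blk : Fin kk → Fin r) (i : Fin r) : bdet blk i 1 = 1 := by
  unfold bdet
  rw [mul_one, ← sc_add, add_sub_cancel, sc_one, det_one']

theorem bdet_ne (blk : Fin kk → Fin r) (i : Fin r) {T T' : E kk →L[ℂ] E kk} (h : T * T' = 1)
    (hT : ∀ x, T * sc blk x = sc blk x * T) : bdet blk i T ≠ 0 := by
  intro h0
  have := bdet_mul blk i T' hT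
  rw [h, bdet_one, h0, zero_mul] at this
  exact one_ne_zero this

theorem nu_pos (blk : Fin kk → Fin r) (T T' : E kk →L[ℂ] E kk) (h : T * T' = 1)
    (hT : ∀ x, T * sc blk x = sc blk x * T) (_ : ∀ x, T' * sc blk x = sc blk x * T') (i : Fin r) :
    0 < nu blk T i :=
  Real.rpow_pos_of_pos (norm_pos_iff.2 (bdet_ne blk i h hT)) _

theorem nu_mul (blk : Fin kk → Fin r) (T T' : E kk →L[ℂ] E kk)
    (hT : ∀ x, T * sc blk x = sc blk x * T) (_ : ∀ x, T' * sc blk x = sc blk x * T') (i : Fin r) :
    nu blk (T * T') i = nu blk T i * nu blk T' i := by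
  unfold nu
  rw [bdet_mul blk i T' hT, norm_mul, Real.mul_rpow (norm_nonneg _) (norm_nonneg _)]

theorem nu_one (blk : Fin kk → Fin r) (i : Fin r) : nu blk 1 i = 1 := by
  unfold nu
  rw [bdet_one, norm_one, Real.one_rpow]

theorem sc_congr (blk : Fin kk → Fin r) {x y : Fin r → ℂ} (h : ∀ j, x (blk j) = y (blk j)) :
    sc blk x = sc blk y := by
  ext1 v; funext j
  rw [sc_apply, sc_apply, h]

/-- an empty block has determinant one -/
theorem bdet_empty (blk : Fin kk → Fin r) (i : Fin r) (hi : bsz blk i = 0) (T : E kk →L[ℂ] E kk) :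
    sc blk (Pi.single i 1) = 0 ∧ bdet blk i T = 1 := by
  have h : ∀ j, blk j ≠ i := by
    intro j hj
    have : j ∈ (Finset.univ.filter fun j => blk j = i) := by simp [hj]
    rw [Finset.card_eq_zero.1 hi] at this
    exact absurd this (Finset.notMem_empty _)
  have h0 : sc blk (Pi.single i 1) = 0 := by
    rw [← sc_zero blk]
    exact sc_congr blk fun j => by simp [h j]
  have h1 : sc blk (1 - Pi.single i 1) = 1 := by
    rw [← sc_one blk]
    exact sc_congr blk fun j => by simp [h j]
  refine ⟨h0, ?_⟩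
  unfold bdet
  rw [h0, h1, zero_mul, zero_add, det_one']

theorem nu_pow (blk : Fin kk → Fin r) (i : Fin r) (T : E kk →L[ℂ] E kk) :
    nu blk T i ^ bsz blk i = ‖bdet blk i T‖ := by
  by_cases hi : bsz blk i = 0
  · rw [hi, pow_zero, (bdet_empty blk i hi T).2, norm_one]
  · exact Real.rpow_inv_natCast_pow (norm_nonneg _) hi

theorem prod_blk (blk : Fin kk → Fin r) {M : Type} [CommMonoid M] (f : Fin r → M) :
    ∏ j, f (blk j) = ∏ i, f i ^ bsz blk i := by
  rw [← Finset.prod_fiberwise Finset.univ blk fun j => f (blk j)]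
  refine Finset.prod_congr rfl fun i _ => ?_
  rw [Finset.prod_congr rfl (fun j hj => by rw [(Finset.mem_filter.1 hj).2]), Finset.prod_const]
  rfl

/-- the determinant is the product of the block determinants -/
theorem det_prod (blk : Fin kk → Fin r) {T : E kk →L[ℂ] E kk}
    (hT : ∀ x, T * sc blk x = sc blk x * T) : T.det = ∏ i, bdet blk i T := by
  classical
  have key : ∀ s : Finset (Fin r), (sc blk (fun i => if i ∈ s then 1 else 0) * T +
      sc blk (1 - fun i => if i ∈ s then 1 else 0)).det = ∏ i ∈ s, bdet blk i T := by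
    intro s
    induction s using Finset.induction_on with
    | empty =>
      have h0 : (fun i : Fin r => if i ∈ (∅ : Finset (Fin r)) then (1 : ℂ) else 0) = 0 := by
        funext i; simp
      rw [h0, sc_zero, zero_mul, zero_add, sub_zero, sc_one, det_one', Finset.prod_empty]
    | insert a s ha ih =>
      rw [Finset.prod_insert ha, ← ih, mul_comm]
      unfold bdet
      rw [← det_mul', blk_mul blk T hT]
      set x : Fin r → ℂ := fun i => if i ∈ s then 1 else 0 with hx
      have hxa : x * Pi.single a 1 = 0 := by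
        funext i
        by_cases h : i = a
        · subst h; simp [hx, ha]
        · simp [h]
      have hins : (fun i : Fin r => if i ∈ insert a s then (1 : ℂ) else 0) = x + Pi.single a 1 := by
        funext i
        by_cases h : i = a
        · subst h; simp [hx, ha]
        · simp [hx, h]
      have e1 : x * (1 - Pi.single a 1) = x := by rw [mul_sub, mul_one, hxa, sub_zero]
      have e2 : (1 - x) * Pi.single a 1 = Pi.single a 1 := by rw [sub_mul, one_mul, hxa, sub_zero]
      have e3 : (1 - x) * (1 - Pi.single a 1) = 1 - (x + Pi.single a 1) := by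
        rw [mul_sub, mul_one, e2]; abel
      rw [hins, hxa, e1, e2, e3, sc_zero, zero_mul, zero_add, sc_add, add_mul]
  have h := key Finset.univ
  have h1 : (fun i : Fin r => if i ∈ (Finset.univ : Finset (Fin r)) then (1 : ℂ) else 0) = 1 := by
    funext i; simp
  rw [h1, sub_self, sc_zero, sc_one, one_mul, add_zero] at h
  exact h

theorem nu_det (blk : Fin kk → Fin r) (T : E kk →L[ℂ] E kk)
    (hT : ∀ x, T * sc blk x = sc blk x * T) (h0 : ∀ i, 0 < nu blk T i) :
    ‖(sc blk (fun i => ((nu blk T i : ℝ) : ℂ)⁻¹) * T).det‖ = 1 := by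
  rw [det_mul', det_sc, det_prod blk hT, prod_blk blk (fun i => ((nu blk T i : ℝ) : ℂ)⁻¹),
    ← Finset.prod_mul_distrib, norm_prod]
  refine Finset.prod_eq_one fun i _ => ?_
  rw [norm_mul, norm_pow, norm_inv, Complex.norm_real, Real.norm_of_nonneg (h0 i).le, inv_pow,
    nu_pow, inv_mul_cancel₀]
  rw [← nu_pow]
  exact (pow_pos (h0 i) _).ne'

/-- a block which is quasiconformal is bounded by its factor -/
theorem nu_bound (blk : Fin kk → Fin r) {C : ℝ} (hC : 0 < C) : ∃ C' : ℝ, 0 < C' ∧
    ∀ T : E kk →L[ℂ] E kk, (∀ x, T * sc blk x = sc blk x * T) →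
      (∀ i, ∀ v w : E kk, InB blk i v → InB blk i w → ‖T v‖ * ‖w‖ ≤ C * (‖T w‖ * ‖v‖)) →
      ∀ i v, ‖sc blk (Pi.single i 1) (T v)‖ ≤ C' * nu blk T i * ‖v‖ := by
  set C1 : ℝ := max 1 C with hC1
  have h1C : 1 ≤ C1 := le_max_left _ _
  have hCC : C ≤ C1 := le_max_right _ _
  set C2 : ℝ := (kk.factorial : ℝ) * C1 ^ kk with hC2
  have h1C2 : 1 ≤ C2 := by
    have h1 : (1 : ℝ) ≤ (kk.factorial : ℝ) := by exact_mod_cast Nat.factorial_pos kk
    have h2 : 1 ≤ C1 ^ kk := one_le_pow₀ h1C
    nlinarith
  refine ⟨C * C2, by positivity, fun T hT hq i v => ?_⟩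
  by_cases hi : bsz blk i = 0
  · rw [(bdet_empty blk i hi T).1]
    have : 0 ≤ nu blk T i := Real.rpow_nonneg (norm_nonneg _) _
    have h9 : ‖(0 : E kk →L[ℂ] E kk) (T v)‖ = 0 := norm_zero
    rw [h9]
    positivity
  obtain ⟨j, hj⟩ := Finset.card_pos.1 (Nat.pos_of_ne_zero hi)
  have hj' : blk j = i := (Finset.mem_filter.1 hj).2
  set e : E kk := Pi.single j 1 with he
  have hen : ‖e‖ = 1 := by rw [he, Pi.norm_single]; simp
  have heB : InB blk i e := by
    intro l hl
    have : l ≠ j := fun h => hl (h ▸ hj')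
    rw [he]; simp [this]
  set P := sc blk (Pi.single i (1 : ℂ)) with hP
  have hPB : ∀ v, InB blk i (P v) := by
    intro v l hl
    rw [hP, sc_apply]; simp [hl]
  have hPn : ∀ v, ‖P v‖ ≤ ‖v‖ := by
    intro v
    refine (pi_norm_le_iff_of_nonneg (norm_nonneg _)).2 fun l => ?_
    rw [hP, sc_apply]
    by_cases h : blk l = i
    · rw [h]; simpa using norm_le_pi_norm v l
    · simp [h]
  have hPid : ∀ v, InB blk i v → P v = v := by
    intro v hv
    funext l
    rw [hP, sc_apply]
    by_cases h : blk l = i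
    · rw [h]; simp
    · rw [hv l h, mul_zero]
  have hcomm : ∀ v, P (T v) = T (P v) := fun v => by
    have := hT (Pi.single i (1 : ℂ))
    exact (DFunLike.congr_fun this v).symm
  set M : ℝ := ‖T e‖ with hM
  have hM0 : 0 ≤ M := norm_nonneg _
  have hup : ∀ v, InB blk i v → ‖T v‖ ≤ C * M * ‖v‖ := by
    intro v hv
    have := hq i v e hv heB
    rw [hen, mul_one] at this
    linarith
  have hlo : ∀ v, InB blk i v → M * ‖v‖ ≤ C * ‖T v‖ := by
    intro v hv
    have := hq i e v heB hv
    rwa [hen, mul_one] at this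
  rw [hcomm]
  refine (hup _ (hPB v)).trans ?_
  have hnu0 : 0 ≤ nu blk T i := Real.rpow_nonneg (norm_nonneg _) _
  have hkey : M ≤ C2 * nu blk T i := by
    rcases hM0.eq_or_lt with h | hMp
    · rw [← h]; positivity
    -- the normalised block
    set S : E kk →L[ℂ] E kk := sc blk (Pi.single i ((M : ℂ)⁻¹)) * T + sc blk (1 - Pi.single i 1) with hS
    have hSdet : S.det = ((M : ℂ)⁻¹) ^ bsz blk i * bdet blk i T := by
      have h1 : S = sc blk (fun l => if l = i then (M : ℂ)⁻¹ else 1) *
          (sc blk (Pi.single i 1) * T + sc blk (1 - Pi.single i 1)) := by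
        rw [hS, mul_add, ← mul_assoc, ← sc_mul, ← sc_mul]
        congr 2
        · congr 1
          funext l
          by_cases h : l = i
          · subst h; simp
          · simp [h]
        · funext l
          by_cases h : l = i
          · subst h; simp
          · simp [h]
      rw [h1, det_mul', det_sc, prod_blk blk (fun l => if l = i then (M : ℂ)⁻¹ else 1)]
      congr 1
      rw [Finset.prod_eq_single i]
      · simp
      · intro l _ hl
        simp [hl]
      · intro h; exact absurd (Finset.mem_univ _) h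
    have hSlow : ∀ v, ‖v‖ ≤ C1 * ‖S v‖ := by
      intro v
      refine (pi_norm_le_iff_of_nonneg (by positivity)).2 fun l => ?_
      by_cases h : blk l = i
      · have h1 : ‖v l‖ ≤ ‖P v‖ := by
          have := norm_le_pi_norm (P v) l
          rwa [hP, sc_apply, h, Pi.single_eq_same, one_mul] at this
        have h2 := hlo _ (hPB v)
        have h3 : P (S v) = (M : ℂ)⁻¹ • T (P v) := by
          rw [← hcomm]
          funext l
          rw [hP, sc_apply, hS]
          show _ * (sc blk (Pi.single i ((M : ℂ)⁻¹)) (T v) l + sc blk (1 - Pi.single i 1) v l) =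
            (M : ℂ)⁻¹ * sc blk (Pi.single i 1) (T v) l
          rw [sc_apply, sc_apply, sc_apply]
          by_cases h : blk l = i
          · rw [h]; simp
          · simp [h]
        have h4 : ‖T (P v)‖ = M * ‖P (S v)‖ := by
          rw [h3, norm_smul, norm_inv, Complex.norm_real, Real.norm_of_nonneg hM0,
            mul_inv_cancel_left₀ hMp.ne']
        rw [h4] at h2
        have h5 : ‖P v‖ ≤ C * ‖P (S v)‖ := by
          have : M * ‖P v‖ ≤ M * (C * ‖P (S v)‖) := by linarith
          exact le_of_mul_le_mul_left this hMp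
        calc ‖v l‖ ≤ C * ‖P (S v)‖ := h1.trans h5
          _ ≤ C1 * ‖S v‖ := mul_le_mul hCC (hPn _) (norm_nonneg _) (by linarith)
      · have h1 : S v l = v l := by
          rw [hS]
          show sc blk (Pi.single i ((M : ℂ)⁻¹)) (T v) l + sc blk (1 - Pi.single i 1) v l = v l
          rw [sc_apply, sc_apply]
          simp [h]
        rw [← h1]
        have := norm_le_pi_norm (S v) l
        nlinarith [norm_nonneg (S v)]
    -- the determinant from below
    have hSinj : Function.Injective (S : E kk →ₗ[ℂ] E kk) := by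
      rw [injective_iff_map_eq_zero]
      intro v hv
      have := hSlow v
      have hv' : S v = 0 := hv
      rw [hv', norm_zero, mul_zero] at this
      exact norm_le_zero_iff.1 this
    obtain ⟨R, hR⟩ : ∃ R : E kk →L[ℂ] E kk, S * R = 1 := by
      let eq := LinearEquiv.ofInjectiveEndo (S : E kk →ₗ[ℂ] E kk) hSinj
      refine ⟨LinearMap.toContinuousLinearMap (eq.symm : E kk →ₗ[ℂ] E kk), ?_⟩
      ext1 v
      exact eq.apply_symm_apply v
    have hRn : ∀ v, ‖R v‖ ≤ C1 * ‖v‖ := by
      intro v
      have h1 := hSlow (R v)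
      have h2 : S (R v) = v := DFunLike.congr_fun hR v
      rwa [h2] at h1
    have hRdet := det_le R hRn
    have hSR : S.det * R.det = 1 := by rw [← det_mul', hR, det_one']
    have hge : 1 ≤ ‖S.det‖ * C2 := by
      have : ‖S.det‖ * ‖R.det‖ = 1 := by rw [← norm_mul, hSR, norm_one]
      rw [← this]
      exact mul_le_mul_of_nonneg_left hRdet (norm_nonneg _)
    rw [hSdet, norm_mul, norm_pow, norm_inv, Complex.norm_real, Real.norm_of_nonneg hM0,
      inv_pow, ← nu_pow] at hge
    have hMm : 0 < M ^ bsz blk i := pow_pos hMp _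
    have h6 : M ^ bsz blk i ≤ C2 * nu blk T i ^ bsz blk i := by
      have h7 : (M ^ bsz blk i)⁻¹ * nu blk T i ^ bsz blk i * C2 =
        (C2 * nu blk T i ^ bsz blk i) / M ^ bsz blk i := by
        rw [div_eq_mul_inv]; ring
      rw [h7, le_div_iff₀ hMm, one_mul] at hge
      exact hge
    have h8 : M ^ bsz blk i ≤ (C2 * nu blk T i) ^ bsz blk i := by
      rw [mul_pow]
      refine h6.trans (mul_le_mul_of_nonneg_right ?_ (pow_nonneg hnu0 _))
      exact le_self_pow₀ h1C2 hi
    exact le_of_pow_le_pow_left₀ hi (by positivity) h8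
  calc C * M * ‖P v‖ ≤ C * (C2 * nu blk T i) * ‖v‖ :=
        mul_le_mul (mul_le_mul_of_nonneg_left hkey hC.le) (hPn v) (norm_nonneg _) (by positivity)
    _ = C * C2 * nu blk T i * ‖v‖ := by ring

end Pool.Agent.H.MP_e23cd6_ag.CB
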