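import Pool.Agent.H.MP_e23cd6_ag.AK.S0
import Pool.Agent.H.MP_e23cd6_ag.CB.M0

/-!
CB Red: the hypotheses of the theorems on flat leaves and on products of lines imply those of the
theorem on quasiconformal blocks. More generally, if continuous Hermitian metrics `H b` of the leaves
are preserved by the group up to (arbitrary) factors on each block, then every invariant Kaehler metric
has bounded eccentricity on the blocks.
-/

open Set Filter Topology Metric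
open scoped ContDiff ComplexConjugate

namespace Pool.Agent.H.MP_e23cd6_ag.CB

open Pool.Agent.H.MP_e23cd6_ag.AB Pool.Agent.H.MP_e23cd6_ag.AK

variable {n kk r : ℕ} {Ω : Dom n} {Γ : Type} [Group Γ]

/-- a continuous family of Hermitian forms is comparable with the norm on compact sets -/
theorem herm_bounds {X : Type} [TopologicalSpace X] {K : Set X} (hKc : IsCompact K)
    {H : X → E kk → E kk → ℂ} (hcont : ∀ v w, ContinuousOn (fun x => H x v w) K)
    (hherm : ∀ x ∈ K, IsHerm (H x)) :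
    ∃ C : ℝ, 0 < C ∧ ∀ x ∈ K, ∀ v : E kk,
      (H x v v).re ≤ C * ‖v‖ ^ 2 ∧ ‖v‖ ^ 2 ≤ C * (H x v v).re := by
  have hS : IsCompact (K ×ˢ sphere (0 : E kk) 1) := hKc.prod (isCompact_sphere _ _)
  have hc : ContinuousOn (fun x : X × E kk => (H x.1 x.2 x.2).re)
      (K ×ˢ sphere (0 : E kk) 1) := by
    have h1 : ContinuousOn (fun x : X × E kk => ∑ p, ∑ q, x.2 p * conj (x.2 q) *
        H x.1 (Pi.single p 1) (Pi.single q 1)) (K ×ˢ sphere (0 : E kk) 1) := by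
      refine continuousOn_finsetSum _ fun p _ => continuousOn_finsetSum _ fun q _ => ?_
      refine ContinuousOn.mul ?_ ?_
      · refine Continuous.continuousOn ?_
        exact ((continuous_apply p).comp continuous_snd).mul
          (Complex.continuous_conj.comp ((continuous_apply q).comp continuous_snd))
      · exact (hcont _ _).comp continuousOn_fst fun x hx => hx.1
    refine (Complex.continuous_re.comp_continuousOn h1).congr fun x hx => ?_
    show (H x.1 x.2 x.2).re = _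
    rw [(hherm _ hx.1).expand x.2 x.2]
    rfl
  have hpos : ∀ x ∈ K ×ˢ sphere (0 : E kk) 1, 0 < (H x.1 x.2 x.2).re := by
    intro x hx
    refine (hherm _ hx.1).pos _ fun h0 => ?_
    have h1 : ‖x.2‖ = 1 := by simpa using hx.2
    rw [h0, norm_zero] at h1
    exact zero_ne_one h1
  obtain ⟨C1, hC1⟩ := hS.exists_bound_of_continuousOn hc
  obtain ⟨C2, hC2⟩ := hS.exists_bound_of_continuousOn (hc.inv₀ fun x hx => (hpos x hx).ne')
  refine ⟨max (max C1 C2) 1, lt_of_lt_of_le one_pos (le_max_right _ _), fun b hb v => ?_⟩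
  have hH := hherm b hb
  by_cases hv : v = 0
  · rw [hv, hH.zero_left]
    simp
  have hn : 0 < ‖v‖ := norm_pos_iff.2 hv
  set u : E kk := ‖v‖⁻¹ • v with hu
  have hu1 : ‖u‖ = 1 := by
    rw [hu, norm_smul, norm_inv, norm_norm, inv_mul_cancel₀ hn.ne']
  have hvu : v = ‖v‖ • u := by
    rw [hu, smul_smul, mul_inv_cancel₀ hn.ne', one_smul]
  have hmem : ((b, u) : X × E kk) ∈ K ×ˢ sphere (0 : E kk) 1 := ⟨hb, by simp [hu1]⟩
  have e : (H b v v).re = ‖v‖ ^ 2 * (H b u u).re := by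
    have e1 : H b v v = ((‖v‖ ^ 2 : ℝ) : ℂ) * H b u u := by
      conv_lhs => rw [hvu, hH.rsmul_left, hH.rsmul_right]
      push_cast
      ring
    rw [e1, Complex.re_ofReal_mul]
  have h1 : ‖(H b u u).re‖ ≤ C1 := hC1 _ hmem
  have h2 : ‖((H b u u).re)⁻¹‖ ≤ C2 := hC2 _ hmem
  have h3 : 0 < (H b u u).re := hpos _ hmem
  simp only [Real.norm_eq_abs] at h1 h2
  rw [abs_of_pos h3] at h1
  rw [abs_of_pos (inv_pos.2 h3)] at h2
  have h4 : (H b u u).re ≤ max (max C1 C2) 1 :=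
    h1.trans ((le_max_left _ _).trans (le_max_left _ _))
  have h5 : ((H b u u).re)⁻¹ ≤ max (max C1 C2) 1 :=
    h2.trans ((le_max_right _ _).trans (le_max_left _ _))
  have h6 : 1 ≤ max (max C1 C2) 1 * (H b u u).re := by
    have := mul_le_mul_of_nonneg_right h5 h3.le
    rwa [inv_mul_cancel₀ h3.ne'] at this
  rw [e]
  have hn2 : 0 < ‖v‖ ^ 2 := by positivity
  constructor
  · rw [mul_comm (‖v‖ ^ 2)]
    exact mul_le_mul_of_nonneg_right h4 hn2.le
  · calc ‖v‖ ^ 2 = ‖v‖ ^ 2 * 1 := (mul_one _).symm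
      _ ≤ ‖v‖ ^ 2 * (max (max C1 C2) 1 * (H b u u).re) :=
          mul_le_mul_of_nonneg_left h6 hn2.le
      _ = _ := by ring

/-- the restriction of a Kaehler metric to the leaves -/
theorem leaf_herm (h : KMet (TM Ω kk)) {x : E n × E kk} (hx : x ∈ TM Ω kk) :
    IsHerm (fun v w : E kk => h.h x (0, v) (0, w)) where
  add_left u v w := by
    have h1 := h.add_left x hx (0, u) (0, v) (0, w)
    rwa [Prod.mk_add_mk, add_zero] at h1
  smul_left a v w := by
    have h1 := h.smul_left x hx a (0, v) (0, w)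
    rwa [Prod.smul_mk, smul_zero] at h1
  herm v w := h.herm x hx (0, v) (0, w)
  pos v hv := h.pos x hx (0, v) fun h0 => hv (Prod.ext_iff.1 h0).2

/-- If the group preserves Hermitian metrics of the leaves up to factors on each block, every
invariant metric has bounded eccentricity on the blocks. -/
theorem ecc_of_conf (A : TotAct Ω kk Γ) (h : KMet (TM Ω kk)) (hinv : InvMet A h)
    (blk : Fin kk → Fin r) (H : E n → E kk → E kk → ℂ)
    (hcont : ∀ v w, ContinuousOn (fun b => H b v w) Ω.D) (hherm : ∀ b ∈ Ω.D, IsHerm (H b))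
    (hconf : ∀ γ, ∀ b ∈ Ω.D, ∀ z : E kk, ∀ i, ∃ ρ : ℝ, 0 < ρ ∧ ∀ v, InB blk i v →
      (H (A.β γ b) (DF A γ b z v) (DF A γ b z v)).re = ρ * (H b v v).re) :
    ∀ K ⊆ Ω.D, IsCompact K → ∃ C : ℝ, ∀ b ∈ K, ∀ z : E kk, ∀ i, ∀ v w : E kk, InB blk i v →
      InB blk i w → (h.h (b, z) (0, v) (0, v)).re * ‖w‖ ^ 2 ≤
        C * ((h.h (b, z) (0, w) (0, w)).re * ‖v‖ ^ 2) := by
  intro K hK hKc
  obtain ⟨K0, hK0, hK0c, hcc⟩ := A.cc
  have hK1c : IsCompact (K ∪ Prod.fst '' K0) := hKc.union (hK0c.image continuous_fst)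
  have hK1 : K ∪ Prod.fst '' K0 ⊆ Ω.D := by
    refine union_subset hK ?_
    rintro _ ⟨x, hx, rfl⟩
    exact (hK0 hx).1
  obtain ⟨C1, hC1, hb1⟩ := herm_bounds hK1c (H := H) (fun v w => (hcont v w).mono hK1)
    fun b hb => hherm b (hK1 hb)
  obtain ⟨C2, hC2, hb2⟩ := herm_bounds hK0c (H := fun x v w => h.h x (0, v) (0, w))
    (fun v w => ((h.smooth _ _).continuousOn).mono hK0) fun x hx => leaf_herm h (hK0 hx)
  refine ⟨C2 ^ 2 * C1 ^ 4, fun b hb z i v w hv hw => ?_⟩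
  have hbD := hK hb
  have hx : (b, z) ∈ TM Ω kk := ⟨hbD, trivial⟩
  obtain ⟨γ, hγ⟩ := hcc (b, z) hx
  obtain ⟨ρ, hρ, hρ2⟩ := hconf γ b hbD z i
  have hβ : A.β γ b ∈ K ∪ Prod.fst '' K0 := Or.inr ⟨_, hγ, A.fst γ _ hx⟩
  have hi : ∀ u : E kk, h.h (A.act γ (b, z)) (0, DF A γ b z u) (0, DF A γ b z u) =
      h.h (b, z) (0, u) (0, u) := by
    intro u
    have h1 := hinv γ (b, z) hx (0, u) (0, u)
    rw [fderiv_ver A γ hbD] at h1
    exact h1
  have upper : ∀ u : E kk, InB blk i u → (h.h (b, z) (0, u) (0, u)).re ≤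
      C2 * (C1 * (ρ * (H b u u).re)) := by
    intro u hu
    rw [← hi, ← hρ2 u hu]
    exact ((hb2 _ hγ (DF A γ b z u)).1).trans
      (mul_le_mul_of_nonneg_left (hb1 _ hβ (DF A γ b z u)).2 hC2.le)
  have lower : ∀ u : E kk, InB blk i u → ρ * (H b u u).re ≤
      C1 * (C2 * (h.h (b, z) (0, u) (0, u)).re) := by
    intro u hu
    rw [← hi, ← hρ2 u hu]
    exact ((hb1 _ hβ (DF A γ b z u)).1).trans
      (mul_le_mul_of_nonneg_left (hb2 _ hγ (DF A γ b z u)).2 hC1.le)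
  have hbK : b ∈ K ∪ Prod.fst '' K0 := Or.inl hb
  have hHv : 0 ≤ (H b v v).re := (hherm b hbD).self_nonneg v
  have hHw : 0 ≤ (H b w w).re := (hherm b hbD).self_nonneg w
  have a1 := upper v hv
  have a2 := (hb1 b hbK w).2
  have a3 := lower w hw
  have a4 := (hb1 b hbK v).1
  calc (h.h (b, z) (0, v) (0, v)).re * ‖w‖ ^ 2
      ≤ (C2 * (C1 * (ρ * (H b v v).re))) * (C1 * (H b w w).re) :=
        mul_le_mul a1 a2 (by positivity) (by positivity)
    _ = (C2 * C1 ^ 2) * ((ρ * (H b w w).re) * (H b v v).re) := by ring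
    _ ≤ (C2 * C1 ^ 2) * ((C1 * (C2 * (h.h (b, z) (0, w) (0, w)).re)) * (C1 * ‖v‖ ^ 2)) := by
        refine mul_le_mul_of_nonneg_left ?_ (by positivity)
        refine mul_le_mul a3 a4 hHv ?_
        exact mul_nonneg hC1.le (mul_nonneg hC2.le ((leaf_herm h hx).self_nonneg w))
    _ = C2 ^ 2 * C1 ^ 4 * ((h.h (b, z) (0, w) (0, w)).re * ‖v‖ ^ 2) := by ring

/-- The hypotheses of the theorem on flat leaves imply those on quasiconformal blocks (one block). -/
theorem flat_hyp {n kk : ℕ} {D : Set (E n)} (hD : IsOpen D) (hconn : IsPreconnected D)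
    (hbdd : Bornology.IsBounded D) {Γ : Type} [Group Γ] (g : Γ → E n × E kk → E n × E kk)
    (maps : ∀ γ, MapsTo (g γ) (D ×ˢ univ) (D ×ˢ univ))
    (holo : ∀ γ, DifferentiableOn ℂ (g γ) (D ×ˢ univ))
    (one : ∀ x ∈ D ×ˢ (univ : Set (E kk)), g 1 x = x)
    (mul : ∀ γ δ, ∀ x ∈ D ×ˢ (univ : Set (E kk)), g (γ * δ) x = g γ (g δ x))
    (pd : ∀ K ⊆ D ×ˢ (univ : Set (E kk)), IsCompact K → {γ | (g γ '' K ∩ K).Nonempty}.Finite)
    (cc : ∃ K ⊆ D ×ˢ (univ : Set (E kk)), IsCompact K ∧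
      ∀ x ∈ D ×ˢ (univ : Set (E kk)), ∃ γ, g γ x ∈ K)
    (h : KMet (D ×ˢ (univ : Set (E kk))))
    (hinv : ∀ γ, ∀ x ∈ D ×ˢ (univ : Set (E kk)), ∀ v w,
      h.h (g γ x) (fderiv ℂ (g γ) x v) (fderiv ℂ (g γ) x w) = h.h x v w)
    (H : E n → E kk → E kk → ℂ) (hcont : ∀ v w, ContinuousOn (fun b => H b v w) D)
    (hherm : ∀ b ∈ D, IsHerm (H b))
    (hflat : ∀ γ, ∀ x ∈ D ×ˢ (univ : Set (E kk)), ∀ v w, H (g γ x).1 (fderiv ℂ (g γ) x (0, v)).2
      (fderiv ℂ (g γ) x (0, w)).2 = H x.1 v w) :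
    ∃ blk : Fin kk → Fin 1,
      (∀ γ, ∃ σ : Equiv.Perm (Fin 1), ∀ b ∈ D, ∀ z z' : E kk, ∀ i,
        (∀ j, blk j = σ i → z j = z' j) → ∀ j, blk j = i → (g γ (b, z)).2 j = (g γ (b, z')).2 j) ∧
      (∀ K ⊆ D, IsCompact K → ∃ C : ℝ, ∀ b ∈ K, ∀ z : E kk, ∀ i, ∀ v w : E kk,
        (∀ j, blk j ≠ i → v j = 0) → (∀ j, blk j ≠ i → w j = 0) →
        (h.h (b, z) (0, v) (0, v)).re * ‖w‖ ^ 2 ≤
          C * ((h.h (b, z) (0, w) (0, w)).re * ‖v‖ ^ 2)) := by
  refine ⟨fun _ => 0, fun γ => ⟨1, fun b _ z z' i hz j _ => ?_⟩, ?_⟩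
  · have : z = z' := funext fun j => hz j (Subsingleton.elim _ _)
    rw [this]
  · rcases D.eq_empty_or_nonempty with rfl | ⟨b0, hb0⟩
    · exact fun K hK _ => ⟨1, fun b hb => absurd (hK hb) (by simp)⟩
    · obtain ⟨s, hs, hball⟩ := Metric.nhds_basis_closedBall.mem_iff.mp (hD.mem_nhds hb0)
      let Ω : Dom n := ⟨D, hD, hconn, hbdd, b0, s / 2, s, by linarith, by linarith, hball⟩
      obtain ⟨A, rfl⟩ := exists_totAct Ω kk g maps holo one mul pd cc
      refine ecc_of_conf A h hinv (fun _ => 0) H hcont hherm fun γ b hb z i => ?_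
      refine ⟨1, one_pos, fun v _ => ?_⟩
      have h1 := hflat γ (b, z) ⟨hb, trivial⟩ v v
      rw [fderiv_ver A γ hb, A.fst γ (b, z) ⟨hb, trivial⟩] at h1
      rw [one_mul]
      exact congrArg Complex.re h1

/-- The hypotheses of the theorem on products of lines imply those on quasiconformal blocks
(`kk` blocks). -/
theorem prod_hyp {n kk : ℕ} {D : Set (E n)} {Γ : Type} (g : Γ → E n × E kk → E n × E kk)
    (h : KMet (D ×ˢ (univ : Set (E kk))))
    (hperm : ∀ γ, ∃ σ : Equiv.Perm (Fin kk), ∀ b ∈ D, ∀ z z' : E kk, ∀ i,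
      z (σ i) = z' (σ i) → (g γ (b, z)).2 i = (g γ (b, z')).2 i) :
    (∀ γ, ∃ σ : Equiv.Perm (Fin kk), ∀ b ∈ D, ∀ z z' : E kk, ∀ i,
      (∀ j, id j = σ i → z j = z' j) → ∀ j, id j = i → (g γ (b, z)).2 j = (g γ (b, z')).2 j) ∧
    (∀ K ⊆ D, IsCompact K → ∃ C : ℝ, ∀ b ∈ K, ∀ z : E kk, ∀ i, ∀ v w : E kk,
      (∀ j, id j ≠ i → v j = 0) → (∀ j, id j ≠ i → w j = 0) →
      (h.h (b, z) (0, v) (0, v)).re * ‖w‖ ^ 2 ≤
        C * ((h.h (b, z) (0, w) (0, w)).re * ‖v‖ ^ 2)) := by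
  refine ⟨fun γ => ?_, fun K hK _ => ⟨1, fun b hb z i v w hv hw => ?_⟩⟩
  · obtain ⟨σ, hσ⟩ := hperm γ
    refine ⟨σ, fun b hb z z' i hz j hj => ?_⟩
    have hj' : j = i := hj
    rw [hj']
    exact hσ b hb z z' i (hz (σ i) rfl)
  · have hx : ((b, z) : E n × E kk) ∈ D ×ˢ (univ : Set (E kk)) := ⟨hK hb, trivial⟩
    have key : ∀ u : E kk, (∀ j, id j ≠ i → u j = 0) →
        (h.h (b, z) (0, u) (0, u)).re =
          ‖u i‖ ^ 2 * (h.h (b, z) (0, Pi.single i 1) (0, Pi.single i 1)).re ∧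
        ‖u‖ = ‖u i‖ := by
      intro u hu
      have e1 : u = Pi.single i (u i) := by
        funext j
        by_cases hj : j = i
        · rw [hj, Pi.single_eq_same]
        · rw [Pi.single_eq_of_ne hj, hu j hj]
      have e2 : ((0, u) : E n × E kk) = (u i) • (0, Pi.single i 1) := by
        rw [Prod.smul_mk, smul_zero, ← Pi.single_smul, smul_eq_mul, mul_one, ← e1]
      have e3 : h.h (b, z) (0, u) (0, u) = ((‖u i‖ ^ 2 : ℝ) : ℂ) *
          h.h (b, z) (0, Pi.single i 1) (0, Pi.single i 1) := by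
        rw [e2, h.smul_left _ hx, h.herm _ hx (u i • ((0, Pi.single i 1) : E n × E kk)),
          h.smul_left _ hx, map_mul, ← h.herm _ hx, ← mul_assoc, Complex.mul_conj,
          Complex.normSq_eq_norm_sq]
      refine ⟨by rw [e3, Complex.re_ofReal_mul], ?_⟩
      conv_lhs => rw [e1]
      rw [Pi.norm_single]
    obtain ⟨k1, k2⟩ := key v hv
    obtain ⟨k3, k4⟩ := key w hw
    rw [k1, k2, k3, k4, one_mul]
    apply le_of_eq
    ring

end Pool.Agent.H.MP_e23cd6_ag.CB
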