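import Mathlib

/-!
CB/Z1: unitary elements near one: a commutator which commutes with one of its entries is one.

`eq_one_of_pow_near`: an element all of whose powers stay at distance `≤ s < 1` from `1` is `1`.
`comm_one`: if `W = A B A⁻¹ B⁻¹` commutes with `A`, then `W ^ m = A ^ m B A⁻ᵐ B⁻¹`, which is near `1` for all `m` when the powers of `A` are bounded and `B` is near `1`.
-/

open Set Filter Topology Metric

namespace Pool.Agent.H.MP_e23cd6_ag.CB

theorem eq_one_of_pow_near {R : Type*} [NormedRing R] [NormedAlgebra ℂ R] {W : R} {s : ℝ}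
    (hs : s < 1) (h : ∀ m : ℕ, ‖W ^ m - 1‖ ≤ s) : W = 1 := by
  have hbdd : BddAbove (range fun m : ℕ => ‖W ^ m - 1‖) := ⟨s, by rintro _ ⟨m, rfl⟩; exact h m⟩
  set t := ⨆ m : ℕ, ‖W ^ m - 1‖ with ht
  have ht1 : t ≤ s := ciSup_le h
  have hle : ∀ m : ℕ, ‖W ^ m - 1‖ ≤ t := fun m => le_ciSup hbdd m
  have ht0 : 0 ≤ t := (norm_nonneg _).trans (hle 0)
  have hstep : ∀ m : ℕ, 2 * ‖W ^ m - 1‖ ≤ t + t * t := by
    intro m
    have e : (2 : ℂ) • (W ^ m - 1) = (W ^ (m + m) - 1) - (W ^ m - 1) * (W ^ m - 1) := by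
      rw [pow_add, two_smul]
      noncomm_ring
    have h1 : ‖(2 : ℂ) • (W ^ m - 1)‖ = 2 * ‖W ^ m - 1‖ := by
      rw [norm_smul]
      simp
    rw [← h1, e]
    refine (norm_sub_le _ _).trans (add_le_add (hle _) ?_)
    exact (norm_mul_le _ _).trans (mul_le_mul (hle m) (hle m) (norm_nonneg _) ht0)
  have h2 : t ≤ (t + t * t) / 2 := ciSup_le fun m => by linarith [hstep m]
  have h3 : t = 0 := by nlinarith
  have h4 := hle 1
  rw [h3, pow_one] at h4
  exact sub_eq_zero.1 (norm_le_zero_iff.1 h4)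

theorem comm_one {R : Type*} [NormedRing R] [NormedAlgebra ℂ R] {A A' B B' : R}
    (hA' : A' * A = 1) (hB : B * B' = 1) (hB' : B' * B = 1)
    {C δ : ℝ} (hCA : ∀ m : ℕ, ‖A ^ m‖ ≤ C) (hCA' : ∀ m : ℕ, ‖A' ^ m‖ ≤ C) (hCB' : ‖B'‖ ≤ C)
    (hA : A * A' = 1)
    (hW : (A * B * A' * B') * A = A * (A * B * A' * B')) (hB1 : ‖B - 1‖ ≤ δ)
    (hδ : (C ^ 2 + 1) * C * δ < 1) : A * B * A' * B' = 1 := by
  have hC0 : 0 ≤ C := (norm_nonneg _).trans hCB'
  have hδ0 : 0 ≤ δ := (norm_nonneg _).trans hB1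
  set W := A * B * A' * B' with hWdef
  have hWA : ∀ m : ℕ, W * A ^ m = A ^ m * W := fun m => ((show Commute W A from hW).pow_right m).eq
  have hpow : ∀ m : ℕ, W ^ m = A ^ m * B * A' ^ m * B' := by
    intro m
    induction m with
    | zero => simp [hB]
    | succ m ih =>
      rw [pow_succ', ih]
      calc W * (A ^ m * B * A' ^ m * B') = (W * A ^ m) * B * A' ^ m * B' := by noncomm_ring
        _ = A ^ m * (A * B * A' * B') * B * A' ^ m * B' := by rw [hWA]
        _ = A ^ m * A * B * A' * (B' * B) * A' ^ m * B' := by noncomm_ring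
        _ = A ^ (m + 1) * B * A' ^ (m + 1) * B' := by
          rw [hB', mul_one, pow_succ A, pow_succ' A']
          noncomm_ring
  have hAA : ∀ m : ℕ, A ^ m * A' ^ m = 1 := by
    intro m
    have h1 : Commute A A' := by rw [Commute, SemiconjBy, hA, hA']
    rw [← h1.mul_pow, hA, one_pow]
  refine eq_one_of_pow_near hδ fun m => ?_
  have e : W ^ m - 1 = (A ^ m * (B - 1) * A' ^ m - (B - 1)) * B' := by
    rw [hpow]
    have h2 := hAA m
    calc A ^ m * B * A' ^ m * B' - 1 = A ^ m * B * A' ^ m * B' - B * B' := by rw [hB]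
      _ = (A ^ m * B * A' ^ m - A ^ m * A' ^ m - (B - A ^ m * A' ^ m)) * B' := by noncomm_ring
      _ = (A ^ m * B * A' ^ m - A ^ m * A' ^ m - (B - 1)) * B' := by rw [h2]
      _ = _ := by noncomm_ring
  rw [e]
  have h3 : ‖A ^ m * (B - 1) * A' ^ m‖ ≤ C * δ * C := by
    refine (norm_mul_le _ _).trans (mul_le_mul ?_ (hCA' m) (norm_nonneg _) (by positivity))
    exact (norm_mul_le _ _).trans (mul_le_mul (hCA m) hB1 (norm_nonneg _) hC0)
  have h4 : ‖A ^ m * (B - 1) * A' ^ m - (B - 1)‖ ≤ C * δ * C + δ :=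
    (norm_sub_le _ _).trans (add_le_add h3 hB1)
  calc ‖(A ^ m * (B - 1) * A' ^ m - (B - 1)) * B'‖ ≤ (C * δ * C + δ) * C :=
        (norm_mul_le _ _).trans (mul_le_mul h4 hCB' (norm_nonneg _) (by positivity))
    _ = (C ^ 2 + 1) * C * δ := by ring

end Pool.Agent.H.MP_e23cd6_ag.CB
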